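import Pool.Agent.H62.CJ.P2

/-!
# CN-HO: Hoelder

PROOF.  Jensen/Hoelder on the interval of length `2 pi` (`integral_mul_le_Lp_mul_Lq_of_nonneg` with `f = ‖F'‖`, `g = 1`,
exponents `p` and `p/(p-1)`, model: `PP_holder` in `Pool/Agent/H62/CJ/S6.lean`).  The case `p = 1` is excluded.
-/

set_option autoImplicit false

open Set Metric MeasureTheory H62.CJ

namespace H78.CN

theorem holder (F : ℂ → ℂ) (M : ℝ) (hF : Cls F M) (p y : ℝ) (hp : 1 < p) (hy : 0 < y) :
    PP F 1 y ≤ (2 * Real.pi) ^ (1 - 1 / p) * (PP F p y) ^ (1 / p) := by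
  have hcont : Continuous fun x : ℝ => ‖deriv F (pt x y)‖ := by
    have hopen : IsOpen HP := isOpen_lt continuous_const Complex.continuous_im
    have h1 : ContinuousOn (deriv F) HP := (hF.diff.deriv hopen).continuousOn
    have h2 : Continuous fun x : ℝ => pt x y := by
      simp only [pt_eq]
      fun_prop
    exact (h1.comp_continuous h2 fun x => hy).norm
  have hpq : p.HolderConjugate (p / (p - 1)) := by
    rw [Real.holderConjugate_iff]
    refine ⟨hp, ?_⟩
    have h1 : p ≠ 0 := by linarith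
    have h2 : p - 1 ≠ 0 := by linarith
    field_simp
    ring
  have hmem : ∀ q : ENNReal, MemLp (fun x : ℝ => ‖deriv F (pt x y)‖) q
      (volume.restrict (Ioc (0 : ℝ) (2 * Real.pi))) := by
    intro q
    obtain ⟨B, hB⟩ := (isCompact_Icc (a := (0 : ℝ)) (b := 2 * Real.pi)).exists_bound_of_continuousOn
      hcont.continuousOn
    refine MemLp.of_bound hcont.aestronglyMeasurable B ?_
    refine (ae_restrict_iff' measurableSet_Ioc).mpr (Filter.Eventually.of_forall fun x hx => ?_)
    exact hB x (Ioc_subset_Icc_self hx)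
  have key := integral_mul_le_Lp_mul_Lq_of_nonneg
    (μ := volume.restrict (Ioc (0 : ℝ) (2 * Real.pi))) hpq
    (f := fun x : ℝ => ‖deriv F (pt x y)‖)
    (g := fun _ : ℝ => (1 : ℝ))
    (Filter.Eventually.of_forall fun x => norm_nonneg _)
    (Filter.Eventually.of_forall fun x => zero_le_one)
    (hmem _) (memLp_const 1)
  have hpi : (0 : ℝ) ≤ 2 * Real.pi := by positivity
  have e1 : PP F 1 y = ∫ x in Ioc (0 : ℝ) (2 * Real.pi), ‖deriv F (pt x y)‖ * 1 := by
    rw [PP, intervalIntegral.integral_of_le hpi]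
    refine integral_congr_ae (Filter.Eventually.of_forall fun x => ?_)
    change ‖deriv F (pt x y)‖ ^ (1 : ℝ) = ‖deriv F (pt x y)‖ * 1
    rw [Real.rpow_one, mul_one]
  have e2 : PP F p y = ∫ x in Ioc (0 : ℝ) (2 * Real.pi), ‖deriv F (pt x y)‖ ^ p := by
    rw [PP, intervalIntegral.integral_of_le hpi]
  have e3 : (∫ _ in Ioc (0 : ℝ) (2 * Real.pi), (1 : ℝ) ^ (p / (p - 1))) = 2 * Real.pi := by
    simp only [Real.one_rpow]
    rw [← intervalIntegral.integral_of_le hpi, intervalIntegral.integral_const, smul_eq_mul,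
      mul_one, sub_zero]
  have e4 : 1 / (p / (p - 1)) = 1 - 1 / p := by
    have h1 : p ≠ 0 := by linarith
    have h2 : p - 1 ≠ 0 := by linarith
    field_simp
  rw [e3, e4] at key
  rw [e1, e2]
  refine key.trans (le_of_eq ?_)
  exact mul_comm _ _

end H78.CN
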