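import Pool.Agent.H62.CJ.Def

/-!
# Project CN (MP_ecfee9_an, Carleson-Jones exponent): gamma >= 0.74

Paper proof: note 1443.  The class `Cls F M`, `pt`, `strip`, `AA`, `VV`, `PP`, `B1`, `B2` are those of
helper62 (`Pool.Agent.H62.CJ.Def`).

`DD F y` is the image of the half plane `Im > y`, `rr F w y` the distance of `w` from it,
`Near F w x y` says that `F (x + i y)` is a nearest point for `w`, `NP F` says that nearest points exist.
-/

set_option autoImplicit false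

open Set Metric MeasureTheory H62.CJ

namespace H78.CN

/-- the image of the half plane `Im > y` (for `y < 0`: of the upper half plane) -/
def DD (F : ℂ → ℂ) (y : ℝ) : Set ℂ := F '' {z : ℂ | 0 < z.im ∧ y < z.im}

/-- the distance of `w` from `DD F y` -/
noncomputable def rr (F : ℂ → ℂ) (w : ℂ) (y : ℝ) : ℝ := infDist w (DD F y)

/-- `F (x + i y)` is a nearest point for `w` -/
def Near (F : ℂ → ℂ) (w : ℂ) (x y : ℝ) : Prop := rr F w y = ‖w - F (pt x y)‖

/-- nearest points exist -/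
def NP (F : ℂ → ℂ) : Prop :=
  ∀ y : ℝ, 0 < y → ∀ ζ : ℂ, 0 < ζ.im → ζ.im < y →
    ∃ x ∈ Ico (0 : ℝ) (2 * Real.pi), Near F (F ζ) x y

/-- `F` extends nicely to `Im > -h` -/
structure Ext (F : ℂ → ℂ) (h : ℝ) : Prop where
  pos : 0 < h
  diff : DifferentiableOn ℂ F {z : ℂ | -h < z.im}
  per : ∀ z : ℂ, -h < z.im → F (z + ((2 * Real.pi : ℝ) : ℂ)) = F z
  ne : ∀ z : ℂ, -h < z.im → deriv F z ≠ 0

/-- the curvature number `Im (F''/F')` at `x + i y` -/
noncomputable def kk (F : ℂ → ℂ) (x y : ℝ) : ℝ :=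
  (deriv (deriv F) (pt x y) / deriv F (pt x y)).im

/-- the one-variable cost integral -/
noncomputable def tau (q eta lam d k : ℝ) : ENNReal :=
  ∫⁻ s in Ioi (0 : ℝ), ENNReal.ofReal (s ^ (-q) - lam ^ eta * (s + d) ^ (-q)) *
    ENNReal.ofReal (1 + k * s)

/-- the limit density -/
noncomputable def Hs (q eta s k : ℝ) : ℝ :=
  -s ^ (-q) - eta * (s ^ (1 - q) / (1 - q)) +
    k * (q * (s ^ (1 - q) / (1 - q)) - eta * (s ^ (2 - q) / (2 - q)))

/-- the quadratic majorant, `R = q / eta`, excess constant `c0`, centre `bb` -/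
noncomputable def QQ (q eta c0 bb k : ℝ) : ℝ :=
  -1 + q / (2 - q) * (q / eta) * k + c0 * (k - bb) ^ 2

/-- the integral `int_0^b y^(eta - q) int_0^{2 pi} |F'|^(2 - q)` -/
noncomputable def II (F : ℂ → ℂ) (q eta b : ℝ) : ENNReal :=
  ∫⁻ y in Ioo 0 b, ENNReal.ofReal (y ^ (eta - q)) *
    ∫⁻ x in Ioo 0 (2 * Real.pi), ENNReal.ofReal (‖deriv F (pt x y)‖ ^ (2 - q))

end H78.CN
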