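import Pool.Agent.H62.CJ.P2
import Pool.Agent.H78.CN.Def

/-!
# CN-MO: exact moments up to height 0

`F` in the class with `‖F'‖ <= L` on `0 < Im <= 1/2`, `0 < b <= 1/2`, `sg > 0`.
PROOF.  `0 <= PP F p y <= 2 pi L^p` for `0 < y <= 1/2`, `|B1| <= 4 PP` (`B1_le`), `0 <= B2 <= 16 PP` (`AA_le`), all three
are continuous on `(0, ∞)` (`PP_continuousOn`, ...), and `y^(sg-1)` is integrable on `(0, b]`, so the three functions are
integrable (`Integrable.mono'`).  `parts1`, `parts2` (P2) on `[T, b]` and `T -> 0+`: `T^sg PP F p T -> 0`,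
`T^sg B1 F p T -> 0`, and the interval integrals over `T..b` converge to the integrals over `Ioc 0 b`
(`intervalIntegral.continuousOn_primitive_interval`, `intervalIntegral_tendsto_integral`-type lemmas or
`tendsto_setIntegral_of_antitone`...; `uniqueness of limits`).
-/

set_option autoImplicit false

open Set Metric MeasureTheory H62.CJ

namespace H78.CN

theorem mo_lim (f : ℝ → ℝ) (b : ℝ) (hb : 0 < b) (hf : IntegrableOn f (Ioc 0 b)) :
    Filter.Tendsto (fun T : ℝ => ∫ y in T..b, f y) (nhdsWithin 0 (Ioc 0 b))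
      (nhds (∫ y in Ioc 0 b, f y)) := by
  have hi : IntegrableOn f (uIcc 0 b) := by
    rw [uIcc_of_le hb.le]
    exact (integrableOn_Icc_iff_integrableOn_Ioc (by simp)).2 hf
  have h1 : ContinuousOn (fun x => ∫ t in (0 : ℝ)..x, f t) (uIcc 0 b) :=
    intervalIntegral.continuousOn_primitive_interval hi
  have h2 : Filter.Tendsto (fun x => ∫ t in (0 : ℝ)..x, f t) (nhdsWithin 0 (Ioc 0 b))
      (nhds (∫ t in (0 : ℝ)..0, f t)) :=
    (h1 0 left_mem_uIcc).mono_left (nhdsWithin_mono 0 (by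
      rw [uIcc_of_le hb.le]
      exact Ioc_subset_Icc_self))
  rw [intervalIntegral.integral_same] at h2
  have h3 : Filter.Tendsto (fun T : ℝ => (∫ y in (0 : ℝ)..b, f y) - ∫ y in (0 : ℝ)..T, f y)
      (nhdsWithin 0 (Ioc 0 b)) (nhds ((∫ y in (0 : ℝ)..b, f y) - 0)) :=
    tendsto_const_nhds.sub h2
  rw [sub_zero, intervalIntegral.integral_of_le hb.le] at h3
  refine h3.congr' ?_
  filter_upwards [self_mem_nhdsWithin] with T hT
  have hi0 : IntervalIntegrable f volume 0 T :=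
    (intervalIntegrable_iff_integrableOn_Ioc_of_le hT.1.le).2
      (hf.mono_set (Ioc_subset_Ioc_right hT.2))
  have hib : IntervalIntegrable f volume T b :=
    (intervalIntegrable_iff_integrableOn_Ioc_of_le hT.2).2
      (hf.mono_set (Ioc_subset_Ioc_left hT.1.le))
  rw [← intervalIntegral.integral_of_le hb.le,
    ← intervalIntegral.integral_add_adjacent_intervals hi0 hib]
  ring

theorem mo_integrable (w : ℝ → ℝ) (C sg b : ℝ) (hs : 0 < sg) (hb : 0 < b)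
    (hw : ContinuousOn w (Ioi 0)) (hC : ∀ y, 0 < y → y ≤ b → |w y| ≤ C) :
    IntegrableOn (fun y => y ^ (sg - 1) * w y) (Ioc 0 b) := by
  have h1 : IntegrableOn (fun y : ℝ => y ^ (sg - 1)) (Ioc 0 b) :=
    (intervalIntegrable_iff_integrableOn_Ioc_of_le hb.le).1
      (intervalIntegral.intervalIntegrable_rpow' (by linarith))
  have hsub : Ioc 0 b ⊆ Ioi (0 : ℝ) := fun y hy => hy.1
  have hr : ContinuousOn (fun y : ℝ => y ^ (sg - 1)) (Ioi 0) := by
    intro y hy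
    exact (Real.continuousAt_rpow_const y (sg - 1) (Or.inl (ne_of_gt hy))).continuousWithinAt
  refine Integrable.mono' (h1.const_mul C)
    (((hr.mul hw).mono hsub).aestronglyMeasurable measurableSet_Ioc) ?_
  filter_upwards [ae_restrict_mem measurableSet_Ioc] with y hy
  rw [norm_mul, Real.norm_of_nonneg (Real.rpow_nonneg hy.1.le _), Real.norm_eq_abs, mul_comm C]
  exact mul_le_mul_of_nonneg_left (hC y hy.1 hy.2) (Real.rpow_nonneg hy.1.le _)

theorem mo_core (u w : ℝ → ℝ) (C p c sg b : ℝ) (hs : 0 < sg) (hb : 0 < b)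
    (hu : ∀ y, 0 < y → y ≤ b → |u y| ≤ C)
    (hiu : IntegrableOn (fun y => y ^ (sg - 1) * u y) (Ioc 0 b))
    (hiw : IntegrableOn (fun y => y ^ (sg - 1) * w y) (Ioc 0 b))
    (hparts : ∀ a : ℝ, 0 < a → a ≤ b → ∫ y in a..b, y ^ (sg - 1) * w y =
      1 / p * (a ^ sg * u a - b ^ sg * u b) + c / p * ∫ y in a..b, y ^ (sg - 1) * u y) :
    ∫ y in Ioc 0 b, y ^ (sg - 1) * w y =
      -(1 / p * (b ^ sg * u b)) + c / p * ∫ y in Ioc 0 b, y ^ (sg - 1) * u y := by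
  have hne : (nhdsWithin (0 : ℝ) (Ioc 0 b)).NeBot := by
    rw [← mem_closure_iff_nhdsWithin_neBot, closure_Ioc hb.ne]
    exact left_mem_Icc.2 hb.le
  have h1 := mo_lim _ b hb hiw
  have h2 := mo_lim _ b hb hiu
  have h3 : Filter.Tendsto (fun T : ℝ => T ^ sg * u T) (nhdsWithin 0 (Ioc 0 b)) (nhds 0) := by
    have h4 : Filter.Tendsto (fun T : ℝ => C * T ^ sg) (nhdsWithin 0 (Ioc 0 b)) (nhds 0) := by
      have h5 : Filter.Tendsto (fun T : ℝ => C * T ^ sg) (nhds 0) (nhds (C * 0 ^ sg)) :=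
        (Real.continuousAt_rpow_const 0 sg (Or.inr hs.le)).tendsto.const_mul C
      rw [Real.zero_rpow hs.ne', mul_zero] at h5
      exact h5.mono_left nhdsWithin_le_nhds
    refine squeeze_zero_norm' ?_ h4
    filter_upwards [self_mem_nhdsWithin] with T hT
    rw [norm_mul, Real.norm_of_nonneg (Real.rpow_nonneg hT.1.le _), Real.norm_eq_abs, mul_comm C]
    exact mul_le_mul_of_nonneg_left (hu T hT.1 hT.2) (Real.rpow_nonneg hT.1.le _)
  have h6 : Filter.Tendsto (fun T : ℝ => 1 / p * (T ^ sg * u T - b ^ sg * u b) +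
      c / p * ∫ y in T..b, y ^ (sg - 1) * u y) (nhdsWithin 0 (Ioc 0 b))
      (nhds (1 / p * (0 - b ^ sg * u b) + c / p * ∫ y in Ioc 0 b, y ^ (sg - 1) * u y)) :=
    ((h3.sub tendsto_const_nhds).const_mul _).add (h2.const_mul _)
  have h7 : Filter.Tendsto (fun T : ℝ => ∫ y in T..b, y ^ (sg - 1) * w y)
      (nhdsWithin 0 (Ioc 0 b))
      (nhds (1 / p * (0 - b ^ sg * u b) + c / p * ∫ y in Ioc 0 b, y ^ (sg - 1) * u y)) := by
    refine h6.congr' ?_
    filter_upwards [self_mem_nhdsWithin] with T hT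
    exact (hparts T hT.1 hT.2).symm
  rw [tendsto_nhds_unique h1 h7]
  ring

theorem mo_PP (F : ℂ → ℂ) (M : ℝ) (hF : Cls F M) (L : ℝ)
    (hL : ∀ x y : ℝ, 0 < y → y ≤ 1 / 2 → ‖deriv F (pt x y)‖ ≤ L) (p y : ℝ) (hp : 0 < p)
    (hy : 0 < y) (hy1 : y ≤ 1 / 2) : |PP F p y| ≤ 2 * Real.pi * L ^ p := by
  rw [abs_of_pos (PP_pos F M hF p y hy)]
  unfold PP
  have h1 : ∫ x in (0 : ℝ)..(2 * Real.pi), ‖deriv F (pt x y)‖ ^ p ≤
      ∫ _x in (0 : ℝ)..(2 * Real.pi), L ^ p := by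
    refine intervalIntegral.integral_mono_on (by positivity) (P2_int F M hF p y hy)
      intervalIntegrable_const fun x _ => ?_
    exact Real.rpow_le_rpow (norm_nonneg _) (hL x y hy hy1) hp.le
  refine h1.trans (le_of_eq ?_)
  rw [intervalIntegral.integral_const, sub_zero, smul_eq_mul]

theorem mo_B1 (F : ℂ → ℂ) (M : ℝ) (hF : Cls F M) (L : ℝ)
    (hL : ∀ x y : ℝ, 0 < y → y ≤ 1 / 2 → ‖deriv F (pt x y)‖ ≤ L) (p y : ℝ) (hp : 0 < p)
    (hy : 0 < y) (hy1 : y ≤ 1 / 2) : |B1 F p y| ≤ 4 * (2 * Real.pi * L ^ p) := by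
  refine (B1_le F M hF p y hy hy1).trans ?_
  have h1 := mo_PP F M hF L hL p y hp hy hy1
  have h2 := le_abs_self (PP F p y)
  linarith

theorem mo_B2 (F : ℂ → ℂ) (M : ℝ) (hF : Cls F M) (L : ℝ)
    (hL : ∀ x y : ℝ, 0 < y → y ≤ 1 / 2 → ‖deriv F (pt x y)‖ ≤ L) (p y : ℝ) (hp : 0 < p)
    (hy : 0 < y) (hy1 : y ≤ 1 / 2) : |B2 F p y| ≤ 16 * (2 * Real.pi * L ^ p) := by
  have h0 : |B2 F p y| ≤ 16 * PP F p y := by
    unfold B2 PP
    rw [← intervalIntegral.integral_const_mul, ← Real.norm_eq_abs]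
    refine intervalIntegral.norm_integral_le_of_norm_le (by positivity) ?_
      ((P2_int F M hF p y hy).const_mul 16)
    refine Filter.Eventually.of_forall fun x _ => ?_
    have h1 : 0 ≤ ‖deriv F (pt x y)‖ ^ p := Real.rpow_nonneg (norm_nonneg _) _
    rw [norm_mul, Real.norm_of_nonneg h1, mul_comm]
    refine mul_le_mul_of_nonneg_right ?_ h1
    rw [Real.norm_of_nonneg (sq_nonneg _)]
    have h2 := AA_le F M hF x y hy hy1
    nlinarith [norm_nonneg (AA F (pt x y))]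
  refine h0.trans ?_
  have h1 := mo_PP F M hF L hL p y hp hy hy1
  have h2 := le_abs_self (PP F p y)
  linarith

theorem mo_int (F : ℂ → ℂ) (M : ℝ) (hF : Cls F M) (L : ℝ)
    (hL : ∀ x y : ℝ, 0 < y → y ≤ 1 / 2 → ‖deriv F (pt x y)‖ ≤ L) (p sg b : ℝ) (hp : 0 < p)
    (hs : 0 < sg) (hb : 0 < b) (hb1 : b ≤ 1 / 2) :
    IntegrableOn (fun y => y ^ (sg - 1) * PP F p y) (Ioc 0 b) ∧
    IntegrableOn (fun y => y ^ (sg - 1) * B1 F p y) (Ioc 0 b) ∧
    IntegrableOn (fun y => y ^ (sg - 1) * B2 F p y) (Ioc 0 b) :=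
  ⟨mo_integrable _ _ sg b hs hb (PP_continuousOn F M hF p) fun y hy hyb =>
      mo_PP F M hF L hL p y hp hy (hyb.trans hb1),
    mo_integrable _ _ sg b hs hb (B1_continuousOn F M hF p) fun y hy hyb =>
      mo_B1 F M hF L hL p y hp hy (hyb.trans hb1),
    mo_integrable _ _ sg b hs hb (B2_continuousOn F M hF p) fun y hy hyb =>
      mo_B2 F M hF L hL p y hp hy (hyb.trans hb1)⟩

theorem mo_1 (F : ℂ → ℂ) (M : ℝ) (hF : Cls F M) (L : ℝ)
    (hL : ∀ x y : ℝ, 0 < y → y ≤ 1 / 2 → ‖deriv F (pt x y)‖ ≤ L) (p sg b : ℝ) (hp : 0 < p)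
    (hs : 0 < sg) (hb : 0 < b) (hb1 : b ≤ 1 / 2) :
    ∫ y in Ioc 0 b, y ^ (sg - 1) * B1 F p y =
      -(1 / p * (b ^ sg * PP F p b)) + sg / p * ∫ y in Ioc 0 b, y ^ (sg - 1) * PP F p y := by
  obtain ⟨h1, h2, -⟩ := mo_int F M hF L hL p sg b hp hs hb hb1
  exact mo_core (PP F p) (B1 F p) _ p sg sg b hs hb
    (fun y hy hyb => mo_PP F M hF L hL p y hp hy (hyb.trans hb1)) h1 h2
    fun a ha hab => parts1 F M hF p sg a b hp ha hab

theorem mo_2 (F : ℂ → ℂ) (M : ℝ) (hF : Cls F M) (L : ℝ)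
    (hL : ∀ x y : ℝ, 0 < y → y ≤ 1 / 2 → ‖deriv F (pt x y)‖ ≤ L) (p sg b : ℝ) (hp : 0 < p)
    (hs : 0 < sg) (hb : 0 < b) (hb1 : b ≤ 1 / 2) :
    ∫ y in Ioc 0 b, y ^ (sg - 1) * B2 F p y =
      -(1 / p * (b ^ sg * B1 F p b)) + (sg + 1) / p * ∫ y in Ioc 0 b, y ^ (sg - 1) * B1 F p y := by
  obtain ⟨-, h2, h3⟩ := mo_int F M hF L hL p sg b hp hs hb hb1
  exact mo_core (B1 F p) (B2 F p) _ p (sg + 1) sg b hs hb
    (fun y hy hyb => mo_B1 F M hF L hL p y hp hy (hyb.trans hb1)) h2 h3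
    fun a ha hab => parts2 F M hF p sg a b hp ha hab

end H78.CN
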