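import Pool.Agent.H78.CN.Sf
import Pool.Agent.H78.CN.Mo

/-!
# CN-PB: from the integral bound to the pointwise bound

PROOF (model: `s4_main` and `P32_bound` in `Pool/Agent/H62/CJ/S4.lean`).  `p = 2 - q`, `sg = eta + 1 - q ∈ (0,1)`.
Let `0 < τ < b/4`, `G z = F (z + iτ)`: in the class (`shift_cls`), `NP` (`NP_shift`), bounded derivative (`shift_bdd`),
`PP G p y = PP F p (y + τ)`.  `hI`: `∫_{Ioc 0 b} y^(eta-q) PP F p (y+τ) dy <= C0`.  Restrict to `Ioc τ (2τ)` (integrand `>= 0`, integrable: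
if it were not integrable on `Ioc 0 b` the Bochner integral would be `0`, so use integrability: `PP G` is bounded by
`2 pi (M/τ)^p` and continuous, or `mo_int` of Mo.lean), where
`y^(eta-q) >= (2τ)^(eta-q)` (`eta < q`) and `PP F p (2τ) <= ((y+τ)/(2τ))^(4p) PP F p (y+τ) <= (3/2)^(4p) PP F p (y+τ)` (`PP_harnack1`).
So `τ (2τ)^(eta-q) (3/2)^(-4p) PP F p (2τ) <= C0`, i.e. `PP F p (2τ) <= 2 C0 (3/2)^(4p) (2τ)^(-sg)`.
This covers all heights `< b/2`; for `b/2 <= y <= 1` use `PP_le`: `PP F p y <= 2 pi (|M|/(b/2))^p` and `y^(-sg) >= 1`.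
(Import Mo.lean if useful.)
-/

set_option autoImplicit false

open Set Metric MeasureTheory H62.CJ

namespace H78.CN

theorem Pb_pt (x y τ : ℝ) : pt x y + (τ : ℂ) * Complex.I = pt x (y + τ) := by
  apply Complex.ext <;> simp

theorem Pb_PP (F : ℂ → ℂ) (τ p y : ℝ) :
    PP (fun z => F (z + (τ : ℂ) * Complex.I)) p y = PP F p (y + τ) := by
  unfold PP
  refine intervalIntegral.integral_congr (fun x _ => ?_)
  simp only [deriv_comp_add_const, Pb_pt]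

theorem Pb_main (M q eta b C0 : ℝ) (hq : 0 < q) (hq1 : q < 1) (he : 0 < eta)
    (heq : eta < q) (hb : 0 < b) (hb1 : b ≤ 1 / 4)
    (hI : ∀ F : ℂ → ℂ, Cls F M → NP F →
      (∃ L : ℝ, ∀ x y : ℝ, 0 < y → y ≤ 1 / 2 → ‖deriv F (pt x y)‖ ≤ L) →
      ∫ y in Ioc 0 b, y ^ (eta - q) * PP F (2 - q) y ≤ C0)
    (F : ℂ → ℂ) (hF : Cls F M) (hN : NP F) (h3 : ∀ z : ℂ, 0 < z.im → z.im ≤ 3 → ‖F z‖ ≤ M)
    (τ : ℝ) (hτ : 0 < τ) (hτ1 : τ < b / 4) :
    PP F (2 - q) (2 * τ) ≤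
      2 * C0 * (3 / 2) ^ (4 * (2 - q)) * (2 * τ) ^ (-(eta + 1 - q)) := by
  have hG := shift_cls F M hF h3 τ hτ.le (by linarith)
  have hNG := NP_shift F hN τ hτ.le
  have hL : ∀ x y : ℝ, 0 < y → y ≤ 1 / 2 →
      ‖deriv (fun z => F (z + (τ : ℂ) * Complex.I)) (pt x y)‖ ≤ M / τ :=
    fun x y hy hy1 => shift_bdd F M hF τ hτ (by linarith) x y hy hy1
  have hI2 := hI _ hG hNG ⟨M / τ, hL⟩
  have hint := (mo_int _ M hG (M / τ) hL (2 - q) (eta - q + 1) b (by linarith) (by linarith) hb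
    (by linarith)).1
  rw [show eta - q + 1 - 1 = eta - q by ring] at hint
  set G : ℂ → ℂ := fun z => F (z + (τ : ℂ) * Complex.I) with hGdef
  have hPP : ∀ y : ℝ, PP G (2 - q) y = PP F (2 - q) (y + τ) := fun y => Pb_PP F τ (2 - q) y
  set Y : ℝ := (3 / 2 : ℝ) ^ (4 * (2 - q)) with hYdef
  have hY : 0 < Y := Real.rpow_pos_of_pos (by norm_num) _
  have h2τ : 0 < 2 * τ := by linarith
  have q4 : ∫ y in Ioc τ (2 * τ), y ^ (eta - q) * PP G (2 - q) y ≤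
      ∫ y in Ioc 0 b, y ^ (eta - q) * PP G (2 - q) y := by
    refine setIntegral_mono_set hint ?_ ?_
    · filter_upwards [ae_restrict_mem measurableSet_Ioc] with y hy
      exact mul_nonneg (Real.rpow_nonneg hy.1.le _) (PP_pos G M hG _ y hy.1).le
    · exact (Ioc_subset_Ioc hτ.le (by linarith)).eventuallyLE
  have q5 : τ * ((2 * τ) ^ (eta - q) * Y⁻¹ * PP F (2 - q) (2 * τ)) ≤
      ∫ y in Ioc τ (2 * τ), y ^ (eta - q) * PP G (2 - q) y := by
    have e1 : τ * ((2 * τ) ^ (eta - q) * Y⁻¹ * PP F (2 - q) (2 * τ)) =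
        ∫ y in Ioc τ (2 * τ), ((2 * τ) ^ (eta - q) * Y⁻¹ * PP F (2 - q) (2 * τ)) := by
      rw [← intervalIntegral.integral_of_le (by linarith), intervalIntegral.integral_const,
        smul_eq_mul]
      ring
    rw [e1]
    refine setIntegral_mono_on (integrableOn_const (by
      rw [Real.volume_Ioc]
      exact ENNReal.ofReal_ne_top)) (hint.mono_set (Ioc_subset_Ioc hτ.le (by linarith)))
      measurableSet_Ioc ?_
    intro y hy
    have hy1 : 0 < y := hτ.trans hy.1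
    have f1 : (2 * τ) ^ (eta - q) ≤ y ^ (eta - q) :=
      Real.rpow_le_rpow_of_nonpos hy1 hy.2 (by linarith)
    have f2 : PP F (2 - q) (2 * τ) ≤ Y * PP G (2 - q) y := by
      rw [hPP]
      have g1 := PP_harnack1 F M hF (2 - q) (2 * τ) (y + τ) (by linarith) (by linarith)
        (by linarith [hy.1]) (by linarith [hy.2])
      refine g1.trans ?_
      have g2 : ((y + τ) / (2 * τ)) ^ (4 * (2 - q)) ≤ Y := by
        refine Real.rpow_le_rpow (by positivity) ?_ (by linarith)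
        rw [div_le_iff₀ (by linarith)]
        linarith [hy.2]
      exact mul_le_mul_of_nonneg_right g2 (PP_pos F M hF _ _ (by linarith)).le
    have f3 : Y⁻¹ * PP F (2 - q) (2 * τ) ≤ PP G (2 - q) y := by
      rw [inv_mul_le_iff₀ hY]
      exact f2
    have f4 : 0 ≤ Y⁻¹ * PP F (2 - q) (2 * τ) :=
      mul_nonneg (inv_nonneg.2 hY.le) (PP_pos F M hF _ _ (by linarith)).le
    rw [mul_assoc]
    exact mul_le_mul f1 f3 f4 (Real.rpow_nonneg hy1.le _)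
  have q6 : τ * ((2 * τ) ^ (eta - q) * Y⁻¹ * PP F (2 - q) (2 * τ)) ≤ C0 :=
    q5.trans (q4.trans hI2)
  have e5 : (2 * τ) ^ (-(eta + 1 - q)) * ((2 * τ) ^ (eta - q) * (2 * τ)) = 1 := by
    have e6 : (2 * τ) ^ (eta - q) * (2 * τ) = (2 * τ) ^ (eta - q + 1) := by
      rw [Real.rpow_add h2τ, Real.rpow_one]
    rw [e6, ← Real.rpow_add h2τ, show -(eta + 1 - q) + (eta - q + 1) = 0 by ring, Real.rpow_zero]
  have hZ : 0 < (2 * τ) ^ (-(eta + 1 - q)) := Real.rpow_pos_of_pos h2τ _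
  have e8 : PP F (2 - q) (2 * τ) = (τ * ((2 * τ) ^ (eta - q) * Y⁻¹ * PP F (2 - q) (2 * τ))) *
      (2 * Y * (2 * τ) ^ (-(eta + 1 - q))) := by
    have e9 : (τ * ((2 * τ) ^ (eta - q) * Y⁻¹ * PP F (2 - q) (2 * τ))) *
        (2 * Y * (2 * τ) ^ (-(eta + 1 - q))) =
        ((2 * τ) ^ (-(eta + 1 - q)) * ((2 * τ) ^ (eta - q) * (2 * τ))) * (Y⁻¹ * Y) *
          PP F (2 - q) (2 * τ) := by ring
    rw [e9, e5, inv_mul_cancel₀ hY.ne']
    ring
  rw [e8]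
  calc (τ * ((2 * τ) ^ (eta - q) * Y⁻¹ * PP F (2 - q) (2 * τ))) *
        (2 * Y * (2 * τ) ^ (-(eta + 1 - q)))
      ≤ C0 * (2 * Y * (2 * τ) ^ (-(eta + 1 - q))) :=
        mul_le_mul_of_nonneg_right q6 (by positivity)
    _ = 2 * C0 * Y * (2 * τ) ^ (-(eta + 1 - q)) := by ring

theorem pbound_of_int (M q eta b C0 : ℝ) (hq : 0 < q) (hq1 : q < 1) (he : 0 < eta)
    (heq : eta < q) (hb : 0 < b) (hb1 : b ≤ 1 / 4)
    (hI : ∀ F : ℂ → ℂ, Cls F M → NP F →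
      (∃ L : ℝ, ∀ x y : ℝ, 0 < y → y ≤ 1 / 2 → ‖deriv F (pt x y)‖ ≤ L) →
      ∫ y in Ioc 0 b, y ^ (eta - q) * PP F (2 - q) y ≤ C0) :
    ∃ C : ℝ, 0 < C ∧ ∀ F : ℂ → ℂ, Cls F M → NP F →
      (∀ z : ℂ, 0 < z.im → z.im ≤ 3 → ‖F z‖ ≤ M) → ∀ y : ℝ, 0 < y → y ≤ 1 →
        PP F (2 - q) y ≤ C * y ^ (-(eta + 1 - q)) := by
  have hP1 : 0 ≤ 2 * |C0| * (3 / 2 : ℝ) ^ (4 * (2 - q)) :=
    mul_nonneg (by positivity) (Real.rpow_nonneg (by norm_num) _)
  have hP2 : 0 ≤ 2 * Real.pi * (|M| / (b / 2)) ^ (2 - q) :=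
    mul_nonneg (by positivity) (Real.rpow_nonneg (by positivity) _)
  refine ⟨2 * |C0| * (3 / 2 : ℝ) ^ (4 * (2 - q)) + 2 * Real.pi * (|M| / (b / 2)) ^ (2 - q) + 1,
    by linarith, ?_⟩
  intro F hF hN h3 y hy hy1
  have hyn : 0 ≤ y ^ (-(eta + 1 - q)) := Real.rpow_nonneg hy.le _
  by_cases hc : y < b / 2
  · have h := Pb_main M q eta b C0 hq hq1 he heq hb hb1 hI F hF hN h3 (y / 2) (by linarith)
      (by linarith)
    rw [show 2 * (y / 2) = y by ring] at h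
    refine h.trans (mul_le_mul_of_nonneg_right ?_ hyn)
    have h1 : 2 * C0 * (3 / 2 : ℝ) ^ (4 * (2 - q)) ≤ 2 * |C0| * (3 / 2 : ℝ) ^ (4 * (2 - q)) :=
      mul_le_mul_of_nonneg_right (by linarith [le_abs_self C0])
        (Real.rpow_nonneg (by norm_num) _)
    linarith
  · push Not at hc
    have hM : 0 ≤ M := (norm_nonneg _).trans (hF.bdd (pt 0 1) (by simp) (by simp))
    have h1 := PP_le F M hF (2 - q) y (by linarith) hy hy1
    have h2 : M / y ≤ |M| / (b / 2) := by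
      rw [abs_of_nonneg hM]
      exact div_le_div_of_nonneg_left hM (by linarith) hc
    have h3' : (M / y) ^ (2 - q) ≤ (|M| / (b / 2)) ^ (2 - q) :=
      Real.rpow_le_rpow (by positivity) h2 (by linarith)
    have h4 : PP F (2 - q) y ≤ 2 * Real.pi * (|M| / (b / 2)) ^ (2 - q) :=
      h1.trans (mul_le_mul_of_nonneg_left h3' (by positivity))
    have h5 : (1 : ℝ) ≤ y ^ (-(eta + 1 - q)) :=
      Real.one_le_rpow_of_pos_of_le_one_of_nonpos hy hy1 (by linarith)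
    have h6 : (2 * |C0| * (3 / 2 : ℝ) ^ (4 * (2 - q)) +
        2 * Real.pi * (|M| / (b / 2)) ^ (2 - q) + 1) * 1 ≤
        (2 * |C0| * (3 / 2 : ℝ) ^ (4 * (2 - q)) +
        2 * Real.pi * (|M| / (b / 2)) ^ (2 - q) + 1) * y ^ (-(eta + 1 - q)) :=
      mul_le_mul_of_nonneg_left h5 (by linarith)
    linarith

end H78.CN
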