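import Mathlib

/-!
# CN-CV: the covering form of the change of variables

PROOF.  `MeasureTheory.addHaar_image_le_lintegral_abs_det_fderiv`: for every measurable set `E`,
`volume (S ∩ E) <= volume (Ψ '' (P ∩ Ψ⁻¹' E)) <= ∫⁻ z in P ∩ Ψ⁻¹' E, ofReal |det Ψ'|`.
So the measure `volume.restrict S` is at most `ν = Measure.map Ψ ((volume.restrict P).withDensity (ofReal |det Ψ'|))`
(`Measure.le_iff`), and `∫⁻ G d ν = ∫⁻ z in P, ofReal |det| * G (Ψ z)` (`lintegral_map`,
`lintegral_withDensity_eq_lintegral_mul`).  `lintegral_mono'`.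
-/

set_option autoImplicit false

open Set MeasureTheory

namespace H78.CN

theorem cover (Ψ : ℂ → ℂ) (Ψ' : ℂ → ℂ →L[ℝ] ℂ) (hm : Measurable Ψ)
    (hdet : Measurable (fun z => (Ψ' z).det)) (P : Set ℂ) (hP : MeasurableSet P)
    (hd : ∀ z ∈ P, HasFDerivAt Ψ (Ψ' z) z) (S : Set ℂ) (hS : MeasurableSet S) (hc : S ⊆ Ψ '' P)
    (G : ℂ → ENNReal) (hG : Measurable G) :
    ∫⁻ w in S, G w ≤ ∫⁻ z in P, G (Ψ z) * ENNReal.ofReal |(Ψ' z).det| := by
  have hdens : Measurable (fun z => ENNReal.ofReal |(Ψ' z).det|) :=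
    ENNReal.measurable_ofReal.comp (measurable_norm.comp hdet)
  have hle : volume.restrict S ≤ Measure.map Ψ
      ((volume.restrict P).withDensity (fun z => ENNReal.ofReal |(Ψ' z).det|)) := by
    rw [Measure.le_iff]
    intro E hE
    have hpre : MeasurableSet (Ψ ⁻¹' E) := hm hE
    rw [Measure.restrict_apply hE, Measure.map_apply hm hE, withDensity_apply _ hpre,
      Measure.restrict_restrict hpre]
    have hsub : E ∩ S ⊆ Ψ '' (Ψ ⁻¹' E ∩ P) := by
      rintro w ⟨hw1, hw2⟩
      obtain ⟨z, hz, rfl⟩ := hc hw2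
      exact ⟨z, ⟨hw1, hz⟩, rfl⟩
    refine (measure_mono hsub).trans ?_
    exact addHaar_image_le_lintegral_abs_det_fderiv volume (hpre.inter hP)
      (fun z hz => (hd z hz.2).hasFDerivWithinAt)
  refine (lintegral_mono' hle le_rfl).trans ?_
  rw [lintegral_map hG hm]
  have h1 := lintegral_withDensity_eq_lintegral_mul (volume.restrict P) hdens (hG.comp hm)
  simp only [Pi.mul_apply, Function.comp_apply] at h1
  rw [h1]
  refine le_of_eq (lintegral_congr fun z => ?_)
  rw [mul_comm]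

end H78.CN
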