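import Pool.Agent.H78.CN.Def
import Pool.Agent.H62.CJ.L2

/-!
# CN-PS: the tube map `Psi z = F (x + i y) - i lam F' (x + i y)`, `z = x + i lam`

PROOF.  With `Z = pt z.re y`: `Psi` is the composition of smooth maps; its real derivative is
`h ↦ (F' Z - i lam F'' Z) h.re - i F' Z h.im` (`lam = z.im`).  The determinant of a real linear map
`h ↦ h.re u1 + h.im u2` of `ℂ` is `u1.re u2.im - u1.im u2.re = Im (conj u1 u2)` (matrix in
`Complex.basisOneI`: `LinearMap.det_toMatrix`, `Matrix.det_fin_two`; see `volume_image_le` in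
`Pool/Agent/H62/CJ/A2.lean` for the pattern).  Here
`Im (conj (F' - i lam F'') (- i F')) = - |F'|^2 + lam Im (F' conj F'') = - |F'|^2 (1 + lam Im (F''/F'))`.
Measurability of the determinant: `measurable_fderiv ℝ Psi` and continuity of `det`
(`ContinuousLinearMap.continuous_det`).
-/

set_option autoImplicit false

open Set Metric MeasureTheory H62.CJ

namespace H78.CN

/-- the tube map -/
noncomputable def Psi (F : ℂ → ℂ) (y : ℝ) (z : ℂ) : ℂ :=
  F (pt z.re y) - Complex.I * (z.im : ℂ) * deriv F (pt z.re y)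

theorem Ps_pt_meas (y : ℝ) : Measurable (fun z : ℂ => pt z.re y) := by
  have h : (fun z : ℂ => pt z.re y) = (fun z : ℂ => (z.re : ℂ) + (y : ℂ) * Complex.I) := by
    funext z
    exact pt_eq _ _
  rw [h]
  fun_prop

theorem measurable_Psi (F : ℂ → ℂ) (M : ℝ) (hF : Cls F M) (y : ℝ) : Measurable (Psi F y) := by
  unfold Psi
  have h1 : Measurable (fun z : ℂ => F (pt z.re y)) := hF.meas.comp (Ps_pt_meas y)
  have h2 : Measurable (fun z : ℂ => deriv F (pt z.re y)) :=
    (measurable_deriv F).comp (Ps_pt_meas y)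
  have h3 : Measurable (fun z : ℂ => Complex.I * (z.im : ℂ)) := by fun_prop
  exact h1.sub (h3.mul h2)

theorem measurable_Psi_det (F : ℂ → ℂ) (y : ℝ) :
    Measurable (fun z => (fderiv ℝ (Psi F y) z).det) :=
  (ContinuousLinearMap.continuous_det.measurable).comp (measurable_fderiv ℝ (Psi F y))

/-- the determinant of a real linear map of the plane -/
theorem Ps_det (u1 u2 : ℂ) :
    ((Complex.reCLM.smulRight u1 + Complex.imCLM.smulRight u2 : ℂ →L[ℝ] ℂ)).det =
      u1.re * u2.im - u1.im * u2.re := by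
  have h : ((Complex.reCLM.smulRight u1 + Complex.imCLM.smulRight u2 : ℂ →L[ℝ] ℂ)).det =
      LinearMap.det ((Complex.reCLM.smulRight u1 + Complex.imCLM.smulRight u2 :
        ℂ →L[ℝ] ℂ) : ℂ →ₗ[ℝ] ℂ) := rfl
  rw [h, ← LinearMap.det_toMatrix Complex.basisOneI, Matrix.det_fin_two]
  simp only [LinearMap.toMatrix_apply, Complex.coe_basisOneI, Complex.coe_basisOneI_repr]
  simp
  ring

theorem Ps_ptx (F : ℂ → ℂ) (F' : ℂ) (y : ℝ) (z : ℂ) (h : HasDerivAt F F' (pt z.re y)) :
    HasFDerivAt (fun z : ℂ => F (pt z.re y)) (Complex.reCLM.smulRight F') z := by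
  have h1 : HasDerivAt (fun t : ℝ => pt t y) 1 z.re := by
    have e : (fun t : ℝ => pt t y) = (fun t : ℝ => (t : ℂ) + (y : ℂ) * Complex.I) := by
      funext q
      exact pt_eq _ _
    rw [e]
    exact (Complex.ofRealCLM.hasDerivAt (x := z.re)).add_const _
  have h2 : HasDerivAt (fun t : ℝ => F (pt t y)) F' z.re := by
    have := h.comp_of_eq z.re h1 rfl
    simpa [Function.comp_def] using this
  have h3 : HasFDerivAt (fun z : ℂ => z.re) Complex.reCLM z := Complex.reCLM.hasFDerivAt
  have h4 := h2.hasFDerivAt.comp z h3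
  have h5 : HasFDerivAt (fun z : ℂ => F (pt z.re y))
      ((ContinuousLinearMap.toSpanSingleton ℝ F').comp Complex.reCLM) z := h4
  have e2 : (ContinuousLinearMap.toSpanSingleton ℝ F').comp Complex.reCLM =
      Complex.reCLM.smulRight F' := by
    ext v
    simp
  rw [e2] at h5
  exact h5

theorem Psi_hasFDerivAt (F : ℂ → ℂ) (M : ℝ) (hF : Cls F M) (y : ℝ) (hy : 0 < y) (z : ℂ) :
    HasFDerivAt (Psi F y) (fderiv ℝ (Psi F y) z) z ∧
      |(fderiv ℝ (Psi F y) z).det| = ‖deriv F (pt z.re y)‖ ^ 2 * |1 + z.im * kk F z.re y| := by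
  have hopen : IsOpen HP := isOpen_lt continuous_const Complex.continuous_im
  have hd1 : DifferentiableOn ℂ (deriv F) HP := hF.diff.deriv hopen
  have hZ : pt z.re y ∈ HP := hy
  have h1 : HasDerivAt F (deriv F (pt z.re y)) (pt z.re y) :=
    (hF.diff.differentiableAt (hopen.mem_nhds hZ)).hasDerivAt
  have h2 : HasDerivAt (deriv F) (deriv (deriv F) (pt z.re y)) (pt z.re y) :=
    (hd1.differentiableAt (hopen.mem_nhds hZ)).hasDerivAt
  have h3 := Ps_ptx F _ y z h1
  have h4 := Ps_ptx (deriv F) _ y z h2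
  have h5 : HasFDerivAt (fun z : ℂ => Complex.I * (z.im : ℂ))
      (Complex.imCLM.smulRight Complex.I) z := by
    have h6 : HasFDerivAt (fun z : ℂ => z.im • Complex.I)
        (Complex.imCLM.smulRight Complex.I) z :=
      (Complex.imCLM.smulRight Complex.I).hasFDerivAt
    have e : (fun z : ℂ => Complex.I * (z.im : ℂ)) = (fun z : ℂ => z.im • Complex.I) := by
      funext v
      rw [Complex.real_smul, mul_comm]
    rw [e]
    exact h6
  have h7 := h3.sub (h5.mul h4)
  have e : (Complex.reCLM.smulRight (deriv F (pt z.re y)) -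
      ((Complex.I * (z.im : ℂ)) • Complex.reCLM.smulRight (deriv (deriv F) (pt z.re y)) +
        deriv F (pt z.re y) • Complex.imCLM.smulRight Complex.I)) =
      Complex.reCLM.smulRight (deriv F (pt z.re y) -
        Complex.I * (z.im : ℂ) * deriv (deriv F) (pt z.re y)) +
      Complex.imCLM.smulRight (-(Complex.I * deriv F (pt z.re y))) := by
    ext v
    simp
    ring
  have h8 : HasFDerivAt (Psi F y) (Complex.reCLM.smulRight (deriv F (pt z.re y) -
        Complex.I * (z.im : ℂ) * deriv (deriv F) (pt z.re y)) +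
      Complex.imCLM.smulRight (-(Complex.I * deriv F (pt z.re y)))) z := by
    rw [← e]
    exact h7
  rw [h8.fderiv]
  refine ⟨h8, ?_⟩
  rw [Ps_det]
  have hne : deriv F (pt z.re y) ≠ 0 := deriv_ne F M hF _ hy
  have hk : ‖deriv F (pt z.re y)‖ ^ 2 * kk F z.re y =
      (deriv (deriv F) (pt z.re y)).im * (deriv F (pt z.re y)).re -
        (deriv (deriv F) (pt z.re y)).re * (deriv F (pt z.re y)).im := by
    unfold kk
    have hn : Complex.normSq (deriv F (pt z.re y)) ≠ 0 := by
      rwa [Ne, Complex.normSq_eq_zero]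
    rw [Complex.div_im, ← Complex.normSq_eq_norm_sq]
    field_simp
  have hn2 : ‖deriv F (pt z.re y)‖ ^ 2 =
      (deriv F (pt z.re y)).re ^ 2 + (deriv F (pt z.re y)).im ^ 2 := by
    rw [← Complex.normSq_eq_norm_sq, Complex.normSq_apply]
    ring
  have e3 : (deriv F (pt z.re y) - Complex.I * (z.im : ℂ) * deriv (deriv F) (pt z.re y)).re *
      (-(Complex.I * deriv F (pt z.re y))).im -
      (deriv F (pt z.re y) - Complex.I * (z.im : ℂ) * deriv (deriv F) (pt z.re y)).im *
      (-(Complex.I * deriv F (pt z.re y))).re =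
      -(‖deriv F (pt z.re y)‖ ^ 2 * (1 + z.im * kk F z.re y)) := by
    have e4 : ‖deriv F (pt z.re y)‖ ^ 2 * (1 + z.im * kk F z.re y) =
        ‖deriv F (pt z.re y)‖ ^ 2 + z.im * (‖deriv F (pt z.re y)‖ ^ 2 * kk F z.re y) := by ring
    rw [e4, hk, hn2]
    simp
    ring
  rw [e3, abs_neg, abs_mul, abs_of_nonneg (sq_nonneg _)]

end H78.CN
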