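import Pool.Agent.H78.CN.Nf
import Pool.Agent.H78.CN.Cv
import Pool.Agent.H78.CN.Ps
import Pool.Agent.H62.CJ.M0

/-!
# CN-TB: the tube inequality

PROOF.  Let `T0 = strip 0 y` (`{0 < re < 2 pi, 0 < im < y}`).
(1) `F` is injective on `T0` (class property `inj`: the difference is `2 pi k` with `|.| < 2 pi`), holomorphic;
area formula `lintegral_image_eq_lintegral_abs_det_fderiv_mul` (model: `cost_change` in
`Pool/Agent/H62/CJ/C1.lean`, determinant of a complex multiplication: `a3_det` in A3):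
`∫⁻_{T0} ofReal (‖F'‖^2) G (F ζ) = ∫⁻_{w ∈ S} G w`, `S = F '' T0` (measurable: image of a measurable set
under an injective measurable/continuous map, or open mapping; `MeasurableSet.image_of_continuousOn_injOn`).
(2) Let `P = {z : 0 <= z.re < 2 pi, 0 < z.im, infDist (Psi F y z) (DD F y) = z.im * ‖F' (pt z.re y)‖,
0 <= 1 + z.im * kk F z.re y}`; it is measurable (`measurable_Psi`, `continuous_infDist_pt`, `measurable_deriv`).
`S ⊆ Psi '' P`: for `w = F ζ`, `ζ ∈ T0`, take the nearest point `x ∈ [0, 2 pi)` (`NP`) and `lam` from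
`normal_form`; `z = pt x lam`.
(3) `cover` with `G' = S.indicator G` (or directly with `S`):
`∫⁻_S G <= ∫⁻_P (S.indicator G)(Psi z) * ofReal |det|`.  For `z ∈ P` with `Psi z ∈ S`, `Psi z = F ζ`, `ζ ∈ T0`: the
definition of `P` says `rr F (F ζ) y = z.im ‖F'‖ = ‖F ζ - F (pt z.re y)‖`, i.e. `Near`, so
`G (F ζ) <= g z.re (z.im * ‖F'‖)` by `hGg`; and `|det| = ‖F'‖^2 (1 + z.im kk)` on `P` (`Psi_hasFDerivAt`).
(4) So the total is at most `∫⁻_{z : 0 <= re < 2 pi, 0 < im} g z.re (z.im ‖F'‖) ofReal (‖F'‖^2 (1 + z.im kk))`, which is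
the iterated integral by Tonelli (as in `lintegral_strip` of M0, with `Ico` replaced by `Ioo` a.e.).
-/

set_option autoImplicit false

open Set Metric MeasureTheory H62.CJ

namespace H78.CN

theorem Tb_det (c : ℂ) :
    ((ContinuousLinearMap.toSpanSingleton ℂ c).restrictScalars ℝ : ℂ →L[ℝ] ℂ).det = ‖c‖ ^ 2 := by
  have h1 : (((ContinuousLinearMap.toSpanSingleton ℂ c).restrictScalars ℝ : ℂ →L[ℝ] ℂ) :
      ℂ →ₗ[ℝ] ℂ) = Algebra.lmul ℝ ℂ c := by
    ext x
    simp [mul_comm]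
  rw [ContinuousLinearMap.det, h1, ← Algebra.norm_apply, Algebra.norm_complex_apply,
    Complex.normSq_eq_norm_sq]

theorem Tb_inj (F : ℂ → ℂ) (M : ℝ) (hF : Cls F M) (y : ℝ) : InjOn F (strip 0 y) := by
  intro ζ hζ ζ' hζ' h3
  obtain ⟨k, hk⟩ := hF.inj ζ ζ' hζ.2.2.1 hζ'.2.2.1 h3
  have hre := congrArg Complex.re hk
  rw [Complex.sub_re, Complex.ofReal_re] at hre
  have hk0 : k = 0 := by
    have hpi := Real.pi_pos
    have h5 : (k : ℝ) < 1 := by
      by_contra h
      push Not at h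
      have := hζ.2.1
      have := hζ'.1
      nlinarith
    have h6 : (-1 : ℝ) < k := by
      by_contra h
      push Not at h
      have := hζ.1
      have := hζ'.2.1
      nlinarith
    have h5' : k < 1 := by exact_mod_cast h5
    have h6' : -1 < k := by exact_mod_cast h6
    omega
  rw [hk0] at hk
  have : ζ - ζ' = 0 := by rw [hk]; simp
  exact sub_eq_zero.1 this

theorem Tb_kk (F : ℂ → ℂ) (y : ℝ) : Measurable (fun x : ℝ => kk F x y) := by
  have hp : Measurable (fun x : ℝ => pt x y) := by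
    have h : (fun x : ℝ => pt x y) = (fun x : ℝ => (x : ℂ) + (y : ℂ) * Complex.I) := by
      funext x
      exact pt_eq _ _
    rw [h]
    fun_prop
  exact Complex.measurable_im.comp
    (((measurable_deriv (deriv F)).comp hp).div ((measurable_deriv F).comp hp))

theorem Tb_nd (F : ℂ → ℂ) (y : ℝ) : Measurable (fun x : ℝ => ‖deriv F (pt x y)‖) := by
  have hp : Measurable (fun x : ℝ => pt x y) := by
    have h : (fun x : ℝ => pt x y) = (fun x : ℝ => (x : ℂ) + (y : ℂ) * Complex.I) := by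
      funext x
      exact pt_eq _ _
    rw [h]
    fun_prop
  exact ((measurable_deriv F).comp hp).norm

/-- the parameter set -/
def TbP (F : ℂ → ℂ) (y : ℝ) : Set ℂ :=
  {z : ℂ | 0 ≤ z.re ∧ z.re < 2 * Real.pi ∧ 0 < z.im ∧
    infDist (Psi F y z) (DD F y) = z.im * ‖deriv F (pt z.re y)‖ ∧ 0 ≤ 1 + z.im * kk F z.re y}

theorem Tb_measP (F : ℂ → ℂ) (M : ℝ) (hF : Cls F M) (y : ℝ) : MeasurableSet (TbP F y) := by
  have h1 : Measurable (fun z : ℂ => infDist (Psi F y z) (DD F y)) :=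
    (continuous_infDist_pt _).measurable.comp (measurable_Psi F M hF y)
  have h2 : Measurable (fun z : ℂ => z.im * ‖deriv F (pt z.re y)‖) :=
    Complex.measurable_im.mul ((Tb_nd F y).comp Complex.measurable_re)
  have h3 : Measurable (fun z : ℂ => 1 + z.im * kk F z.re y) :=
    measurable_const.add (Complex.measurable_im.mul ((Tb_kk F y).comp Complex.measurable_re))
  exact (measurableSet_le measurable_const Complex.measurable_re).inter
    ((measurableSet_lt Complex.measurable_re measurable_const).inter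
      ((measurableSet_lt measurable_const Complex.measurable_im).inter
        ((measurableSet_eq_fun h1 h2).inter (measurableSet_le measurable_const h3))))

theorem Tb_iter (h : ℂ → ENNReal) (hh : Measurable h) :
    ∫⁻ z in {z : ℂ | 0 ≤ z.re ∧ z.re < 2 * Real.pi ∧ 0 < z.im}, h z =
      ∫⁻ x in Ioo 0 (2 * Real.pi), ∫⁻ lam in Ioi (0 : ℝ), h (pt x lam) := by
  have h0 : {z : ℂ | 0 ≤ z.re ∧ z.re < 2 * Real.pi ∧ 0 < z.im} =
      Complex.measurableEquivRealProd ⁻¹' (Ico 0 (2 * Real.pi) ×ˢ Ioi (0 : ℝ)) := by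
    ext z
    simp only [mem_ofPred_eq, mem_preimage, Complex.measurableEquivRealProd_apply,
      mem_prod, mem_Ico, mem_Ioi]
    tauto
  have h1 : ∀ z : ℂ, h z = (fun p : ℝ × ℝ => h (pt p.1 p.2)) (Complex.measurableEquivRealProd z) :=
    fun z => rfl
  have h2 : Measurable (fun p : ℝ × ℝ => h (pt p.1 p.2)) := hh.comp measurable_pt
  calc ∫⁻ z in {z : ℂ | 0 ≤ z.re ∧ z.re < 2 * Real.pi ∧ 0 < z.im}, h z
      = ∫⁻ ζ in Complex.measurableEquivRealProd ⁻¹' (Ico 0 (2 * Real.pi) ×ˢ Ioi (0 : ℝ)),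
          (fun p : ℝ × ℝ => h (pt p.1 p.2)) (Complex.measurableEquivRealProd ζ) := by
        rw [h0]
        exact lintegral_congr h1
    _ = ∫⁻ p in Ico 0 (2 * Real.pi) ×ˢ Ioi (0 : ℝ), h (pt p.1 p.2) :=
        Complex.volume_preserving_equiv_real_prod.setLIntegral_comp_preimage_emb
          Complex.measurableEquivRealProd.measurableEmbedding
          (fun p : ℝ × ℝ => h (pt p.1 p.2)) (Ico 0 (2 * Real.pi) ×ˢ Ioi (0 : ℝ))
    _ = ∫⁻ x in Ico 0 (2 * Real.pi), ∫⁻ lam in Ioi (0 : ℝ), h (pt x lam) := by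
        rw [Measure.volume_eq_prod, ← Measure.prod_restrict]
        exact lintegral_prod _ h2.aemeasurable
    _ = ∫⁻ x in Ioo 0 (2 * Real.pi), ∫⁻ lam in Ioi (0 : ℝ), h (pt x lam) :=
        setLIntegral_congr Ioo_ae_eq_Ico.symm

theorem tube (F : ℂ → ℂ) (M : ℝ) (hF : Cls F M) (hN : NP F) (y : ℝ) (hy : 0 < y)
    (G : ℂ → ENNReal) (hG : Measurable G) (g : ℝ → ℝ → ENNReal)
    (hg : Measurable (fun p : ℝ × ℝ => g p.1 p.2))
    (hGg : ∀ ζ : ℂ, 0 < ζ.im → ζ.im < y → ∀ x : ℝ, Near F (F ζ) x y →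
      G (F ζ) ≤ g x (rr F (F ζ) y)) :
    ∫⁻ ζ in strip 0 y, ENNReal.ofReal (‖deriv F ζ‖ ^ 2) * G (F ζ) ≤
      ∫⁻ x in Ioo 0 (2 * Real.pi), ∫⁻ lam in Ioi (0 : ℝ),
        g x (lam * ‖deriv F (pt x y)‖) *
          ENNReal.ofReal (‖deriv F (pt x y)‖ ^ 2 * (1 + lam * kk F x y)) := by
  have hHP : IsOpen HP := isOpen_lt continuous_const Complex.continuous_im
  have hder : ∀ ζ ∈ strip 0 y, HasDerivAt F (deriv F ζ) ζ := by
    intro ζ hζ
    exact (hF.diff.differentiableAt (hHP.mem_nhds hζ.2.2.1)).hasDerivAt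
  have hfd : ∀ ζ ∈ strip 0 y, HasFDerivWithinAt F
      ((ContinuousLinearMap.toSpanSingleton ℂ (deriv F ζ)).restrictScalars ℝ) (strip 0 y) ζ := by
    intro ζ hζ
    exact ((hder ζ hζ).hasFDerivAt.restrictScalars ℝ).hasFDerivWithinAt
  have hinj := Tb_inj F M hF y
  have hcv := lintegral_image_eq_lintegral_abs_det_fderiv_mul volume
    (measurableSet_strip 0 y) hfd hinj G
  have hS : MeasurableSet (F '' strip 0 y) :=
    (measurableSet_strip 0 y).image_of_continuousOn_injOn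
      (fun ζ hζ => (hder ζ hζ).continuousAt.continuousWithinAt) hinj
  have hc : F '' strip 0 y ⊆ Psi F y '' TbP F y := by
    rintro _ ⟨ζ, hζ, rfl⟩
    obtain ⟨x, hx, hnear⟩ := hN y hy ζ hζ.2.2.1 hζ.2.2.2
    obtain ⟨lam, hl, he, hr, hk⟩ := normal_form F M hF y hy ζ hζ.2.2.1 hζ.2.2.2 x hnear
    have hPsi : Psi F y (pt x lam) = F ζ := he.symm
    refine ⟨pt x lam, ⟨hx.1, hx.2, hl, ?_, hk⟩, hPsi⟩
    rw [hPsi]
    exact hr
  have hcov := cover (Psi F y) (fun z => fderiv ℝ (Psi F y) z) (measurable_Psi F M hF y)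
    (measurable_Psi_det F y) (TbP F y) (Tb_measP F M hF y)
    (fun z _ => (Psi_hasFDerivAt F M hF y hy z).1) (F '' strip 0 y) hS hc
    ((F '' strip 0 y).indicator G) (hG.indicator hS)
  have hmeas : Measurable (fun z : ℂ => g z.re (z.im * ‖deriv F (pt z.re y)‖) *
      ENNReal.ofReal (‖deriv F (pt z.re y)‖ ^ 2 * (1 + z.im * kk F z.re y))) := by
    have h1 : Measurable (fun z : ℂ => ‖deriv F (pt z.re y)‖) :=
      (Tb_nd F y).comp Complex.measurable_re
    have h2 : Measurable (fun z : ℂ => kk F z.re y) := (Tb_kk F y).comp Complex.measurable_re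
    have h3 : Measurable (fun z : ℂ => (z.re, z.im * ‖deriv F (pt z.re y)‖)) :=
      Complex.measurable_re.prodMk (Complex.measurable_im.mul h1)
    have h4 := hg.comp h3
    exact h4.mul (ENNReal.measurable_ofReal.comp ((h1.pow_const 2).mul
      (measurable_const.add (Complex.measurable_im.mul h2))))
  have hpw : ∀ z ∈ TbP F y,
      (F '' strip 0 y).indicator G (Psi F y z) *
        ENNReal.ofReal |(fderiv ℝ (Psi F y) z).det| ≤
      g z.re (z.im * ‖deriv F (pt z.re y)‖) *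
        ENNReal.ofReal (‖deriv F (pt z.re y)‖ ^ 2 * (1 + z.im * kk F z.re y)) := by
    intro z hz
    rw [(Psi_hasFDerivAt F M hF y hy z).2, abs_of_nonneg hz.2.2.2.2]
    refine mul_le_mul_left ?_ _
    by_cases hm : Psi F y z ∈ F '' strip 0 y
    · rw [indicator_of_mem hm]
      obtain ⟨ζ, hζ, he⟩ := hm
      have hrr : rr F (F ζ) y = z.im * ‖deriv F (pt z.re y)‖ := by
        rw [rr, he]
        exact hz.2.2.2.1
      have hnear : Near F (F ζ) z.re y := by
        rw [Near, hrr, he, Psi]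
        rw [sub_sub_cancel_left, norm_neg, norm_mul, norm_mul, Complex.norm_I, one_mul,
          Complex.norm_real, Real.norm_of_nonneg hz.2.2.1.le]
      have h5 := hGg ζ hζ.2.2.1 hζ.2.2.2 z.re hnear
      rw [hrr] at h5
      rw [← he]
      exact h5
    · rw [indicator_of_notMem hm]
      exact zero_le
  calc ∫⁻ ζ in strip 0 y, ENNReal.ofReal (‖deriv F ζ‖ ^ 2) * G (F ζ)
      = ∫⁻ w in F '' strip 0 y, G w := by
        rw [hcv]
        refine setLIntegral_congr_fun (measurableSet_strip 0 y) ?_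
        intro ζ hζ
        show ENNReal.ofReal (‖deriv F ζ‖ ^ 2) * G (F ζ) = ENNReal.ofReal
          |((ContinuousLinearMap.toSpanSingleton ℂ (deriv F ζ)).restrictScalars ℝ :
            ℂ →L[ℝ] ℂ).det| * G (F ζ)
        rw [Tb_det, abs_of_nonneg (by positivity)]
    _ = ∫⁻ w in F '' strip 0 y, (F '' strip 0 y).indicator G w := by
        refine setLIntegral_congr_fun hS ?_
        intro w hw
        show G w = (F '' strip 0 y).indicator G w
        rw [indicator_of_mem hw]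
    _ ≤ _ := hcov
    _ ≤ ∫⁻ z in TbP F y, g z.re (z.im * ‖deriv F (pt z.re y)‖) *
        ENNReal.ofReal (‖deriv F (pt z.re y)‖ ^ 2 * (1 + z.im * kk F z.re y)) :=
        setLIntegral_mono' (Tb_measP F M hF y) hpw
    _ ≤ ∫⁻ z in {z : ℂ | 0 ≤ z.re ∧ z.re < 2 * Real.pi ∧ 0 < z.im},
        g z.re (z.im * ‖deriv F (pt z.re y)‖) *
        ENNReal.ofReal (‖deriv F (pt z.re y)‖ ^ 2 * (1 + z.im * kk F z.re y)) :=
        lintegral_mono_set (fun z hz => ⟨hz.1, hz.2.1, hz.2.2.1⟩)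
    _ = _ := Tb_iter _ hmeas

end H78.CN
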