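import Pool.Agent.H62.CJ.M0
import Pool.Agent.H78.CN.Tb

/-!
# CN-AR: the area bound

PROOF.  `F` is injective on `strip 0 y` (`Tb_inj`), holomorphic there (`hF.diff`); area formula
(`lintegral_image_eq_lintegral_abs_det_fderiv_mul`, determinant `Tb_det`, exactly as in step (1) of the proof of
`tube` in Tb.lean, with `G = 1`): the left side is the measure of `F '' strip 0 y`, which is contained in
`closedBall 0 M` (`hF.bdd`, `y <= 2`); `Complex.volume_closedBall`.
-/

set_option autoImplicit false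

open Set Metric MeasureTheory H62.CJ

namespace H78.CN

theorem area_le (F : ℂ → ℂ) (M : ℝ) (hF : Cls F M) (y : ℝ) (hy : 0 < y) (hy1 : y ≤ 2) :
    ∫⁻ ζ in strip 0 y, ENNReal.ofReal (‖deriv F ζ‖ ^ 2) ≤ ENNReal.ofReal (Real.pi * M ^ 2) := by
  have hHP : IsOpen HP := isOpen_lt continuous_const Complex.continuous_im
  have hder : ∀ ζ ∈ strip 0 y, HasDerivAt F (deriv F ζ) ζ := by
    intro ζ hζ
    exact (hF.diff.differentiableAt (hHP.mem_nhds hζ.2.2.1)).hasDerivAt
  have hfd : ∀ ζ ∈ strip 0 y, HasFDerivWithinAt F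
      ((ContinuousLinearMap.toSpanSingleton ℂ (deriv F ζ)).restrictScalars ℝ) (strip 0 y) ζ := by
    intro ζ hζ
    exact ((hder ζ hζ).hasFDerivAt.restrictScalars ℝ).hasFDerivWithinAt
  have hinj := Tb_inj F M hF y
  have hcv := lintegral_image_eq_lintegral_abs_det_fderiv_mul volume
    (measurableSet_strip 0 y) hfd hinj (fun _ => (1 : ENNReal))
  have hM : 0 ≤ M := by
    have hI : 0 < (Complex.I).im := by rw [Complex.I_im]; exact one_pos
    exact le_trans (norm_nonneg _) (hF.bdd Complex.I hI (by rw [Complex.I_im]; norm_num))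
  have hsub : F '' strip 0 y ⊆ closedBall (0 : ℂ) M := by
    rintro _ ⟨ζ, hζ, rfl⟩
    rw [mem_closedBall_zero_iff]
    exact hF.bdd ζ hζ.2.2.1 (le_trans hζ.2.2.2.le hy1)
  have hvol : volume (closedBall (0 : ℂ) M) = ENNReal.ofReal (Real.pi * M ^ 2) := by
    rw [Complex.volume_closedBall, ENNReal.ofReal_mul Real.pi_pos.le, ENNReal.ofReal_pow hM,
      mul_comm]
    congr 1
    rw [← NNReal.coe_real_pi, ENNReal.ofReal_coe_nnreal]
  calc ∫⁻ ζ in strip 0 y, ENNReal.ofReal (‖deriv F ζ‖ ^ 2)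
      = ∫⁻ w in F '' strip 0 y, (1 : ENNReal) := by
        rw [hcv]
        refine setLIntegral_congr_fun (measurableSet_strip 0 y) ?_
        intro ζ hζ
        show ENNReal.ofReal (‖deriv F ζ‖ ^ 2) = ENNReal.ofReal
          |((ContinuousLinearMap.toSpanSingleton ℂ (deriv F ζ)).restrictScalars ℝ :
            ℂ →L[ℝ] ℂ).det| * 1
        rw [Tb_det, abs_of_nonneg (by positivity), mul_one]
    _ = volume (F '' strip 0 y) := by
        rw [setLIntegral_const, one_mul]
    _ ≤ volume (closedBall (0 : ℂ) M) := measure_mono hsub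
    _ = ENNReal.ofReal (Real.pi * M ^ 2) := hvol

end H78.CN
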