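import Pool.Agent.H78.CN.Def
import Pool.Agent.H62.CJ.L3

/-!
# CN-DS: distortion along vertical lines

`0 < a <= y <= 1/2`.
PROOF.  `u ↦ log ‖F' (pt x u)‖` (`F' ≠ 0`, `deriv_ne`) has derivative `Re (i F''/F') = - kk F x u`, and
`|kk F x u| <= ‖AA F (pt x u)‖ / u <= 4 / u` (`AA_le`; `AA F (pt x u) = u F''/F'`).  So
`|log ‖F' (pt x y)‖ - log ‖F' (pt x a)‖| <= 4 log (y/a)` (compare with `4 log u`), which gives `dist_up` and
`dist_down`.  (One can also differentiate `‖F' (pt x u)‖^2 u^8` and `‖F'‖^2 u^(-8)`.)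
`diff_le`: `F (pt x y) - F (pt x a) = ∫_a^y i F' (pt x u) du` and `‖F' (pt x u)‖ <= ‖F' (pt x a)‖ (u/a)^4
<= ‖F' (pt x a)‖ (y/a)^4` (`norm_image_sub_le_of_norm_deriv_le_segment`).
`kk_le`: `|kk| <= 4/y`; `AA_im_eq`: `(AA F (pt x y)).im = y * kk F x y`.
-/

set_option autoImplicit false

open Set Metric MeasureTheory H62.CJ

namespace H78.CN

theorem AA_im_eq (F : ℂ → ℂ) (x y : ℝ) : (AA F (pt x y)).im = y * kk F x y := by
  unfold AA kk
  rw [pt_im, mul_div_assoc, Complex.im_ofReal_mul]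

theorem kk_le (F : ℂ → ℂ) (M : ℝ) (hF : Cls F M) (x y : ℝ) (hy : 0 < y) (hy1 : y ≤ 1 / 2) :
    |kk F x y| ≤ 4 / y := by
  have h1 := AA_le F M hF x y hy hy1
  have h2 := (Complex.abs_im_le_norm (AA F (pt x y))).trans h1
  rw [AA_im_eq, abs_mul, abs_of_pos hy] at h2
  rw [le_div_iff₀ hy]
  linarith

theorem Ds_isOpen : IsOpen HP := isOpen_lt continuous_const Complex.continuous_im

theorem Ds_deriv (F : ℂ → ℂ) (M : ℝ) (hF : Cls F M) (x u : ℝ) (hu : 0 < u) :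
    HasDerivAt (fun t : ℝ => deriv F (pt x t)) (Complex.I * deriv (deriv F) (pt x u)) u := by
  have hm : pt x u ∈ HP := hu
  have h1 : DifferentiableAt ℂ (deriv F) (pt x u) :=
    ((hF.diff.deriv Ds_isOpen).differentiableAt (Ds_isOpen.mem_nhds hm))
  have h2 : HasDerivAt (fun t : ℝ => pt x t) Complex.I u := by
    have h3 : HasDerivAt (fun t : ℝ => (x : ℂ) + (t : ℂ) * Complex.I) (1 * Complex.I) u :=
      ((Complex.ofRealCLM.hasDerivAt (x := u)).mul_const Complex.I).const_add (x : ℂ)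
    rw [one_mul] at h3
    refine h3.congr_of_eventuallyEq (Filter.Eventually.of_forall fun t => pt_eq x t)
  have h4 := h1.hasDerivAt.comp_of_eq u h2 rfl
  rw [mul_comm] at h4
  exact h4

theorem Ds_deriv0 (F : ℂ → ℂ) (M : ℝ) (hF : Cls F M) (x u : ℝ) (hu : 0 < u) :
    HasDerivAt (fun t : ℝ => F (pt x t)) (Complex.I * deriv F (pt x u)) u := by
  have hm : pt x u ∈ HP := hu
  have h1 : DifferentiableAt ℂ F (pt x u) := hF.diff.differentiableAt (Ds_isOpen.mem_nhds hm)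
  have h2 : HasDerivAt (fun t : ℝ => pt x t) Complex.I u := by
    have h3 : HasDerivAt (fun t : ℝ => (x : ℂ) + (t : ℂ) * Complex.I) (1 * Complex.I) u :=
      ((Complex.ofRealCLM.hasDerivAt (x := u)).mul_const Complex.I).const_add (x : ℂ)
    rw [one_mul] at h3
    refine h3.congr_of_eventuallyEq (Filter.Eventually.of_forall fun t => pt_eq x t)
  have h4 := h1.hasDerivAt.comp_of_eq u h2 rfl
  rw [mul_comm] at h4
  exact h4

theorem Ds_dd (F : ℂ → ℂ) (M : ℝ) (hF : Cls F M) (x u : ℝ) (hu : 0 < u) (hu1 : u ≤ 1 / 2) :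
    ‖deriv (deriv F) (pt x u)‖ ≤ 4 / u * ‖deriv F (pt x u)‖ := by
  have h1 := AA_le F M hF x u hu hu1
  have hne : deriv F (pt x u) ≠ 0 := deriv_ne F M hF _ hu
  have hpos : 0 < ‖deriv F (pt x u)‖ := norm_pos_iff.mpr hne
  unfold AA at h1
  rw [pt_im, norm_div, norm_mul, Complex.norm_real, Real.norm_of_nonneg hu.le,
    div_le_iff₀ hpos] at h1
  rw [div_mul_eq_mul_div, le_div_iff₀ hu]
  linarith

/-- the square of the derivative -/
theorem Ds_N (F : ℂ → ℂ) (M : ℝ) (hF : Cls F M) (x u : ℝ) (hu : 0 < u) (hu1 : u ≤ 1 / 2) :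
    ∃ N' : ℝ, HasDerivAt (fun t : ℝ => ‖deriv F (pt x t)‖ ^ 2) N' u ∧
      |N'| ≤ 8 / u * ‖deriv F (pt x u)‖ ^ 2 := by
  have h1 := (Ds_deriv F M hF x u hu).norm_sq
  refine ⟨_, h1, ?_⟩
  have h2 := abs_real_inner_le_norm (deriv F (pt x u)) (Complex.I * deriv (deriv F) (pt x u))
  rw [norm_mul, Complex.norm_I, one_mul] at h2
  have h3 := Ds_dd F M hF x u hu hu1
  rw [abs_mul, abs_two]
  have h4 : ‖deriv F (pt x u)‖ * ‖deriv (deriv F) (pt x u)‖ ≤
      ‖deriv F (pt x u)‖ * (4 / u * ‖deriv F (pt x u)‖) :=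
    mul_le_mul_of_nonneg_left h3 (norm_nonneg _)
  calc 2 * |inner ℝ (deriv F (pt x u)) (Complex.I * deriv (deriv F) (pt x u))|
      ≤ 2 * (‖deriv F (pt x u)‖ * (4 / u * ‖deriv F (pt x u)‖)) := by linarith
    _ = 8 / u * ‖deriv F (pt x u)‖ ^ 2 := by ring

theorem Ds_up (N : ℝ → ℝ) (a y : ℝ) (ha : 0 < a) (hay : a ≤ y)
    (h : ∀ u ∈ Icc a y, ∃ N' : ℝ, HasDerivAt N N' u ∧ |N'| ≤ 8 / u * N u) :
    N y ≤ N a * (y / a) ^ 8 := by
  have hy : 0 < y := ha.trans_le hay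
  have hanti : AntitoneOn (fun u => N u * (u ^ 8)⁻¹) (Icc a y) := by
    have hd : ∀ u ∈ Icc a y, ∃ D : ℝ, HasDerivAt (fun u => N u * (u ^ 8)⁻¹) D u ∧ D ≤ 0 := by
      intro u hu
      obtain ⟨N', h1, h2⟩ := h u hu
      have hup : 0 < u := ha.trans_le hu.1
      have hne : u ^ 8 ≠ 0 := (pow_pos hup 8).ne'
      refine ⟨_, h1.mul ((hasDerivAt_pow 8 u).inv hne), ?_⟩
      have h3 : N' ≤ 8 / u * N u := (le_abs_self _).trans h2
      have h4 : N' * (u ^ 8)⁻¹ ≤ 8 / u * N u * (u ^ 8)⁻¹ :=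
        mul_le_mul_of_nonneg_right h3 (inv_nonneg.mpr (pow_pos hup 8).le)
      have h5 : 8 / u * N u * (u ^ 8)⁻¹ + N u * (-(((8:ℕ):ℝ) * u ^ (8 - 1)) / (u ^ 8) ^ 2) = 0 := by
        field_simp
        norm_num
      linarith
    refine antitoneOn_of_deriv_nonpos (convex_Icc a y) ?_ ?_ ?_
    · intro u hu
      obtain ⟨D, h1, -⟩ := hd u hu
      exact h1.continuousAt.continuousWithinAt
    · intro u hu
      obtain ⟨D, h1, -⟩ := hd u (interior_subset hu)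
      exact h1.differentiableAt.differentiableWithinAt
    · intro u hu
      obtain ⟨D, h1, h2⟩ := hd u (interior_subset hu)
      rw [h1.deriv]
      exact h2
  have h1 := hanti (left_mem_Icc.mpr hay) (right_mem_Icc.mpr hay) hay
  simp only at h1
  rw [div_pow, mul_div_assoc']
  rw [le_div_iff₀ (pow_pos ha 8)]
  have ha8 : 0 < a ^ 8 := pow_pos ha 8
  have hy8 : 0 < y ^ 8 := pow_pos hy 8
  rw [← div_eq_mul_inv, ← div_eq_mul_inv, div_le_div_iff₀ hy8 ha8] at h1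
  exact h1

theorem Ds_down (N : ℝ → ℝ) (a y : ℝ) (ha : 0 < a) (hay : a ≤ y)
    (h : ∀ u ∈ Icc a y, ∃ N' : ℝ, HasDerivAt N N' u ∧ |N'| ≤ 8 / u * N u) :
    N a ≤ N y * (y / a) ^ 8 := by
  have hmono : MonotoneOn (fun u => N u * u ^ 8) (Icc a y) := by
    have hd : ∀ u ∈ Icc a y, ∃ D : ℝ, HasDerivAt (fun u => N u * u ^ 8) D u ∧ 0 ≤ D := by
      intro u hu
      obtain ⟨N', h1, h2⟩ := h u hu
      have hup : 0 < u := ha.trans_le hu.1
      refine ⟨_, h1.mul (hasDerivAt_pow 8 u), ?_⟩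
      have h3 : -(8 / u * N u) ≤ N' := (abs_le.mp h2).1
      have h4 : -(8 / u * N u) * u ^ 8 ≤ N' * u ^ 8 :=
        mul_le_mul_of_nonneg_right h3 (pow_pos hup 8).le
      have h5 : -(8 / u * N u) * u ^ 8 + N u * (((8:ℕ):ℝ) * u ^ (8 - 1)) = 0 := by
        field_simp
        norm_num
      exact h5.symm.le.trans (add_le_add h4 le_rfl)
    refine monotoneOn_of_deriv_nonneg (convex_Icc a y) ?_ ?_ ?_
    · intro u hu
      obtain ⟨D, h1, -⟩ := hd u hu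
      exact h1.continuousAt.continuousWithinAt
    · intro u hu
      obtain ⟨D, h1, -⟩ := hd u (interior_subset hu)
      exact h1.differentiableAt.differentiableWithinAt
    · intro u hu
      obtain ⟨D, h1, h2⟩ := hd u (interior_subset hu)
      rw [h1.deriv]
      exact h2
  have h1 := hmono (left_mem_Icc.mpr hay) (right_mem_Icc.mpr hay) hay
  simp only at h1
  rw [div_pow, mul_div_assoc', le_div_iff₀ (pow_pos ha 8)]
  exact h1

theorem Ds_sq (p q r : ℝ) (hp : 0 ≤ p) (hq : 0 ≤ q) (hr : 0 ≤ r) (h : p ^ 2 ≤ q ^ 2 * r ^ 8) :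
    p ≤ q * r ^ 4 := by
  have h1 : q ^ 2 * r ^ 8 = (q * r ^ 4) ^ 2 := by ring
  rw [h1] at h
  exact (pow_le_pow_iff_left₀ hp (mul_nonneg hq (pow_nonneg hr 4)) two_ne_zero).mp h

theorem dist_up (F : ℂ → ℂ) (M : ℝ) (hF : Cls F M) (x a y : ℝ) (ha : 0 < a) (hay : a ≤ y)
    (hy : y ≤ 1 / 2) : ‖deriv F (pt x y)‖ ≤ ‖deriv F (pt x a)‖ * (y / a) ^ 4 := by
  refine Ds_sq _ _ _ (norm_nonneg _) (norm_nonneg _) (div_nonneg (ha.le.trans hay) ha.le) ?_
  exact Ds_up (fun t => ‖deriv F (pt x t)‖ ^ 2) a y ha hay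
    (fun u hu => Ds_N F M hF x u (ha.trans_le hu.1) (hu.2.trans hy))

theorem dist_down (F : ℂ → ℂ) (M : ℝ) (hF : Cls F M) (x a y : ℝ) (ha : 0 < a) (hay : a ≤ y)
    (hy : y ≤ 1 / 2) : ‖deriv F (pt x a)‖ ≤ ‖deriv F (pt x y)‖ * (y / a) ^ 4 := by
  refine Ds_sq _ _ _ (norm_nonneg _) (norm_nonneg _) (div_nonneg (ha.le.trans hay) ha.le) ?_
  exact Ds_down (fun t => ‖deriv F (pt x t)‖ ^ 2) a y ha hay
    (fun u hu => Ds_N F M hF x u (ha.trans_le hu.1) (hu.2.trans hy))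

theorem diff_le (F : ℂ → ℂ) (M : ℝ) (hF : Cls F M) (x a y : ℝ) (ha : 0 < a) (hay : a ≤ y)
    (hy : y ≤ 1 / 2) :
    ‖F (pt x y) - F (pt x a)‖ ≤ (y - a) * (‖deriv F (pt x a)‖ * (y / a) ^ 4) := by
  have h := norm_image_sub_le_of_norm_deriv_le_segment' (f := fun t : ℝ => F (pt x t))
    (f' := fun u => Complex.I * deriv F (pt x u)) (C := ‖deriv F (pt x a)‖ * (y / a) ^ 4)
    (a := a) (b := y)
    (fun u hu => (Ds_deriv0 F M hF x u (ha.trans_le hu.1)).hasDerivWithinAt)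
    (fun u hu => by
      rw [norm_mul, Complex.norm_I, one_mul]
      refine (dist_up F M hF x a u ha hu.1 (hu.2.le.trans hy)).trans ?_
      refine mul_le_mul_of_nonneg_left ?_ (norm_nonneg _)
      refine pow_le_pow_left₀ (div_nonneg (ha.le.trans hu.1) ha.le) ?_ 4
      exact div_le_div_of_nonneg_right hu.2.le ha.le)
    y (right_mem_Icc.mpr hay)
  rw [mul_comm]
  exact h

end H78.CN
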