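import Pool.Agent.H78.CN.Def

/-!
# CN-ME: measurability of the distance

PROOF.  `F` is continuous on the upper half plane `HP`, so for every `(w, y)`
`rr F w y = infDist w (F '' {z : 0 < im z, y < im z})` is the infimum of `‖w - F z‖` over the countable set of
`z = pt r s`, `r, s` rational, `0 < s`, `y < s` (density and continuity; the set is nonempty).  So
`(w, y) ↦ rr` is `ENNReal.toReal` of `⨅_{(r,s) ∈ ℚ²} (if 0 < s ∧ y < s then ofReal ‖w - F (pt r s)‖ else ⊤)`, a
countable infimum of measurable functions (`Measurable.iInf`, `Measurable.ite`).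
(`infDist w S = (infEDist w S).toReal`, `infEDist` is an `⨅`.)
-/

set_option autoImplicit false

open Set Metric MeasureTheory H62.CJ

namespace H78.CN

theorem me_dense : DenseRange (fun q : ℚ × ℚ => pt (q.1 : ℝ) (q.2 : ℝ)) := by
  have h1 : DenseRange (Prod.map (fun q : ℚ => (q : ℝ)) (fun q : ℚ => (q : ℝ))) :=
    Rat.denseRange_cast.prodMap Rat.denseRange_cast
  have h2 : DenseRange (fun p : ℝ × ℝ => pt p.1 p.2) := by
    refine Function.Surjective.denseRange ?_
    intro z
    exact ⟨(z.re, z.im), rfl⟩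
  have h3 : Continuous (fun p : ℝ × ℝ => pt p.1 p.2) := by
    have h4 : (fun p : ℝ × ℝ => pt p.1 p.2) =
        fun p : ℝ × ℝ => (p.1 : ℂ) + (p.2 : ℂ) * Complex.I := by
      funext p
      exact pt_eq _ _
    rw [h4]
    fun_prop
  exact h2.comp h1 h3

theorem me_infEDist (F : ℂ → ℂ) (M : ℝ) (hF : Cls F M) (w : ℂ) (y : ℝ) :
    infEDist w (DD F y) =
      ⨅ q : ℚ × ℚ, (if (0 : ℝ) < (q.2 : ℝ) ∧ y < (q.2 : ℝ) then
        edist w (F (pt (q.1 : ℝ) (q.2 : ℝ))) else ⊤) := by
  apply le_antisymm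
  · refine le_iInf (fun q => ?_)
    split_ifs with h
    · exact infEDist_le_edist_of_mem ⟨pt q.1 q.2, h, rfl⟩
    · exact le_top
  · refine le_infEDist.mpr ?_
    rintro _ ⟨z, ⟨hz0, hzy⟩, rfl⟩
    by_contra hcon
    rw [not_le] at hcon
    set g := ⨅ q : ℚ × ℚ, (if (0 : ℝ) < (q.2 : ℝ) ∧ y < (q.2 : ℝ) then
        edist w (F (pt (q.1 : ℝ) (q.2 : ℝ))) else ⊤) with hg
    have hHP : IsOpen HP := isOpen_lt continuous_const Complex.continuous_im
    have hc : ContinuousAt F z := (hF.diff.differentiableAt (hHP.mem_nhds hz0)).continuousAt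
    have hc2 : ContinuousAt (fun z' : ℂ => edist w (F z')) z :=
      continuousAt_const.edist hc
    have e1 : ∀ᶠ z' in nhds z, edist w (F z') < g := hc2.eventually_lt_const hcon
    have e2 : ∀ᶠ z' in nhds z, 0 < z'.im :=
      (isOpen_lt continuous_const Complex.continuous_im).mem_nhds hz0
    have e3 : ∀ᶠ z' in nhds z, y < z'.im :=
      (isOpen_lt continuous_const Complex.continuous_im).mem_nhds hzy
    obtain ⟨U, hU, hUo, hzU⟩ := _root_.eventually_nhds_iff.mp (e1.and (e2.and e3))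
    obtain ⟨q, hq⟩ := me_dense.exists_mem_open hUo ⟨z, hzU⟩
    obtain ⟨h1, h2, h3⟩ := hU _ hq
    have h4 : g ≤ edist w (F (pt (q.1 : ℝ) (q.2 : ℝ))) := by
      rw [hg]
      refine (iInf_le _ q).trans ?_
      rw [if_pos ⟨h2, h3⟩]
    exact absurd h1 (not_lt.mpr h4)

theorem measurable_rr (F : ℂ → ℂ) (M : ℝ) (hF : Cls F M) :
    Measurable (fun p : ℂ × ℝ => rr F p.1 p.2) := by
  have h1 : (fun p : ℂ × ℝ => rr F p.1 p.2) = fun p : ℂ × ℝ =>
      (⨅ q : ℚ × ℚ, (if (0 : ℝ) < (q.2 : ℝ) ∧ p.2 < (q.2 : ℝ) then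
        edist p.1 (F (pt (q.1 : ℝ) (q.2 : ℝ))) else ⊤)).toReal := by
    funext p
    rw [← me_infEDist F M hF]
    rfl
  rw [h1]
  refine ENNReal.measurable_toReal.comp (Measurable.iInf fun q => ?_)
  refine Measurable.ite ?_ (measurable_fst.edist measurable_const) measurable_const
  exact (MeasurableSet.const _).inter (measurableSet_lt measurable_snd measurable_const)

end H78.CN
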