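import Pool.Agent.H78.CN.Ar
import Pool.Agent.H78.CN.Me
import Pool.Agent.H78.CN.Ds
import Pool.Agent.H62.CJ.P2

/-!
# CN-BD: the boundary term

PROOF.  Put `C1 = pi M^2 + 2 pi (M/b/(1-q) + 4/b/(2-q))`.
(1) For `b < y <= 2 b` (so `y <= 1/2`):
`∫⁻_{strip 0 y} ofReal (‖F'‖^2) * ofReal (rr F (F ζ) y^(-q)) <= ofReal C1`.
Indeed `ofReal (r^(-q)) <= 1 + g r`, `g r = if r < 1 then ofReal (r^(-q)) else 0` (`r >= 0`; for `r >= 1`:
`r^(-q) <= 1`).  The part with `1` is `area_le`.  For the part with `g` apply `tube` at height `y` with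
`G w = g (rr F w y)` (measurable by `measurable_rr`) and `g x s = g s`:
it is at most `∫⁻_x ∫⁻_{lam>0} g (lam D) ofReal (D^2 (1 + lam kk))`, `D = ‖deriv F (pt x y)‖ > 0` (`deriv_ne`), and
with `|kk| <= 4/y <= 4/b` (`kk_le`) the inner integral is at most
`∫_0^{1/D} (lam D)^(-q) D^2 (1 + lam 4/b) dlam = D/(1-q) + (4/b)/(2-q)`; `D <= M/y <= M/b` (`cauchy_bound`).
(2) Swap the integrals (Tonelli, `measurable_rr`, as in St.lean), `strip 0 b ⊆ strip 0 y`, and
`ofReal (y^(eta-1) * r^(-q)) = ofReal (y^(eta-1)) * ofReal (r^(-q))`, `y^(eta-1) <= b^(eta-1)` (`eta <= 1`), the length of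
`Ioc b (lam b)` is `(lam-1) b <= b`.  So `C = b^eta C1 + 1` works.
-/

set_option autoImplicit false

open Set Metric MeasureTheory H62.CJ

namespace H78.CN

/-- the small part of the kernel -/
noncomputable def BdG (q r : ℝ) : ENNReal := if r < 1 then ENNReal.ofReal (r ^ (-q)) else 0

theorem BdG_meas (q : ℝ) : Measurable (BdG q) := by
  unfold BdG
  exact Measurable.ite measurableSet_Iio (measurable_id.pow_const (-q)).ennreal_ofReal
    measurable_const

theorem BdG_bd (q r : ℝ) (hq : 0 < q) :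
    ENNReal.ofReal (r ^ (-q)) ≤ 1 + BdG q r := by
  unfold BdG
  split_ifs with h
  · exact le_add_self
  · rw [add_zero]
    push Not at h
    have h1 : r ^ (-q) ≤ 1 := Real.rpow_le_one_of_one_le_of_nonpos h (by linarith)
    calc ENNReal.ofReal (r ^ (-q)) ≤ ENNReal.ofReal 1 := ENNReal.ofReal_le_ofReal h1
      _ = 1 := ENNReal.ofReal_one

theorem Bd_int (q D κ : ℝ) (hq1 : q < 1) (hD : 0 < D) :
    ∫ lam in (0 : ℝ)..(1 / D), (D ^ (2 - q) * lam ^ (-q) + D ^ (2 - q) * κ * lam ^ (1 - q)) =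
      D / (1 - q) + κ / (2 - q) := by
  have hi1 : IntervalIntegrable (fun lam : ℝ => lam ^ (-q)) volume 0 (1 / D) :=
    intervalIntegral.intervalIntegrable_rpow' (by linarith)
  have hi2 : IntervalIntegrable (fun lam : ℝ => lam ^ (1 - q)) volume 0 (1 / D) :=
    intervalIntegral.intervalIntegrable_rpow' (by linarith)
  rw [intervalIntegral.integral_add (hi1.const_mul _) (hi2.const_mul _),
    intervalIntegral.integral_const_mul, intervalIntegral.integral_const_mul,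
    integral_rpow (Or.inl (by linarith)), integral_rpow (Or.inl (by linarith))]
  have e1 : -q + 1 = 1 - q := by ring
  have e2 : 1 - q + 1 = 2 - q := by ring
  rw [e1, e2, Real.zero_rpow (by linarith), Real.zero_rpow (by linarith), sub_zero, sub_zero,
    one_div, Real.inv_rpow hD.le, Real.inv_rpow hD.le]
  have e3 : D ^ (2 - q) = D ^ (1 - q) * D := by
    rw [← Real.rpow_add_one hD.ne']; congr 1; ring
  have h1 : D ^ (1 - q) ≠ 0 := (Real.rpow_pos_of_pos hD _).ne'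
  have h2 : (1 - q) ≠ 0 := by linarith
  have h3 : (2 - q) ≠ 0 := by linarith
  rw [e3]
  field_simp

theorem Bd_inner (q D k κ : ℝ) (hq1 : q < 1) (hD : 0 < D) (hκ : 0 ≤ κ) (hk : |k| ≤ κ) :
    ∫⁻ lam in Ioi (0 : ℝ), BdG q (lam * D) * ENNReal.ofReal (D ^ 2 * (1 + lam * k)) ≤
      ENNReal.ofReal (D / (1 - q) + κ / (2 - q)) := by
  have hpw : ∀ lam ∈ Ioi (0 : ℝ), BdG q (lam * D) * ENNReal.ofReal (D ^ 2 * (1 + lam * k)) ≤
      (Ioc (0 : ℝ) (1 / D)).indicator (fun lam => ENNReal.ofReal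
        (D ^ (2 - q) * lam ^ (-q) + D ^ (2 - q) * κ * lam ^ (1 - q))) lam := by
    intro lam hl
    have hl0 : 0 < lam := hl
    unfold BdG
    split_ifs with h
    · have hm : lam ∈ Ioc (0 : ℝ) (1 / D) := ⟨hl0, by rw [le_div_iff₀ hD]; exact h.le⟩
      rw [indicator_of_mem hm, ← ENNReal.ofReal_mul (Real.rpow_nonneg (by positivity) _)]
      apply ENNReal.ofReal_le_ofReal
      have e1 : (lam * D) ^ (-q) * D ^ 2 = D ^ (2 - q) * lam ^ (-q) := by
        rw [Real.mul_rpow hl0.le hD.le]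
        have : D ^ (2 - q) = D ^ (-q) * D ^ 2 := by
          rw [← Real.rpow_natCast, ← Real.rpow_add hD]; congr 1; push_cast; ring
        rw [this]; ring
      have e2 : lam ^ (1 - q) = lam ^ (-q) * lam := by
        rw [← Real.rpow_add_one hl0.ne']; congr 1; ring
      have h3 : 1 + lam * k ≤ 1 + lam * κ := by
        have := (abs_le.1 hk).2
        nlinarith
      have h4 : 0 ≤ D ^ (2 - q) * lam ^ (-q) := by positivity
      calc (lam * D) ^ (-q) * (D ^ 2 * (1 + lam * k))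
          = (D ^ (2 - q) * lam ^ (-q)) * (1 + lam * k) := by rw [← e1]; ring
        _ ≤ (D ^ (2 - q) * lam ^ (-q)) * (1 + lam * κ) := mul_le_mul_of_nonneg_left h3 h4
        _ = D ^ (2 - q) * lam ^ (-q) + D ^ (2 - q) * κ * lam ^ (1 - q) := by rw [e2]; ring
    · rw [zero_mul]
      exact zero_le
  have hint : IntegrableOn (fun lam : ℝ =>
      D ^ (2 - q) * lam ^ (-q) + D ^ (2 - q) * κ * lam ^ (1 - q)) (Ioc 0 (1 / D)) := by
    have h0 : (0 : ℝ) ≤ 1 / D := by positivity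
    rw [← intervalIntegrable_iff_integrableOn_Ioc_of_le h0]
    have hi1 : IntervalIntegrable (fun lam : ℝ => lam ^ (-q)) volume 0 (1 / D) :=
      intervalIntegral.intervalIntegrable_rpow' (by linarith)
    have hi2 : IntervalIntegrable (fun lam : ℝ => lam ^ (1 - q)) volume 0 (1 / D) :=
      intervalIntegral.intervalIntegrable_rpow' (by linarith)
    exact (hi1.const_mul _).add (hi2.const_mul _)
  calc ∫⁻ lam in Ioi (0 : ℝ), BdG q (lam * D) * ENNReal.ofReal (D ^ 2 * (1 + lam * k))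
      ≤ ∫⁻ lam in Ioi (0 : ℝ), (Ioc (0 : ℝ) (1 / D)).indicator (fun lam => ENNReal.ofReal
        (D ^ (2 - q) * lam ^ (-q) + D ^ (2 - q) * κ * lam ^ (1 - q))) lam :=
        setLIntegral_mono' measurableSet_Ioi hpw
    _ ≤ ∫⁻ lam, (Ioc (0 : ℝ) (1 / D)).indicator (fun lam => ENNReal.ofReal
        (D ^ (2 - q) * lam ^ (-q) + D ^ (2 - q) * κ * lam ^ (1 - q))) lam :=
        setLIntegral_le_lintegral _ _
    _ = ∫⁻ lam in Ioc (0 : ℝ) (1 / D), ENNReal.ofReal
        (D ^ (2 - q) * lam ^ (-q) + D ^ (2 - q) * κ * lam ^ (1 - q)) :=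
        lintegral_indicator measurableSet_Ioc _
    _ = ENNReal.ofReal (∫ lam in Ioc (0 : ℝ) (1 / D),
        (D ^ (2 - q) * lam ^ (-q) + D ^ (2 - q) * κ * lam ^ (1 - q))) := by
        rw [ofReal_integral_eq_lintegral_ofReal hint]
        filter_upwards [ae_restrict_mem measurableSet_Ioc] with lam hl
        have hl0 : 0 < lam := hl.1
        show 0 ≤ D ^ (2 - q) * lam ^ (-q) + D ^ (2 - q) * κ * lam ^ (1 - q)
        positivity
    _ = ENNReal.ofReal (D / (1 - q) + κ / (2 - q)) := by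
        rw [← intervalIntegral.integral_of_le (by positivity), Bd_int q D κ hq1 hD]

theorem Bd_meas1 (F : ℂ → ℂ) (M : ℝ) (hF : Cls F M) :
    Measurable (fun p : ℂ × ℝ => rr F (F p.1) p.2) := by
  have h1 : Measurable (fun p : ℂ × ℝ => (F p.1, p.2)) :=
    (hF.meas.comp measurable_fst).prodMk measurable_snd
  have h2 := (measurable_rr F M hF).comp h1
  exact h2

theorem Bd_meas2 (F : ℂ → ℂ) (M : ℝ) (hF : Cls F M) (y : ℝ) :
    Measurable (fun w : ℂ => rr F w y) := by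
  have h1 : Measurable (fun w : ℂ => (w, y)) := measurable_prodMk_right
  have h2 := (measurable_rr F M hF).comp h1
  exact h2

theorem Bd_meas3 (F : ℂ → ℂ) (M : ℝ) (hF : Cls F M) (y : ℝ) :
    Measurable (fun ζ : ℂ => rr F (F ζ) y) := by
  have h2 := (Bd_meas2 F M hF y).comp hF.meas
  exact h2

/-- step (1) -/
theorem Bd_K (M b q : ℝ) (hb : 0 < b) (hb1 : b ≤ 1 / 4) (hq : 0 < q) (hq1 : q < 1) (F : ℂ → ℂ)
    (hF : Cls F M) (hN : NP F) (y : ℝ) (hy : b < y) (hy1 : y ≤ 2 * b) :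
    ∫⁻ ζ in strip 0 y, ENNReal.ofReal (‖deriv F ζ‖ ^ 2) *
        ENNReal.ofReal (rr F (F ζ) y ^ (-q)) ≤
      ENNReal.ofReal (Real.pi * M ^ 2 +
        2 * Real.pi * (|M| / b / (1 - q) + 4 / b / (2 - q))) := by
  have hy0 : 0 < y := hb.trans hy
  have hM0 : 0 ≤ M := (norm_nonneg _).trans (hF.bdd (pt 0 y) hy0 (by simp; linarith))
  have hmy : Measurable (fun w : ℂ => rr F w y) := Bd_meas2 F M hF y
  have hmD : Measurable (fun ζ : ℂ => ENNReal.ofReal (‖deriv F ζ‖ ^ 2)) :=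
    ((measurable_deriv F).norm.pow_const 2).ennreal_ofReal
  have htube := tube F M hF hN y hy0 (fun w => BdG q (rr F w y)) ((BdG_meas q).comp hmy)
    (fun _ r => BdG q r) ((BdG_meas q).comp measurable_snd) (fun ζ _ _ x _ => le_rfl)
  have hx : ∀ x : ℝ, ∫⁻ lam in Ioi (0 : ℝ), BdG q (lam * ‖deriv F (pt x y)‖) *
      ENNReal.ofReal (‖deriv F (pt x y)‖ ^ 2 * (1 + lam * kk F x y)) ≤
      ENNReal.ofReal (|M| / b / (1 - q) + 4 / b / (2 - q)) := by
    intro x
    have hD : 0 < ‖deriv F (pt x y)‖ := norm_pos_iff.2 (deriv_ne F M hF _ (by simpa using hy0))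
    have hk : |kk F x y| ≤ 4 / b := by
      refine (kk_le F M hF x y hy0 (by linarith)).trans ?_
      exact div_le_div_of_nonneg_left (by norm_num) hb hy.le
    refine (Bd_inner q _ _ (4 / b) hq1 hD (by positivity) hk).trans ?_
    apply ENNReal.ofReal_le_ofReal
    have h1 : ‖deriv F (pt x y)‖ ≤ |M| / b := by
      refine (cauchy_bound F M hF x y hy0 (by linarith)).trans ?_
      rw [abs_of_nonneg hM0]
      exact div_le_div_of_nonneg_left hM0 hb hy.le
    have h2 : 0 < 1 - q := by linarith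
    have h3 : ‖deriv F (pt x y)‖ / (1 - q) ≤ |M| / b / (1 - q) :=
      div_le_div_of_nonneg_right h1 h2.le
    linarith
  have h1q : 0 < 1 - q := by linarith
  have h2q : 0 < 2 - q := by linarith
  have hc0 : 0 ≤ |M| / b / (1 - q) + 4 / b / (2 - q) := by positivity
  calc ∫⁻ ζ in strip 0 y, ENNReal.ofReal (‖deriv F ζ‖ ^ 2) *
        ENNReal.ofReal (rr F (F ζ) y ^ (-q))
      ≤ ∫⁻ ζ in strip 0 y, (ENNReal.ofReal (‖deriv F ζ‖ ^ 2) +
          ENNReal.ofReal (‖deriv F ζ‖ ^ 2) * BdG q (rr F (F ζ) y)) := by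
        apply lintegral_mono
        intro ζ
        show ENNReal.ofReal (‖deriv F ζ‖ ^ 2) * ENNReal.ofReal (rr F (F ζ) y ^ (-q)) ≤
          ENNReal.ofReal (‖deriv F ζ‖ ^ 2) + ENNReal.ofReal (‖deriv F ζ‖ ^ 2) *
            BdG q (rr F (F ζ) y)
        calc ENNReal.ofReal (‖deriv F ζ‖ ^ 2) * ENNReal.ofReal (rr F (F ζ) y ^ (-q))
            ≤ ENNReal.ofReal (‖deriv F ζ‖ ^ 2) * (1 + BdG q (rr F (F ζ) y)) :=
              mul_le_mul_right (BdG_bd q _ hq) _
          _ = _ := by rw [mul_add, mul_one]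
    _ = (∫⁻ ζ in strip 0 y, ENNReal.ofReal (‖deriv F ζ‖ ^ 2)) +
          ∫⁻ ζ in strip 0 y, ENNReal.ofReal (‖deriv F ζ‖ ^ 2) * BdG q (rr F (F ζ) y) :=
        lintegral_add_left hmD _
    _ ≤ ENNReal.ofReal (Real.pi * M ^ 2) +
          ∫⁻ _ in Ioo 0 (2 * Real.pi),
            ENNReal.ofReal (|M| / b / (1 - q) + 4 / b / (2 - q)) := by
        refine add_le_add (area_le F M hF y hy0 (by linarith)) (htube.trans ?_)
        exact lintegral_mono hx
    _ = ENNReal.ofReal (Real.pi * M ^ 2 +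
        2 * Real.pi * (|M| / b / (1 - q) + 4 / b / (2 - q))) := by
        rw [setLIntegral_const, Real.volume_Ioo, sub_zero, ← ENNReal.ofReal_mul hc0,
          ← ENNReal.ofReal_add (by positivity) (mul_nonneg hc0 (by positivity))]
        congr 1
        ring

theorem bdry (M b q eta : ℝ) (hb : 0 < b) (hb1 : b ≤ 1 / 4) (hq : 0 < q) (hq1 : q < 1)
    (he : 0 < eta) (he1 : eta ≤ 1) : ∃ C : ℝ, 0 < C ∧ ∀ F : ℂ → ℂ, Cls F M → NP F → ∀ lam : ℝ,
      1 < lam → lam ≤ 2 →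
      ∫⁻ ζ in strip 0 b, ENNReal.ofReal (‖deriv F ζ‖ ^ 2) *
        ∫⁻ y in Ioc b (lam * b), ENNReal.ofReal (y ^ (eta - 1) * rr F (F ζ) y ^ (-q)) ≤
      ENNReal.ofReal C := by
  set C1 : ℝ := Real.pi * M ^ 2 + 2 * Real.pi * (|M| / b / (1 - q) + 4 / b / (2 - q)) with hC1
  have h1q : 0 < 1 - q := by linarith
  have h2q : 0 < 2 - q := by linarith
  have hC1p : 0 ≤ C1 := by positivity
  have hbe : 0 < b ^ eta := Real.rpow_pos_of_pos hb _
  refine ⟨b ^ eta * C1 + 1, by positivity, ?_⟩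
  intro F hF hN lam hl hl2
  have hmD : Measurable (fun ζ : ℂ => ENNReal.ofReal (‖deriv F ζ‖ ^ 2)) :=
    ((measurable_deriv F).norm.pow_const 2).ennreal_ofReal
  have hmr : Measurable (fun p : ℂ × ℝ =>
      ENNReal.ofReal (p.2 ^ (eta - 1) * rr F (F p.1) p.2 ^ (-q))) :=
    ((measurable_snd.pow_const (eta - 1)).mul ((Bd_meas1 F M hF).pow_const (-q))).ennreal_ofReal
  have hm2 : Measurable (fun p : ℂ × ℝ => ENNReal.ofReal (‖deriv F p.1‖ ^ 2) *
      ENNReal.ofReal (p.2 ^ (eta - 1) * rr F (F p.1) p.2 ^ (-q))) :=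
    (hmD.comp measurable_fst).mul hmr
  have hy : ∀ y ∈ Ioc b (lam * b), ∫⁻ ζ in strip 0 b, ENNReal.ofReal (‖deriv F ζ‖ ^ 2) *
      ENNReal.ofReal (y ^ (eta - 1) * rr F (F ζ) y ^ (-q)) ≤
      ENNReal.ofReal (b ^ (eta - 1) * C1) := by
    intro y hy
    have hyb : b < y := hy.1
    have hy2 : y ≤ 2 * b := hy.2.trans (mul_le_mul_of_nonneg_right hl2 hb.le)
    have hy0 : 0 < y := hb.trans hyb
    have hpy : 0 ≤ y ^ (eta - 1) := Real.rpow_nonneg hy0.le _
    have hp : y ^ (eta - 1) ≤ b ^ (eta - 1) :=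
      Real.rpow_le_rpow_of_nonpos hb hyb.le (by linarith)
    have hsub : strip 0 b ⊆ strip 0 y := fun ζ hζ => ⟨hζ.1, hζ.2.1, hζ.2.2.1, hζ.2.2.2.trans hyb⟩
    have hmy : Measurable (fun ζ : ℂ => rr F (F ζ) y) := Bd_meas3 F M hF y
    have hm3 : Measurable (fun ζ : ℂ => ENNReal.ofReal (‖deriv F ζ‖ ^ 2) *
        ENNReal.ofReal (rr F (F ζ) y ^ (-q))) :=
      hmD.mul (hmy.pow_const (-q)).ennreal_ofReal
    calc ∫⁻ ζ in strip 0 b, ENNReal.ofReal (‖deriv F ζ‖ ^ 2) *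
          ENNReal.ofReal (y ^ (eta - 1) * rr F (F ζ) y ^ (-q))
        = ∫⁻ ζ in strip 0 b, ENNReal.ofReal (y ^ (eta - 1)) *
            (ENNReal.ofReal (‖deriv F ζ‖ ^ 2) * ENNReal.ofReal (rr F (F ζ) y ^ (-q))) := by
          apply lintegral_congr
          intro ζ
          rw [ENNReal.ofReal_mul hpy]
          ring
      _ = ENNReal.ofReal (y ^ (eta - 1)) * ∫⁻ ζ in strip 0 b,
            (ENNReal.ofReal (‖deriv F ζ‖ ^ 2) * ENNReal.ofReal (rr F (F ζ) y ^ (-q))) :=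
          lintegral_const_mul _ hm3
      _ ≤ ENNReal.ofReal (b ^ (eta - 1)) * ENNReal.ofReal C1 := by
          refine mul_le_mul' (ENNReal.ofReal_le_ofReal hp) ?_
          exact (lintegral_mono_set hsub).trans (Bd_K M b q hb hb1 hq hq1 F hF hN y hyb hy2)
      _ = ENNReal.ofReal (b ^ (eta - 1) * C1) := by
          rw [ENNReal.ofReal_mul (Real.rpow_nonneg hb.le _)]
  calc ∫⁻ ζ in strip 0 b, ENNReal.ofReal (‖deriv F ζ‖ ^ 2) *
        ∫⁻ y in Ioc b (lam * b), ENNReal.ofReal (y ^ (eta - 1) * rr F (F ζ) y ^ (-q))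
      = ∫⁻ ζ in strip 0 b, ∫⁻ y in Ioc b (lam * b), ENNReal.ofReal (‖deriv F ζ‖ ^ 2) *
          ENNReal.ofReal (y ^ (eta - 1) * rr F (F ζ) y ^ (-q)) := by
        apply lintegral_congr
        intro ζ
        have h1 : Measurable (fun y : ℝ => (ζ, y)) := measurable_prodMk_left
        have h2 := hmr.comp h1
        exact (lintegral_const_mul _ h2).symm
    _ = ∫⁻ y in Ioc b (lam * b), ∫⁻ ζ in strip 0 b, ENNReal.ofReal (‖deriv F ζ‖ ^ 2) *
          ENNReal.ofReal (y ^ (eta - 1) * rr F (F ζ) y ^ (-q)) :=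
        lintegral_lintegral_swap hm2.aemeasurable
    _ ≤ ∫⁻ _ in Ioc b (lam * b), ENNReal.ofReal (b ^ (eta - 1) * C1) :=
        setLIntegral_mono' measurableSet_Ioc hy
    _ = ENNReal.ofReal (b ^ (eta - 1) * C1) * ENNReal.ofReal (lam * b - b) := by
        rw [setLIntegral_const, Real.volume_Ioc]
    _ ≤ ENNReal.ofReal (b ^ (eta - 1) * C1) * ENNReal.ofReal b := by
        refine mul_le_mul_right (ENNReal.ofReal_le_ofReal ?_) _
        nlinarith
    _ = ENNReal.ofReal (b ^ eta * C1) := by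
        rw [← ENNReal.ofReal_mul (mul_nonneg (Real.rpow_nonneg hb.le _) hC1p)]
        congr 1
        have e : b ^ eta = b ^ (eta - 1) * b := by
          rw [← Real.rpow_add_one hb.ne']; congr 1; ring
        rw [e]; ring
    _ ≤ ENNReal.ofReal (b ^ eta * C1 + 1) := ENNReal.ofReal_le_ofReal (by linarith)

end H78.CN
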