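import Pool.Agent.H78.CN.Tb
import Pool.Agent.H78.CN.Me
import Pool.Agent.H78.CN.Ds

/-!
# CN-CO: the cost at height y

PROOF.  Apply `tube` at height `y` with `G w = ofReal (rr F w y^(-q) - lam^eta rr F w (lam y)^(-q))`
(measurable by `measurable_rr`) and `g x s = ofReal (s^(-q) - lam^eta (s + d x)^(-q))`,
`d x = (lam - 1) lam^4 * (y * ‖deriv F (pt x y)‖)` (jointly measurable).
`hGg`: for `ζ` with `0 < ζ.im < y` and `Near F (F ζ) x y` put `r = rr F (F ζ) y > 0` (`rr_pos`).  Then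
`rr F (F ζ) (lam y) <= ‖F ζ - F (pt x (lam y))‖ <= r + ‖F (pt x y) - F (pt x (lam y))‖ <= r + d x`
(`rr_le_line`, `Near`, `diff_le` with `a = y`, `y = lam y`, factor `(lam y/y)^4 = lam^4`), and
`rr F (F ζ) (lam y) >= r > 0` (`rr_mono`), so `rr(lam y)^(-q) >= (r + d x)^(-q)` (`-q < 0`) and `G <= g`.
Right side of `tube`, for fixed `x` with `D = ‖deriv F (pt x y)‖ > 0` (`deriv_ne`): substitute `lam' = y σ`
(`lintegral` over `Ioi 0`, factor `y`):
`∫⁻_{σ>0} ofReal y * ofReal ((yσD)^(-q) - lam^eta (yσD + d)^(-q)) * ofReal (D^2 (1 + y σ kk))`,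
`yσD + d = yD (σ + (lam-1) lam^4)`, so the second factor is
`ofReal ((yD)^(-q) (σ^(-q) - lam^eta (σ + (lam-1)lam^4)^(-q)))` and the total is
`ofReal (y (yD)^(-q) D^2) * tau q eta lam ((lam-1)*lam^4) (y * kk F x y)`; `y (yD)^(-q) D^2 = y^(1-q) D^(2-q)` and
`y * kk F x y = (AA F (pt x y)).im` (`AA_im_eq`).
-/

set_option autoImplicit false

open Set Metric MeasureTheory H62.CJ

namespace H78.CN

/-- the substitution `lam = y σ` in the inner integral -/
theorem Co_inner (D y lam q eta κ : ℝ) (hD : 0 < D) (hy : 0 < y) (hl : 1 < lam) :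
    ∫⁻ t in Ioi (0 : ℝ), ENNReal.ofReal ((t * D) ^ (-q) -
        lam ^ eta * (t * D + (lam - 1) * lam ^ 4 * (y * D)) ^ (-q)) *
          ENNReal.ofReal (D ^ 2 * (1 + t * κ)) =
      ENNReal.ofReal (y ^ (1 - q)) * (ENNReal.ofReal (D ^ (2 - q)) *
        tau q eta lam ((lam - 1) * lam ^ 4) (y * κ)) := by
  set d : ℝ := (lam - 1) * lam ^ 4 with hd
  have hd0 : 0 < d := mul_pos (by linarith) (by positivity)
  have himg : (fun σ : ℝ => y * σ) '' Ioi (0 : ℝ) = Ioi 0 := by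
    ext t
    constructor
    · rintro ⟨σ, hσ, rfl⟩
      exact mul_pos hy hσ
    · intro ht
      refine ⟨t / y, div_pos ht hy, ?_⟩
      change y * (t / y) = t
      field_simp
  have hsub := lintegral_image_eq_lintegral_abs_deriv_mul (s := Ioi (0 : ℝ))
    (f := fun σ : ℝ => y * σ) (f' := fun _ => y) measurableSet_Ioi
    (fun σ _ => by
      have h : HasDerivAt (fun σ : ℝ => y * σ) (y * 1) σ := (hasDerivAt_id σ).const_mul y
      simpa using h.hasDerivWithinAt)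
    (fun a _ b _ hab => mul_left_cancel₀ hy.ne' hab)
    (fun t => ENNReal.ofReal ((t * D) ^ (-q) -
        lam ^ eta * (t * D + d * (y * D)) ^ (-q)) *
          ENNReal.ofReal (D ^ 2 * (1 + t * κ)))
  rw [himg] at hsub
  rw [hsub, tau, ← lintegral_const_mul' _ _ ENNReal.ofReal_ne_top,
    ← lintegral_const_mul' _ _ ENNReal.ofReal_ne_top]
  refine setLIntegral_congr_fun measurableSet_Ioi ?_
  intro σ hσ
  have hσ : 0 < σ := hσ
  have hyD : 0 < y * D := mul_pos hy hD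
  have e1 : (y * σ * D) ^ (-q) = (y * D) ^ (-q) * σ ^ (-q) := by
    rw [← Real.mul_rpow hyD.le hσ.le]
    congr 1
    ring
  have e2 : (y * σ * D + d * (y * D)) ^ (-q) = (y * D) ^ (-q) * (σ + d) ^ (-q) := by
    rw [← Real.mul_rpow hyD.le (by positivity)]
    congr 1
    ring
  have e3 : y * ((y * D) ^ (-q) * D ^ 2) = y ^ (1 - q) * D ^ (2 - q) := by
    rw [Real.mul_rpow hy.le hD.le, Real.rpow_sub hy, Real.rpow_sub hD, Real.rpow_one,
      Real.rpow_two, Real.rpow_neg hy.le, Real.rpow_neg hD.le]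
    ring
  have e4 : (0 : ℝ) ≤ (y * D) ^ (-q) := (Real.rpow_pos_of_pos hyD _).le
  change ENNReal.ofReal |y| * (ENNReal.ofReal ((y * σ * D) ^ (-q) -
        lam ^ eta * (y * σ * D + d * (y * D)) ^ (-q)) *
          ENNReal.ofReal (D ^ 2 * (1 + y * σ * κ))) = ENNReal.ofReal (y ^ (1 - q)) *
      (ENNReal.ofReal (D ^ (2 - q)) * (ENNReal.ofReal (σ ^ (-q) - lam ^ eta * (σ + d) ^ (-q)) *
        ENNReal.ofReal (1 + y * κ * σ)))
  rw [e1, e2, abs_of_pos hy]
  have e5 : (y * D) ^ (-q) * σ ^ (-q) - lam ^ eta * ((y * D) ^ (-q) * (σ + d) ^ (-q)) =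
      (y * D) ^ (-q) * (σ ^ (-q) - lam ^ eta * (σ + d) ^ (-q)) := by ring
  have e6 : 1 + y * σ * κ = 1 + y * κ * σ := by ring
  rw [e5, e6, ENNReal.ofReal_mul e4, ENNReal.ofReal_mul (sq_nonneg D)]
  have e7 : ENNReal.ofReal y * (ENNReal.ofReal ((y * D) ^ (-q)) * ENNReal.ofReal (D ^ 2)) =
      ENNReal.ofReal (y ^ (1 - q)) * ENNReal.ofReal (D ^ (2 - q)) := by
    rw [← ENNReal.ofReal_mul e4, ← ENNReal.ofReal_mul hy.le, e3,
      ENNReal.ofReal_mul (Real.rpow_pos_of_pos hy _).le]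
  calc ENNReal.ofReal y * (ENNReal.ofReal ((y * D) ^ (-q)) *
        ENNReal.ofReal (σ ^ (-q) - lam ^ eta * (σ + d) ^ (-q)) *
          (ENNReal.ofReal (D ^ 2) * ENNReal.ofReal (1 + y * κ * σ)))
      = ENNReal.ofReal y * (ENNReal.ofReal ((y * D) ^ (-q)) * ENNReal.ofReal (D ^ 2)) *
        (ENNReal.ofReal (σ ^ (-q) - lam ^ eta * (σ + d) ^ (-q)) *
          ENNReal.ofReal (1 + y * κ * σ)) := by ring
    _ = _ := by rw [e7]; ring

theorem cost (F : ℂ → ℂ) (M : ℝ) (hF : Cls F M) (hN : NP F) (y lam q eta : ℝ) (hy : 0 < y)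
    (hl : 1 < lam) (hly : lam * y ≤ 1 / 2) (hq : 0 < q) :
    ∫⁻ ζ in strip 0 y, ENNReal.ofReal (‖deriv F ζ‖ ^ 2) *
        ENNReal.ofReal (rr F (F ζ) y ^ (-q) - lam ^ eta * rr F (F ζ) (lam * y) ^ (-q)) ≤
      ENNReal.ofReal (y ^ (1 - q)) * ∫⁻ x in Ioo 0 (2 * Real.pi),
        ENNReal.ofReal (‖deriv F (pt x y)‖ ^ (2 - q)) *
          tau q eta lam ((lam - 1) * lam ^ 4) (AA F (pt x y)).im := by
  have hlpos : 0 < lam := by linarith
  have hyl : y < lam * y := by nlinarith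
  have hG : Measurable (fun w : ℂ =>
      ENNReal.ofReal (rr F w y ^ (-q) - lam ^ eta * rr F w (lam * y) ^ (-q))) := by
    have h1 : ∀ v : ℝ, Measurable (fun w : ℂ => rr F w v) := fun v => by
      have h0 : Measurable (fun w : ℂ => (w, v)) := measurable_prodMk_right
      have h00 := Measurable.comp (g := fun p : ℂ × ℝ => rr F p.1 p.2)
        (f := fun w : ℂ => (w, v)) (measurable_rr F M hF) h0
      exact h00
    have h2 : ∀ v : ℝ, Measurable (fun w : ℂ => rr F w v ^ (-q)) := fun v =>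
      (h1 v).pow_const (-q)
    have h3 : Measurable (fun w : ℂ => rr F w y ^ (-q) - lam ^ eta * rr F w (lam * y) ^ (-q)) :=
      (h2 y).sub ((h2 (lam * y)).const_mul (lam ^ eta))
    exact h3.ennreal_ofReal
  have hg : Measurable (fun p : ℝ × ℝ => ENNReal.ofReal (p.2 ^ (-q) -
      lam ^ eta * (p.2 + (lam - 1) * lam ^ 4 * (y * ‖deriv F (pt p.1 y)‖)) ^ (-q))) := by
    have h1 : Measurable (fun p : ℝ × ℝ => ‖deriv F (pt p.1 y)‖) := by
      have h2 : Measurable (fun p : ℝ × ℝ => pt p.1 y) :=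
        measurable_pt.comp (measurable_fst.prodMk measurable_const)
      exact ((measurable_deriv F).comp h2).norm
    have h3 : Measurable (fun p : ℝ × ℝ => p.2 ^ (-q)) := measurable_snd.pow_const (-q)
    have h4 : Measurable (fun p : ℝ × ℝ =>
        p.2 + (lam - 1) * lam ^ 4 * (y * ‖deriv F (pt p.1 y)‖)) :=
      measurable_snd.add ((h1.const_mul y).const_mul ((lam - 1) * lam ^ 4))
    have h5 : Measurable (fun p : ℝ × ℝ =>
        (p.2 + (lam - 1) * lam ^ 4 * (y * ‖deriv F (pt p.1 y)‖)) ^ (-q)) := h4.pow_const (-q)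
    exact (h3.sub (h5.const_mul (lam ^ eta))).ennreal_ofReal
  have ht := tube F M hF hN y hy
    (fun w => ENNReal.ofReal (rr F w y ^ (-q) - lam ^ eta * rr F w (lam * y) ^ (-q))) hG
    (fun x s => ENNReal.ofReal (s ^ (-q) -
      lam ^ eta * (s + (lam - 1) * lam ^ 4 * (y * ‖deriv F (pt x y)‖)) ^ (-q))) hg
    (by
      intro ζ h0 h1 x hx
      have hr : 0 < rr F (F ζ) y := rr_pos F M hF hN ζ y h0 h1
      have hr2 : 0 < rr F (F ζ) (lam * y) := lt_of_lt_of_le hr (rr_mono F (F ζ) hyl.le)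
      have h2 : rr F (F ζ) (lam * y) ≤ ‖F ζ - F (pt x (lam * y))‖ :=
        rr_le_line F M hF (F ζ) x (lam * y) (mul_pos hlpos hy)
      have h3 : ‖F (pt x (lam * y)) - F (pt x y)‖ ≤
          (lam * y - y) * (‖deriv F (pt x y)‖ * (lam * y / y) ^ 4) :=
        diff_le F M hF x y (lam * y) hy hyl.le hly
      have h4 : lam * y / y = lam := by field_simp
      rw [h4] at h3
      have h5 : ‖F ζ - F (pt x (lam * y))‖ ≤ ‖F ζ - F (pt x y)‖ +
          ‖F (pt x (lam * y)) - F (pt x y)‖ := by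
        rw [norm_sub_rev (F (pt x (lam * y))) (F (pt x y))]
        exact norm_sub_le_norm_sub_add_norm_sub _ _ _
      have h6 : rr F (F ζ) (lam * y) ≤
          rr F (F ζ) y + (lam - 1) * lam ^ 4 * (y * ‖deriv F (pt x y)‖) := by
        have hx' : rr F (F ζ) y = ‖F ζ - F (pt x y)‖ := hx
        rw [hx']
        calc rr F (F ζ) (lam * y) ≤ _ := h2
          _ ≤ _ := h5
          _ ≤ ‖F ζ - F (pt x y)‖ + (lam * y - y) * (‖deriv F (pt x y)‖ * lam ^ 4) := by
            linarith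
          _ = _ := by ring
      have h7 : (rr F (F ζ) y + (lam - 1) * lam ^ 4 * (y * ‖deriv F (pt x y)‖)) ^ (-q) ≤
          rr F (F ζ) (lam * y) ^ (-q) :=
        Real.rpow_le_rpow_of_nonpos hr2 h6 (by linarith)
      have h8 : 0 ≤ lam ^ eta := (Real.rpow_pos_of_pos hlpos _).le
      refine ENNReal.ofReal_le_ofReal ?_
      have h9 := mul_le_mul_of_nonneg_left h7 h8
      linarith)
  refine ht.trans (le_of_eq ?_)
  rw [← lintegral_const_mul' _ _ ENNReal.ofReal_ne_top]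
  refine lintegral_congr fun x => ?_
  have hD : 0 < ‖deriv F (pt x y)‖ := norm_pos_iff.2 (deriv_ne F M hF (pt x y) hy)
  have h10 := Co_inner ‖deriv F (pt x y)‖ y lam q eta (kk F x y) hD hy hl
  rw [AA_im_eq]
  exact h10

end H78.CN
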