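import Pool.Agent.H78.CN.Nf
import Pool.Agent.H78.CN.Ds
import Pool.Agent.H62.CJ.M0

/-!
# CN-LO: lower bound for the consumption

PROOF.  `lintegral_strip` turns the right side into `∫⁻_{a ∈ Ioo 0 b} ∫⁻_{x ∈ Ioo 0 (2 pi)} ...` with `ζ = pt x a` (the
inner function of `ζ` must be measurable: use `measurable_rr` of `Me`, or avoid it by bounding below first:
it suffices to prove the pointwise inequality (P) below for every `ζ` in the strip, then
`∫⁻_{strip 0 b} (left density) <= ∫⁻_{strip 0 b} (right density)` by `lintegral_mono` and only the left density,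
which is explicit and measurable, is converted with `lintegral_strip`).
(P): for `ζ = pt x a`, `0 < a < b`, `D = ‖F' ζ‖ > 0`, `lam a <= 1/2`:
`ofReal (c0 a^(eta-q) D^(2-q)) <= ofReal (D^2) ∫⁻_{y ∈ Ioc a (lam a)} ofReal (y^(eta-1) rr F (F ζ) y^(-q))`,
`c0 = lam^(eta-1) (lam^4)^(-q) (lam-1)^(1-q)/(1-q)`.
For `a < y <= lam a`: `rr F (F ζ) y <= ‖F ζ - F (pt x y)‖ <= (y - a) D (y/a)^4 <= (y-a) D lam^4` (`rr_le_line`,
`diff_le`), and `rr > 0`; if `rr` could be `0` the value `0^(-q) = 0` would be bad, so use `rr_pos` (needs `NP`).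
Hence `rr^(-q) >= (y-a)^(-q) D^(-q) (lam^4)^(-q)` and `y^(eta-1) >= (lam a)^(eta-1)` (`eta <= 1`).
`∫_a^{lam a} (y-a)^(-q) dy = ((lam-1) a)^(1-q)/(1-q)` (`integral_rpow` after translation, `q < 1`).
Product: `D^2 (lam a)^(eta-1) D^(-q) (lam^4)^(-q) ((lam-1)a)^(1-q)/(1-q) = c0 a^(eta-q) D^(2-q)`.
-/

set_option autoImplicit false

open Set Metric MeasureTheory H62.CJ

namespace H78.CN

private theorem Lo_integral (a lam q A : ℝ) (ha : 0 < a) (hl : 1 < lam) (hq1 : q < 1)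
    (hA : 0 ≤ A) :
    ∫⁻ y in Ioc a (lam * a), ENNReal.ofReal (A * (y - a) ^ (-q)) =
      ENNReal.ofReal (A * (((lam - 1) * a) ^ (1 - q) / (1 - q))) := by
  have hle : a ≤ lam * a := by nlinarith
  have h1 : IntervalIntegrable (fun u : ℝ => u ^ (-q)) volume (a - a) (lam * a - a) :=
    intervalIntegral.intervalIntegrable_rpow' (by linarith)
  have h2 : IntervalIntegrable (fun y : ℝ => (y - a) ^ (-q)) volume a (lam * a) := by
    have h3 := h1.comp_sub_right a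
    simpa using h3
  have h4 : IntegrableOn (fun y : ℝ => A * (y - a) ^ (-q)) (Ioc a (lam * a)) volume := by
    have h5 := (intervalIntegrable_iff_integrableOn_Ioc_of_le hle).mp h2
    exact h5.const_mul A
  have h6 : ∫ y in a..(lam * a), (y - a) ^ (-q) = ((lam - 1) * a) ^ (1 - q) / (1 - q) := by
    rw [intervalIntegral.integral_comp_sub_right (fun u : ℝ => u ^ (-q)) a,
      integral_rpow (Or.inl (by linarith))]
    have e1 : -q + 1 = 1 - q := by ring
    have e2 : lam * a - a = (lam - 1) * a := by ring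
    rw [e1, e2, sub_self, Real.zero_rpow (by linarith), sub_zero]
  rw [← ofReal_integral_eq_lintegral_ofReal h4 ?_]
  · congr 1
    rw [integral_const_mul, ← intervalIntegral.integral_of_le hle, h6]
  · filter_upwards [ae_restrict_mem measurableSet_Ioc] with y hy
    exact mul_nonneg hA (Real.rpow_nonneg (by linarith [hy.1]) _)

private theorem Lo_alg (a lam q eta D : ℝ) (ha : 0 < a) (hl : 1 < lam) (hD : 0 < D) :
    lam ^ (eta - 1) * (lam ^ 4) ^ (-q) * ((lam - 1) ^ (1 - q) / (1 - q)) *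
        (a ^ (eta - q) * D ^ (2 - q)) =
      D ^ 2 * ((lam * a) ^ (eta - 1) * (D * lam ^ 4) ^ (-q) *
        (((lam - 1) * a) ^ (1 - q) / (1 - q))) := by
  have hlam : (0 : ℝ) < lam := by linarith
  have e1 : (lam * a) ^ (eta - 1) = lam ^ (eta - 1) * a ^ (eta - 1) :=
    Real.mul_rpow hlam.le ha.le
  have e2 : (D * lam ^ 4) ^ (-q) = D ^ (-q) * (lam ^ 4) ^ (-q) :=
    Real.mul_rpow hD.le (by positivity)
  have e3 : ((lam - 1) * a) ^ (1 - q) = (lam - 1) ^ (1 - q) * a ^ (1 - q) :=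
    Real.mul_rpow (by linarith) ha.le
  have e4 : D ^ (2 - q) = D ^ 2 * D ^ (-q) := by
    rw [sub_eq_add_neg, Real.rpow_add hD, Real.rpow_two]
  have e5 : a ^ (eta - q) = a ^ (eta - 1) * a ^ (1 - q) := by
    rw [← Real.rpow_add ha]
    congr 1
    ring
  rw [e1, e2, e3, e4, e5]
  ring

private theorem Lo_point (F : ℂ → ℂ) (M : ℝ) (hF : Cls F M) (hN : NP F) (b lam q eta : ℝ)
    (hl : 1 < lam) (hlb : lam * b ≤ 1 / 2) (hq : 0 < q) (hq1 : q < 1) (he1 : eta ≤ 1)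
    (ζ : ℂ) (h0 : 0 < ζ.im) (hb : ζ.im < b) :
    ENNReal.ofReal (lam ^ (eta - 1) * (lam ^ 4) ^ (-q) * ((lam - 1) ^ (1 - q) / (1 - q))) *
        (ENNReal.ofReal (ζ.im ^ (eta - q)) * ENNReal.ofReal (‖deriv F ζ‖ ^ (2 - q))) ≤
      ENNReal.ofReal (‖deriv F ζ‖ ^ 2) *
        ∫⁻ y in Ioc ζ.im (lam * ζ.im), ENNReal.ofReal (y ^ (eta - 1) * rr F (F ζ) y ^ (-q)) := by
  have hlam : (0 : ℝ) < lam := by linarith
  have hD : 0 < ‖deriv F ζ‖ := norm_pos_iff.mpr (deriv_ne F M hF ζ h0)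
  set D : ℝ := ‖deriv F ζ‖ with hDdef
  set a : ℝ := ζ.im with hadef
  have hA : 0 ≤ (lam * a) ^ (eta - 1) * (D * lam ^ 4) ^ (-q) := by positivity
  have hc0 : 0 ≤ lam ^ (eta - 1) * (lam ^ 4) ^ (-q) * ((lam - 1) ^ (1 - q) / (1 - q)) := by
    have h1 : 0 ≤ (lam - 1) ^ (1 - q) := Real.rpow_nonneg (by linarith) _
    have h2 : 0 < 1 - q := by linarith
    positivity
  have hmono : ∫⁻ y in Ioc a (lam * a),
      ENNReal.ofReal ((lam * a) ^ (eta - 1) * (D * lam ^ 4) ^ (-q) * (y - a) ^ (-q)) ≤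
      ∫⁻ y in Ioc a (lam * a), ENNReal.ofReal (y ^ (eta - 1) * rr F (F ζ) y ^ (-q)) := by
    refine setLIntegral_mono' measurableSet_Ioc fun y hy => ENNReal.ofReal_le_ofReal ?_
    have hy0 : 0 < y := h0.trans hy.1
    have hya : 0 < y - a := by linarith [hy.1]
    have hy12 : y ≤ 1 / 2 := by
      have h3 : lam * a ≤ lam * b := mul_le_mul_of_nonneg_left hb.le hlam.le
      linarith [hy.2]
    have hrpos : 0 < rr F (F ζ) y := rr_pos F M hF hN ζ y h0 hy.1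
    have hr1 : rr F (F ζ) y ≤ ‖F ζ - F (pt ζ.re y)‖ := rr_le_line F M hF (F ζ) ζ.re y hy0
    have hr2 : ‖F (pt ζ.re y) - F (pt ζ.re a)‖ ≤
        (y - a) * (‖deriv F (pt ζ.re a)‖ * (y / a) ^ 4) :=
      diff_le F M hF ζ.re a y h0 hy.1.le hy12
    have hpt : pt ζ.re a = ζ := pt_re_im ζ
    rw [hpt, norm_sub_rev] at hr2
    have hquot : y / a ≤ lam := by
      rw [div_le_iff₀ h0]
      exact hy.2
    have hq4 : (y / a) ^ 4 ≤ lam ^ 4 := pow_le_pow_left₀ (by positivity) hquot 4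
    have hr3 : rr F (F ζ) y ≤ D * lam ^ 4 * (y - a) := by
      have h4 : (y - a) * (D * (y / a) ^ 4) ≤ (y - a) * (D * lam ^ 4) :=
        mul_le_mul_of_nonneg_left (mul_le_mul_of_nonneg_left hq4 hD.le) hya.le
      calc rr F (F ζ) y ≤ (y - a) * (D * (y / a) ^ 4) := hr1.trans hr2
        _ ≤ (y - a) * (D * lam ^ 4) := h4
        _ = D * lam ^ 4 * (y - a) := by ring
    have hr4 : (D * lam ^ 4 * (y - a)) ^ (-q) ≤ rr F (F ζ) y ^ (-q) :=
      Real.rpow_le_rpow_of_nonpos hrpos hr3 (by linarith)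
    have hr5 : (D * lam ^ 4 * (y - a)) ^ (-q) = (D * lam ^ 4) ^ (-q) * (y - a) ^ (-q) :=
      Real.mul_rpow (by positivity) hya.le
    have hr6 : (lam * a) ^ (eta - 1) ≤ y ^ (eta - 1) :=
      Real.rpow_le_rpow_of_nonpos hy0 hy.2 (by linarith)
    calc (lam * a) ^ (eta - 1) * (D * lam ^ 4) ^ (-q) * (y - a) ^ (-q)
        = (lam * a) ^ (eta - 1) * (D * lam ^ 4 * (y - a)) ^ (-q) := by rw [hr5]; ring
      _ ≤ y ^ (eta - 1) * rr F (F ζ) y ^ (-q) :=
        mul_le_mul hr6 hr4 (Real.rpow_nonneg (by positivity) _) (Real.rpow_nonneg hy0.le _)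
  rw [Lo_integral a lam q _ h0 hl hq1 hA] at hmono
  refine le_trans (le_of_eq ?_) (mul_le_mul_right hmono (ENNReal.ofReal (D ^ 2)))
  rw [← ENNReal.ofReal_mul (Real.rpow_nonneg h0.le _), ← ENNReal.ofReal_mul hc0,
    ← ENNReal.ofReal_mul (by positivity), Lo_alg a lam q eta D h0 hl hD]

theorem lower (F : ℂ → ℂ) (M : ℝ) (hF : Cls F M) (hN : NP F) (b lam q eta : ℝ) (hb : 0 < b)
    (hl : 1 < lam) (hlb : lam * b ≤ 1 / 2) (hq : 0 < q) (hq1 : q < 1) (he1 : eta ≤ 1) :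
    ENNReal.ofReal (lam ^ (eta - 1) * (lam ^ 4) ^ (-q) * ((lam - 1) ^ (1 - q) / (1 - q))) *
        II F q eta b ≤
      ∫⁻ ζ in strip 0 b, ENNReal.ofReal (‖deriv F ζ‖ ^ 2) *
        ∫⁻ y in Ioc ζ.im (lam * ζ.im), ENNReal.ofReal (y ^ (eta - 1) * rr F (F ζ) y ^ (-q)) := by
  set c0 : ENNReal :=
    ENNReal.ofReal (lam ^ (eta - 1) * (lam ^ 4) ^ (-q) * ((lam - 1) ^ (1 - q) / (1 - q))) with hc0
  have hmeas : Measurable (fun ζ : ℂ => c0 * (ENNReal.ofReal (ζ.im ^ (eta - q)) *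
      ENNReal.ofReal (‖deriv F ζ‖ ^ (2 - q)))) := by
    have h1 : Measurable (deriv F) := measurable_deriv F
    exact ((Complex.measurable_im.pow_const _).ennreal_ofReal.mul
      (h1.norm.pow_const _).ennreal_ofReal).const_mul c0
  have hstrip := lintegral_strip _ hmeas 0 b
  have hII : c0 * II F q eta b = ∫⁻ v in Ioo 0 b, ∫⁻ x in Ioo 0 (2 * Real.pi),
      c0 * (ENNReal.ofReal ((pt x v).im ^ (eta - q)) *
        ENNReal.ofReal (‖deriv F (pt x v)‖ ^ (2 - q))) := by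
    unfold II
    rw [← lintegral_const_mul' c0 _ ENNReal.ofReal_ne_top]
    refine lintegral_congr fun v => ?_
    rw [← mul_assoc, ← lintegral_const_mul' _ _ (ENNReal.mul_ne_top ENNReal.ofReal_ne_top
      ENNReal.ofReal_ne_top)]
    refine lintegral_congr fun x => ?_
    rw [pt_im, mul_assoc]
  rw [hII, ← hstrip]
  refine setLIntegral_mono' (measurableSet_strip 0 b) fun ζ hζ => ?_
  exact Lo_point F M hF hN b lam q eta hl hlb hq hq1 he1 ζ hζ.2.2.1 hζ.2.2.2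

end H78.CN
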