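import Mathlib

/-!
# CN-HB: the excess at focal points

`0 < q < 1`, `a >= 1`.
* `simpson`: `(1+a) log a - 2 (a-1) <= (a-1)^3/(6a)`.  PROOF.  `S a = (a-1)^3/(6a) - (1+a) log a + 2(a-1)`,
  `S 1 = 0`, `S' a = a/3 - 1/2 + 1/(6 a^2) - log a - 1/a + 1`, `S' 1 = 0`, `S'' a = (a-1)^3/(3 a^3) >= 0`
  (`(a-1)^2 (2a+1)/(6a^2) = a/3 - 1/2 + 1/(6a^2)`).  Monotonicity twice (`monotoneOn_of_deriv_nonneg`).
* `excess`: `-a^q - (q/(2-q)) a^(q-1) <= -1 - (q/(2-q)) a + q (1-q) ((1+a) log a - 2 (a-1))`.  PROOF.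
  `E a = q(1-q)[(1+a) log a - 2(a-1)] + a^q + (q/(2-q)) a^(q-1) - 1 - (q/(2-q)) a`, `E 1 = 0`,
  `E' a = q(1-q)[log a + 1/a - 1] + q a^(q-1) - (q(1-q)/(2-q)) a^(q-2) - q/(2-q)`, `E' 1 = 0`
  (`q - q(1-q)/(2-q) - q/(2-q) = 0`), `E'' a = q(1-q)[1/a - 1/a^2 - a^(q-2) + a^(q-3)] = q(1-q)(a-1)(a^(-2) - a^(q-3)) >= 0`
  since `a^(q-3) <= a^(-2)` (`a >= 1`, `q <= 1`).
* `cubic`: for `1 <= a <= A`, `β > 0`: `(a-1)^3/(6a) <= (A-1)^3/(6A (A+β)^2) (a+β)^2`.  PROOF.  Equivalent to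
  `(a-1)^3 A (A+β)^2 <= (A-1)^3 a (a+β)^2`: `(a-1)/a <= (A-1)/A`, and `(a-1)/(a+β) <= (A-1)/(A+β)` (cross
  multiply: `(a-1)(A+β) <= (A-1)(a+β)` iff `(a - A)(1 + β) <= 0`), so
  `(a-1)^3/(a (a+β)^2) = ((a-1)/a) ((a-1)/(a+β))^2 <= ((A-1)/A) ((A-1)/(A+β))^2`.
-/

set_option autoImplicit false

open Set

namespace H78.CN

theorem Hb_mono {f f' : ℝ → ℝ} (hd : ∀ x, 1 ≤ x → HasDerivAt f (f' x) x)
    (hn : ∀ x, 1 ≤ x → 0 ≤ f' x) (h0 : f 1 = 0) (a : ℝ) (ha : 1 ≤ a) : 0 ≤ f a := by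
  have h1 : MonotoneOn f (Icc 1 a) := by
    apply monotoneOn_of_deriv_nonneg (convex_Icc 1 a)
    · intro x hx
      exact (hd x hx.1).continuousAt.continuousWithinAt
    · rw [interior_Icc]
      intro x hx
      exact (hd x hx.1.le).differentiableAt.differentiableWithinAt
    · rw [interior_Icc]
      intro x hx
      rw [(hd x hx.1.le).deriv]
      exact hn x hx.1.le
  have h2 := h1 (left_mem_Icc.2 ha) (right_mem_Icc.2 ha) ha
  rwa [h0] at h2

theorem simpson (a : ℝ) (ha : 1 ≤ a) :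
    (1 + a) * Real.log a - 2 * (a - 1) ≤ (a - 1) ^ 3 / (6 * a) := by
  have hS1 : ∀ x : ℝ, 1 ≤ x →
      0 ≤ x / 3 - 1 / 2 + 1 / 6 * (x ^ 2)⁻¹ - Real.log x - x⁻¹ + 1 := by
    apply Hb_mono (f' := fun x => (x - 1) ^ 3 / (3 * x ^ 3))
    · intro x hx
      have hx0 : x ≠ 0 := by linarith
      have h2 : HasDerivAt (fun x : ℝ => x / 3 - 1 / 2 + 1 / 6 * (x ^ 2)⁻¹ - Real.log x - x⁻¹ + 1)
          (1 / 3 + 1 / 6 * (-(((2 : ℕ) : ℝ) * x ^ (2 - 1)) / (x ^ 2) ^ 2) - x⁻¹ - -(x ^ 2)⁻¹) x :=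
        (((((hasDerivAt_id x).div_const 3).sub_const (1 / 2)).add
          (((hasDerivAt_pow 2 x).inv (pow_ne_zero 2 hx0)).const_mul (1 / 6))).sub
          (Real.hasDerivAt_log hx0)).sub (hasDerivAt_inv hx0) |>.add_const 1
      refine h2.congr_deriv ?_
      field_simp
      ring
    · intro x hx
      have hx0 : 0 < x := by linarith
      have : 0 ≤ (x - 1) ^ 3 := pow_nonneg (by linarith) 3
      positivity
    · norm_num
  have hS : ∀ x : ℝ, 1 ≤ x →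
      0 ≤ x ^ 2 / 6 - x / 2 + 1 / 2 - 1 / 6 * x⁻¹ - (1 + x) * Real.log x + 2 * (x - 1) := by
    apply Hb_mono (f' := fun x => x / 3 - 1 / 2 + 1 / 6 * (x ^ 2)⁻¹ - Real.log x - x⁻¹ + 1)
    · intro x hx
      have hx0 : x ≠ 0 := by linarith
      have h2 : HasDerivAt (fun x : ℝ => x ^ 2 / 6 - x / 2 + 1 / 2 - 1 / 6 * x⁻¹ -
          (1 + x) * Real.log x + 2 * (x - 1))
          (((2 : ℕ) : ℝ) * x ^ (2 - 1) / 6 - 1 / 2 - 1 / 6 * -(x ^ 2)⁻¹ -
          (1 * Real.log x + (1 + x) * x⁻¹) + 2 * 1) x :=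
        ((((((hasDerivAt_pow 2 x).div_const 6).sub ((hasDerivAt_id x).div_const 2)).add_const
          (1 / 2)).sub ((hasDerivAt_inv hx0).const_mul (1 / 6))).sub
          (((hasDerivAt_id x).const_add 1).mul (Real.hasDerivAt_log hx0))).add
          (((hasDerivAt_id x).sub_const 1).const_mul 2)
      refine h2.congr_deriv ?_
      field_simp
      ring
    · intro x hx
      exact hS1 x hx
    · norm_num
  have h1 := hS a ha
  have ha0 : a ≠ 0 := by linarith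
  have h2 : (a - 1) ^ 3 / (6 * a) = a ^ 2 / 6 - a / 2 + 1 / 2 - 1 / 6 * a⁻¹ := by
    field_simp
    ring
  rw [h2]
  linarith

theorem excess (q a : ℝ) (hq : 0 < q) (hq1 : q < 1) (ha : 1 ≤ a) :
    -a ^ q - q / (2 - q) * a ^ (q - 1) ≤
      -1 - q / (2 - q) * a + q * (1 - q) * ((1 + a) * Real.log a - 2 * (a - 1)) := by
  have h2q : (2 - q) ≠ 0 := by linarith
  have hE1 : ∀ x : ℝ, 1 ≤ x → 0 ≤ q * (1 - q) * (Real.log x + x⁻¹ - 1) + q * x ^ (q - 1) +
      q / (2 - q) * ((q - 1) * x ^ (q - 2)) - q / (2 - q) := by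
    apply Hb_mono (f' := fun x => q * (1 - q) * ((x - 1) * (x ^ (-2 : ℝ) - x ^ (q - 3))))
    · intro x hx
      have hx0 : 0 < x := by linarith
      have h2 : HasDerivAt (fun x : ℝ => q * (1 - q) * (Real.log x + x⁻¹ - 1) + q * x ^ (q - 1) +
          q / (2 - q) * ((q - 1) * x ^ (q - 2)) - q / (2 - q))
          (q * (1 - q) * (x⁻¹ + -(x ^ 2)⁻¹) + q * ((q - 1) * x ^ (q - 1 - 1)) +
          q / (2 - q) * ((q - 1) * ((q - 2) * x ^ (q - 2 - 1)))) x :=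
        (((((Real.hasDerivAt_log hx0.ne').add (hasDerivAt_inv hx0.ne')).sub_const 1).const_mul
          (q * (1 - q))).add ((Real.hasDerivAt_rpow_const (Or.inl hx0.ne')).const_mul q)).add
          (((Real.hasDerivAt_rpow_const (Or.inl hx0.ne')).const_mul (q - 1)).const_mul
          (q / (2 - q))) |>.sub_const (q / (2 - q))
      refine h2.congr_deriv ?_
      have e1 : x ^ (q - 1 - 1) = x ^ (q - 3) * x := by
        rw [show q - 1 - 1 = (q - 3) + 1 by ring, Real.rpow_add hx0, Real.rpow_one]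
      have e2 : x ^ (q - 2 - 1) = x ^ (q - 3) := by
        congr 1
        ring
      have e3 : x ^ (-2 : ℝ) = (x ^ 2)⁻¹ := by
        rw [Real.rpow_neg hx0.le]
        norm_cast
      rw [e1, e2, e3]
      field_simp
      ring
    · intro x hx
      have h3 : x ^ (q - 3) ≤ x ^ (-2 : ℝ) :=
        Real.rpow_le_rpow_of_exponent_le hx (by linarith)
      exact mul_nonneg (mul_nonneg hq.le (by linarith)) (mul_nonneg (by linarith) (by linarith))
    · simp only [Real.log_one, inv_one, Real.one_rpow]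
      field_simp
      ring
  have hE : ∀ x : ℝ, 1 ≤ x → 0 ≤ q * (1 - q) * ((1 + x) * Real.log x - 2 * (x - 1)) + x ^ q +
      q / (2 - q) * x ^ (q - 1) - 1 - q / (2 - q) * x := by
    apply Hb_mono (f' := fun x => q * (1 - q) * (Real.log x + x⁻¹ - 1) + q * x ^ (q - 1) +
      q / (2 - q) * ((q - 1) * x ^ (q - 2)) - q / (2 - q))
    · intro x hx
      have hx0 : 0 < x := by linarith
      have h2 : HasDerivAt (fun x : ℝ => q * (1 - q) * ((1 + x) * Real.log x - 2 * (x - 1)) +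
          x ^ q + q / (2 - q) * x ^ (q - 1) - 1 - q / (2 - q) * x)
          (q * (1 - q) * ((1 * Real.log x + (1 + x) * x⁻¹) - 2 * 1) + q * x ^ (q - 1) +
          q / (2 - q) * ((q - 1) * x ^ (q - 1 - 1)) - q / (2 - q) * 1) x :=
        (((((((hasDerivAt_id x).const_add 1).mul (Real.hasDerivAt_log hx0.ne')).sub
          (((hasDerivAt_id x).sub_const 1).const_mul 2)).const_mul (q * (1 - q))).add
          (Real.hasDerivAt_rpow_const (Or.inl hx0.ne'))).add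
          ((Real.hasDerivAt_rpow_const (Or.inl hx0.ne')).const_mul (q / (2 - q)))).sub_const 1
          |>.sub ((hasDerivAt_id x).const_mul (q / (2 - q)))
      refine h2.congr_deriv ?_
      have e1 : x ^ (q - 1 - 1) = x ^ (q - 2) := by
        congr 1
        ring
      have e2 : (1 + x) * x⁻¹ = x⁻¹ + 1 := by
        field_simp
      rw [e1, e2]
      ring
    · exact hE1
    · simp only [Real.log_one, Real.one_rpow]
      ring
  have h1 := hE a ha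
  linarith

theorem cubic (a A β : ℝ) (ha : 1 ≤ a) (haA : a ≤ A) (hβ : 0 < β) :
    (a - 1) ^ 3 / (6 * a) ≤ (A - 1) ^ 3 / (6 * A * (A + β) ^ 2) * (a + β) ^ 2 := by
  have ha0 : 0 < a := by linarith
  have hA0 : 0 < A := by linarith
  have hab : 0 < a + β := by linarith
  have hAb : 0 < A + β := by linarith
  have h1 : (a - 1) / a ≤ (A - 1) / A := by
    rw [div_le_div_iff₀ ha0 hA0]
    nlinarith
  have h2 : (a - 1) / (a + β) ≤ (A - 1) / (A + β) := by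
    rw [div_le_div_iff₀ hab hAb]
    nlinarith
  have h3 : 0 ≤ (a - 1) / a := div_nonneg (by linarith) ha0.le
  have h4 : 0 ≤ (a - 1) / (a + β) := div_nonneg (by linarith) hab.le
  have h5 : ((a - 1) / (a + β)) ^ 2 ≤ ((A - 1) / (A + β)) ^ 2 := pow_le_pow_left₀ h4 h2 2
  have h6 : (a - 1) / a * ((a - 1) / (a + β)) ^ 2 ≤ (A - 1) / A * ((A - 1) / (A + β)) ^ 2 :=
    mul_le_mul h1 h5 (by positivity) (h3.trans h1)
  have e1 : (a - 1) ^ 3 / (6 * a) = (a - 1) / a * ((a - 1) / (a + β)) ^ 2 * ((a + β) ^ 2 / 6) := by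
    field_simp
  have e2 : (A - 1) ^ 3 / (6 * A * (A + β) ^ 2) * (a + β) ^ 2 =
      (A - 1) / A * ((A - 1) / (A + β)) ^ 2 * ((a + β) ^ 2 / 6) := by
    field_simp
  rw [e1, e2]
  exact mul_le_mul_of_nonneg_right h6 (by positivity)

end H78.CN
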