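import Pool.Agent.H78.CN.Ha
import Pool.Agent.H78.CN.Hb

/-!
# CN-HC: the quadratic majorant

`0 < q < 1`, `0 < eta < q`, `R = q/eta`.  Hypothesis `hc` on the constant `c0 >= 0`: for `1 <= a <= A`
(`A = R (1 + e)`) `q (1-q) ((1+a) log a - 2 (a-1)) <= c0 (a/R + bb)^2`.  Then for `k >= -1 - e`, `s > 0`, `1 + k s >= 0`:
`Hs q eta s k <= R^(-q)/(1-q) * QQ q eta c0 bb k`.

PROOF.  The factor `R^(-q)/(1-q)` is positive.  If `k >= -1/R`: `hs_flat` and `c0 (k-bb)^2 >= 0`.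
If `k < -1/R`: `a = - R k`, `1 < a <= A`.  `hs_focal`, `excess`, `hc`:
`-a^q - (q/(2-q)) a^(q-1) <= -1 - (q/(2-q)) a + c0 (a/R + bb)^2`, and `a/R = -k`, `(a/R + bb)^2 = (k - bb)^2`,
`-(q/(2-q)) a = (q/(2-q)) R k`.
-/

set_option autoImplicit false

open Set

namespace H78.CN

theorem Hs_le (q eta e c0 bb : ℝ) (hq : 0 < q) (hq1 : q < 1) (he : 0 < eta) (heq : eta < q)
    (hc0 : 0 ≤ c0)
    (hc : ∀ a : ℝ, 1 ≤ a → a ≤ q / eta * (1 + e) →
      q * (1 - q) * ((1 + a) * Real.log a - 2 * (a - 1)) ≤ c0 * (a / (q / eta) + bb) ^ 2)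
    (k s : ℝ) (hk : -1 - e ≤ k) (hs : 0 < s) (hks : 0 ≤ 1 + k * s) :
    Hs q eta s k ≤ (q / eta) ^ (-q) / (1 - q) * QQ q eta c0 bb k := by
  have hR : 0 < q / eta := div_pos hq he
  have hfac : 0 ≤ (q / eta) ^ (-q) / (1 - q) :=
    div_nonneg (Real.rpow_nonneg hR.le _) (by linarith)
  unfold QQ
  rcases le_or_gt (-(eta / q)) k with h | h
  · refine (hs_flat q eta k s hq hq1 he h hs hks).trans (mul_le_mul_of_nonneg_left ?_ hfac)
    have : 0 ≤ c0 * (k - bb) ^ 2 := mul_nonneg hc0 (sq_nonneg _)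
    linarith
  · refine (hs_focal q eta k s hq hq1 he h hs hks).trans (mul_le_mul_of_nonneg_left ?_ hfac)
    have hRe : q / eta * (eta / q) = 1 := by
      field_simp
    have ha1 : 1 ≤ -(q / eta) * k := by nlinarith
    have haA : -(q / eta) * k ≤ q / eta * (1 + e) := by nlinarith
    have h1 := excess q (-(q / eta) * k) hq hq1 ha1
    have h2 := hc (-(q / eta) * k) ha1 haA
    have h3 : -(q / eta) * k / (q / eta) = -k := by
      field_simp
    rw [h3] at h2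
    have h4 : (-k + bb) ^ 2 = (k - bb) ^ 2 := by ring
    rw [h4] at h2
    have h5 : q / (2 - q) * (-(q / eta) * k) = -(q / (2 - q) * (q / eta) * k) := by ring
    rw [h5] at h1
    linarith

end H78.CN
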