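import Pool.Agent.H78.CN.Def

/-!
# CN-TA: the one-variable estimate for tau

`0 < q < 1`, `0 < eta < q`, `0 < δ <= 1/2`, `lam = 1 + δ`, `d = δ (1+δ)^4` (so `δ <= d <= δ + 9 δ^2 <= 6 δ`), `|k| <= 4`.
Write `u s = s^(-q) - lam^eta (s+d)^(-q)`, `ε = lam^eta - 1`, `ρ = eta/q ∈ (0,1)`, `R = q/eta > 1`.

PROOF.
(0) Bernoulli (`Real.one_add_mul_self_le_rpow_one_add`, `rpow_one_add_le_one_add_mul_self` or concavity):
`eta δ - δ^2 <= ε <= eta δ`; `ρ δ/2 <= lam^ρ - 1 <= ρ δ`.  [lower bounds: `(1+δ)^r >= 1 + r δ/(1+δ)` because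
`(1+δ)^(-r) <= 1 - r δ/(1+δ)`, i.e. Bernoulli for `(1 - δ/(1+δ))^r`.]
(1) For `s > 0`: `u s > 0 ↔ s < s0`, `s0 = d/(lam^ρ - 1)`, and `R <= s0 <= 12 R`.
(2) So the integrand of `tau` is `0` unless `s < s1`, `s1 = s0` if `k >= 0`, `s1 = min s0 (1/|k|)` if `k < 0`, and
`c1 := 1/4 <= s1 <= 12 R`, `1 + k s1 >= 0`.  On `(0, s1)` it is `ofReal (u s (1 + k s))`, continuous,
integrable at `0` (`|u s| <= s^(-q) + lam^eta s^(-q)`, `q < 1`), so `tau = ofReal T`, `T = ∫_0^{s1} u s (1 + k s) ds`.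
(3) Closed forms (`integral_rpow`, translation):
`T = Ea + k Eb - ε (Ec + k Ed)` with
`Ea = (s1^(1-q) - (s1+d)^(1-q) + d^(1-q))/(1-q)`,
`Ec = ((s1+d)^(1-q) - d^(1-q))/(1-q)`,
`Ed = ((s1+d)^(2-q) - d^(2-q))/(2-q) - d Ec`,  `Eb = s1^(2-q)/(2-q) - Ed`.
(4) Taylor bounds, all constants depend only on `q, eta` (`c1 <= s1 <= 12 R`, `d <= 3`):
`(s1+d)^(1-q) >= s1^(1-q) + (1-q) d (s1+d)^(-q)` (concavity/mean value) and
`(s1+d)^(-q) >= s1^(-q) - q d s1^(-q-1)`, so `Ea <= d^(1-q)/(1-q) - d s1^(-q) + q d^2 s1^(-q-1)`.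
`s1^(1-q) <= (s1+d)^(1-q) <= s1^(1-q) + (1-q) d s1^(-q)`,
`s1^(2-q) + (2-q) d s1^(1-q) <= (s1+d)^(2-q) <= s1^(2-q) + (2-q) d s1^(1-q) + (2-q)(1-q) d^2 s1^(-q)`.
So `|Eb - q d s1^(1-q)/(1-q)| <= c (d^2 + d^(2-q))`, `|Ec - s1^(1-q)/(1-q)| <= c (d + d^(1-q))`,
`|Ed - s1^(2-q)/(2-q)| <= c d` (with `d^(1-q), d^(2-q) <= c`).
(5) Insert `δ <= d <= δ + 9 δ^2`, `|ε - eta δ| <= δ^2`, `d^(1-q) <= δ^(1-q) (1 + 9 δ)`, `δ^2 <= δ^(2-q)`
(`δ <= 1`), `d^(2-q) <= 36 δ^(2-q)`: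
`T <= δ^(1-q)/(1-q) + δ Hs q eta s1 k + c δ^(2-q)`, and `Hs q eta s1 k <= X` by hypothesis (`s1 > 0`, `1 + k s1 >= 0`).
-/

set_option autoImplicit false

open Set MeasureTheory

namespace H78.CN

/-- Bernoulli bounds for an exponent between 0 and 1 -/
theorem ta_bern (a x : ℝ) (ha : 0 ≤ a) (ha1 : a ≤ 1) (hx : 0 ≤ x) :
    (1 + x) ^ a ≤ 1 + a * x ∧ (1 + x) / (1 + (1 - a) * x) ≤ (1 + x) ^ a := by
  have h1 : (0 : ℝ) < 1 + x := by linarith
  refine ⟨rpow_one_add_le_one_add_mul_self (by linarith) ha ha1, ?_⟩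
  have h2 : (1 + x) ^ (1 - a) ≤ 1 + (1 - a) * x :=
    rpow_one_add_le_one_add_mul_self (by linarith) (by linarith) (by linarith)
  have h3 : (1 + x) ^ a * (1 + x) ^ (1 - a) = 1 + x := by
    rw [← Real.rpow_add h1]
    have : a + (1 - a) = 1 := by ring
    rw [this, Real.rpow_one]
  have h4 : 0 < (1 + x) ^ a := Real.rpow_pos_of_pos h1 _
  have h5 : 0 < 1 + (1 - a) * x := by nlinarith
  rw [div_le_iff₀ h5]
  calc 1 + x = (1 + x) ^ a * (1 + x) ^ (1 - a) := h3.symm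
    _ ≤ (1 + x) ^ a * (1 + (1 - a) * x) := mul_le_mul_of_nonneg_left h2 h4.le

theorem ta_quad (a x : ℝ) (ha : 0 ≤ a) (ha1 : a ≤ 1) (hx : 0 ≤ x) :
    1 + a * x - a * (1 - a) * x ^ 2 ≤ (1 + x) ^ a := by
  refine le_trans ?_ (ta_bern a x ha ha1 hx).2
  have h5 : 0 < 1 + (1 - a) * x := by nlinarith
  rw [le_div_iff₀ h5]
  have h6 : 0 ≤ a * (1 - a) ^ 2 * x ^ 3 := by positivity
  nlinarith

theorem ta_pow4 (δ : ℝ) (hδ : 0 ≤ δ) (hδ1 : δ ≤ 1 / 2) :
    1 ≤ (1 + δ) ^ 4 ∧ (1 + δ) ^ 4 ≤ 1 + 9 * δ ∧ (1 + δ) ^ 4 ≤ 11 / 2 := by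
  have h2 : δ ^ 2 ≤ 1 / 2 * δ := by nlinarith
  have h3 : δ ^ 3 ≤ 1 / 4 * δ := by nlinarith [mul_nonneg hδ hδ]
  have h4 : δ ^ 4 ≤ 1 / 8 * δ := by nlinarith [mul_nonneg hδ (mul_nonneg hδ hδ)]
  have e : (1 + δ) ^ 4 = 1 + 4 * δ + 6 * δ ^ 2 + 4 * δ ^ 3 + δ ^ 4 := by ring
  have p2 : 0 ≤ δ ^ 2 := by positivity
  have p3 : 0 ≤ δ ^ 3 := by positivity
  have p4 : 0 ≤ δ ^ 4 := by positivity
  rw [e]
  refine ⟨by linarith, by linarith, by linarith⟩

/-- the sign of the integrand, both directions -/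
theorem ta_sgn (q eta δ s d : ℝ) (hq : 0 < q) (hδ : 0 < δ) (hd : 0 < d) (hs : 0 < s) :
    ((1 + δ) ^ (eta / q) * s ≤ s + d → 0 ≤ s ^ (-q) - (1 + δ) ^ eta * (s + d) ^ (-q)) ∧
    (s + d ≤ (1 + δ) ^ (eta / q) * s → s ^ (-q) - (1 + δ) ^ eta * (s + d) ^ (-q) ≤ 0) := by
  have h1 : (0 : ℝ) < 1 + δ := by linarith
  have hsd : 0 < s + d := by linarith
  have hΛ : 0 < (1 + δ) ^ (eta / q) := Real.rpow_pos_of_pos h1 _
  have hΛq : ((1 + δ) ^ (eta / q)) ^ q = (1 + δ) ^ eta := by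
    rw [← Real.rpow_mul h1.le, div_mul_cancel₀ _ hq.ne']
  have hL : 0 < (1 + δ) ^ eta := Real.rpow_pos_of_pos h1 _
  have hsq : 0 < s ^ q := Real.rpow_pos_of_pos hs _
  have hsdq : 0 < (s + d) ^ q := Real.rpow_pos_of_pos hsd _
  have e1 : ((1 + δ) ^ (eta / q) * s) ^ q = (1 + δ) ^ eta * s ^ q := by
    rw [Real.mul_rpow hΛ.le hs.le, hΛq]
  have e2 : s ^ (-q) - (1 + δ) ^ eta * (s + d) ^ (-q) =
      ((s + d) ^ q - (1 + δ) ^ eta * s ^ q) / (s ^ q * (s + d) ^ q) := by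
    rw [Real.rpow_neg hs.le, Real.rpow_neg hsd.le]
    field_simp
  have hden : 0 < s ^ q * (s + d) ^ q := mul_pos hsq hsdq
  constructor
  · intro h
    have h2 := Real.rpow_le_rpow (mul_pos hΛ hs).le h hq.le
    rw [e1] at h2
    rw [e2]
    exact div_nonneg (by linarith) hden.le
  · intro h
    have h2 := Real.rpow_le_rpow hsd.le h hq.le
    rw [e1] at h2
    rw [e2]
    exact div_nonpos_of_nonpos_of_nonneg (by linarith) hden.le

/-- (1): the sign of the integrand -/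
theorem ta_sign (q eta δ s d : ℝ) (hq : 0 < q) (he : 0 < eta) (hδ : 0 < δ) (hd : 0 < d)
    (hs : 0 < s) (h : d / ((1 + δ) ^ (eta / q) - 1) ≤ s) :
    s ^ (-q) - (1 + δ) ^ eta * (s + d) ^ (-q) ≤ 0 := by
  have h1 : (1 : ℝ) < (1 + δ) ^ (eta / q) :=
    Real.one_lt_rpow (by linarith) (div_pos he hq)
  refine (ta_sgn q eta δ s d hq hδ hd hs).2 ?_
  rw [div_le_iff₀ (by linarith)] at h
  linarith

/-- the final algebra -/
theorem ta_core (q eta δ d s1 k ε p0 p1 w1 e1 G0 S : ℝ) (hq : 0 < q) (hq1 : q < 1)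
    (hδ : 0 < δ) (hδ1 : δ ≤ 1 / 2) (hk : |k| ≤ 4)
    (hs1 : 1 / 4 ≤ s1) (hs1S : s1 ≤ S) (hS : 1 ≤ S)
    (hd1 : δ ≤ d) (hd2 : d ≤ δ + 9 * δ ^ 2) (hd3 : d ≤ 6 * δ)
    (hε0 : 0 ≤ ε) (hε1 : ε ≤ δ) (hε2 : |ε - eta * δ| ≤ δ ^ 2)
    (hp0 : 0 ≤ p0) (hp04 : p0 ≤ 4) (hp1 : p1 = s1 * p0) (hp1S : p1 ≤ S)
    (hw1 : w1 ≤ p1 + (1 - q) * (d * p0))
    (hw2 : p1 + (1 - q) * (d * p0) - (1 - q) * q * (d ^ 2 * p0 / s1) ≤ w1)
    (he0 : 0 ≤ e1) (he1 : e1 ≤ G0 * (1 + 9 * δ)) (hG0 : δ ≤ G0) :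
    p1 / (1 - q) + k * (s1 * p1 / (2 - q)) -
      (1 + ε) * ((1 - k * d) * ((w1 - e1) / (1 - q)) +
        k * (((s1 + d) * w1 - d * e1) / (2 - q))) ≤
    G0 / (1 - q) + δ * (-p0 - eta * (p1 / (1 - q)) +
      k * (q * (p1 / (1 - q)) - eta * (s1 * p1 / (2 - q)))) +
    (9 * (1 / (1 - q)) + 576 + 36 * S * (1 / (1 - q)) + 4 * (3744 + 36 * (1 / (1 - q))) +
      (S * (1 / (1 - q)) + 4 * S * S) + (576 + 6 * (1 / (1 - q))) +
      4 * (6 * S * (1 / (1 - q)) + (3744 + 36 * (1 / (1 - q))))) * (δ * G0) := by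
  have hq' : 0 < 1 - q := by linarith
  have hq2 : 0 < 2 - q := by linarith
  set J : ℝ := 1 / (1 - q) with hJ
  set J2 : ℝ := 1 / (2 - q) with hJ2
  have hJ1 : 1 ≤ J := by
    rw [hJ, le_div_iff₀ hq']; linarith
  have hJ2p : 0 < J2 := by rw [hJ2]; positivity
  have hJ21 : J2 ≤ 1 := by
    rw [hJ2, div_le_iff₀ hq2]; linarith
  have hJ2J : (1 - q) * J2 ≤ 1 := by
    rw [hJ2, mul_one_div, div_le_iff₀ hq2]; linarith
  have hs1p : 0 < s1 := by linarith
  have hdp : 0 < d := by linarith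
  have hG0p : 0 < G0 := by linarith
  have hE : δ ^ 2 ≤ δ * G0 := by nlinarith
  set E : ℝ := δ * G0 with hEdef
  have hEp : 0 < E := by rw [hEdef]; positivity
  have hp1n : 0 ≤ p1 := by rw [hp1]; positivity
  -- the remainder
  set θ : ℝ := (p1 + (1 - q) * (d * p0) - w1) / (1 - q) with hθ
  have hθ0 : 0 ≤ θ := div_nonneg (by linarith) hq'.le
  have hθ1 : θ ≤ q * (d ^ 2 * p0 / s1) := by
    rw [hθ, div_le_iff₀ hq']
    linarith
  have hw : w1 = p1 + (1 - q) * (d * p0) - (1 - q) * θ := by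
    rw [hθ]; field_simp; ring
  have hd2' : d ^ 2 ≤ 36 * δ ^ 2 := by nlinarith
  have hdp0 : d ^ 2 * p0 ≤ 144 * E := by
    calc d ^ 2 * p0 ≤ (36 * δ ^ 2) * 4 :=
          mul_le_mul hd2' hp04 hp0 (by positivity)
      _ ≤ 144 * E := by linarith
  have hdp00 : 0 ≤ d ^ 2 * p0 := by positivity
  have hs1θ : s1 * θ ≤ 144 * E := by
    calc s1 * θ ≤ s1 * (q * (d ^ 2 * p0 / s1)) := mul_le_mul_of_nonneg_left hθ1 hs1p.le
      _ = q * (d ^ 2 * p0) := by field_simp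
      _ ≤ 1 * (d ^ 2 * p0) := mul_le_mul_of_nonneg_right hq1.le hdp00
      _ ≤ 144 * E := by linarith
  have hθE : θ ≤ 576 * E := by
    have : 1 / 4 * θ ≤ s1 * θ := mul_le_mul_of_nonneg_right hs1 hθ0
    linarith
  have hd3' : d ≤ 3 := by linarith
  have hdθ : d * θ ≤ 1728 * E := by
    calc d * θ ≤ 3 * θ := mul_le_mul_of_nonneg_right hd3' hθ0
      _ ≤ 1728 * E := by linarith
  have hdθ0 : 0 ≤ d * θ := by positivity
  have hs1θ0 : 0 ≤ s1 * θ := by positivity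
  have he6 : e1 ≤ 6 * G0 := by nlinarith
  have hde : d * e1 ≤ 36 * E := by
    calc d * e1 ≤ (6 * δ) * (6 * G0) := mul_le_mul hd3 he6 he0 (by positivity)
      _ = 36 * E := by rw [hEdef]; ring
  have hde0 : 0 ≤ d * e1 := by positivity
  -- Gamma
  set Γ : ℝ := ((1 - q) * J2 - 1) * (d ^ 2 * p0) - (1 - q) * J2 * (s1 * θ + d * θ) + d * θ +
    (d * e1) * (J - J2) with hΓ
  have hJJ2 : 0 ≤ J - J2 ∧ J - J2 ≤ J := ⟨by linarith, by linarith⟩
  have hqJ2 : 0 ≤ (1 - q) * J2 := by positivity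
  have t1 : -(144 * E) ≤ ((1 - q) * J2 - 1) * (d ^ 2 * p0) := by
    nlinarith [mul_nonneg hqJ2 hdp00]
  have t1' : ((1 - q) * J2 - 1) * (d ^ 2 * p0) ≤ 0 := by
    nlinarith [mul_nonneg (by linarith : 0 ≤ 1 - (1 - q) * J2) hdp00]
  have t2 : (1 - q) * J2 * (s1 * θ + d * θ) ≤ 1872 * E := by
    have : (1 - q) * J2 * (s1 * θ + d * θ) ≤ 1 * (s1 * θ + d * θ) :=
      mul_le_mul_of_nonneg_right hJ2J (by positivity)
    linarith
  have t2' : 0 ≤ (1 - q) * J2 * (s1 * θ + d * θ) := by positivity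
  have t3 : (d * e1) * (J - J2) ≤ 36 * J * E := by
    calc (d * e1) * (J - J2) ≤ (36 * E) * J :=
          mul_le_mul hde hJJ2.2 hJJ2.1 (by positivity)
      _ = 36 * J * E := by ring
  have t3' : 0 ≤ (d * e1) * (J - J2) := mul_nonneg hde0 hJJ2.1
  have hJE : 0 ≤ 36 * J * E := by positivity
  have hΓb : |Γ| ≤ (3744 + 36 * J) * E := by
    rw [abs_le]
    constructor
    · have e : -((3744 + 36 * J) * E) = -(3744 * E) - 36 * J * E := by ring
      rw [hΓ, e]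
      linarith
    · have e : (3744 + 36 * J) * E = 3744 * E + 36 * J * E := by ring
      rw [hΓ, e]
      linarith
  have hΓ1 := (abs_le.1 hΓb).1
  have hΓ2 := (abs_le.1 hΓb).2
  have hk1 := (abs_le.1 hk).1
  have hk2 := (abs_le.1 hk).2
  -- the identity
  have hid : p1 / (1 - q) + k * (s1 * p1 / (2 - q)) -
      (1 + ε) * ((1 - k * d) * ((w1 - e1) / (1 - q)) +
        k * (((s1 + d) * w1 - d * e1) / (2 - q))) -
      (G0 / (1 - q) + δ * (-p0 - eta * (p1 / (1 - q)) +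
      k * (q * (p1 / (1 - q)) - eta * (s1 * p1 / (2 - q))))) =
      (e1 - G0) * J - (d - δ) * p0 + θ + k * (q * (d - δ) * p1 * J) - k * Γ -
        (ε - eta * δ) * (p1 * J + k * (s1 * p1 * J2)) - ε * (d * p0 - θ - e1 * J) -
        ε * k * (-(q * d * p1 * J) + Γ) := by
    rw [hΓ, hw, hp1, hJ, hJ2]
    field_simp
    ring
  -- the bounds
  have c1 : (e1 - G0) * J ≤ 9 * J * E := by
    have : e1 - G0 ≤ 9 * E := by
      rw [hEdef]; linarith
    calc (e1 - G0) * J ≤ (9 * E) * J := mul_le_mul_of_nonneg_right this (by linarith)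
      _ = 9 * J * E := by ring
  have c2 : 0 ≤ (d - δ) * p0 := mul_nonneg (by linarith) hp0
  have c4 : k * (q * (d - δ) * p1 * J) ≤ 36 * S * J * E := by
    have h1 : q * (d - δ) * p1 * J ≤ 9 * E * S * J := by
      have h2 : q * (d - δ) ≤ 9 * E := by
        have : d - δ ≤ 9 * E := by linarith
        nlinarith
      have h3 : 0 ≤ q * (d - δ) := mul_nonneg hq.le (by linarith)
      have h4 : q * (d - δ) * p1 ≤ 9 * E * S := mul_le_mul h2 hp1S hp1n (by positivity)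
      exact mul_le_mul_of_nonneg_right h4 (by linarith)
    have h0 : 0 ≤ q * (d - δ) * p1 * J := by
      have h3 : 0 ≤ q * (d - δ) := mul_nonneg hq.le (by linarith)
      positivity
    calc k * (q * (d - δ) * p1 * J) ≤ 4 * (q * (d - δ) * p1 * J) :=
          mul_le_mul_of_nonneg_right hk2 h0
      _ ≤ 4 * (9 * E * S * J) := mul_le_mul_of_nonneg_left h1 (by norm_num)
      _ = 36 * S * J * E := by ring
  have c5 : -(k * Γ) ≤ 4 * (3744 + 36 * J) * E := by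
    have h1 : |k * Γ| ≤ 4 * ((3744 + 36 * J) * E) := by
      rw [abs_mul]
      exact mul_le_mul hk hΓb (abs_nonneg _) (by norm_num)
    have h2 := (abs_le.1 h1).1
    linarith
  have c6 : -((ε - eta * δ) * (p1 * J + k * (s1 * p1 * J2))) ≤ (S * J + 4 * S * S) * E := by
    have h1 : |p1 * J + k * (s1 * p1 * J2)| ≤ S * J + 4 * S * S := by
      have h2 : |p1 * J| ≤ S * J := by
        rw [abs_of_nonneg (by positivity)]
        exact mul_le_mul_of_nonneg_right hp1S (by linarith)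
      have h3 : |k * (s1 * p1 * J2)| ≤ 4 * (S * S) := by
        rw [abs_mul]
        apply mul_le_mul hk _ (abs_nonneg _) (by norm_num)
        rw [abs_of_nonneg (by positivity)]
        calc s1 * p1 * J2 ≤ s1 * p1 * 1 := mul_le_mul_of_nonneg_left hJ21 (by positivity)
          _ = s1 * p1 := by ring
          _ ≤ S * S := mul_le_mul hs1S hp1S hp1n (by linarith)
      calc |p1 * J + k * (s1 * p1 * J2)| ≤ |p1 * J| + |k * (s1 * p1 * J2)| := abs_add_le _ _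
        _ ≤ S * J + 4 * S * S := by linarith
    have h2 : |(ε - eta * δ) * (p1 * J + k * (s1 * p1 * J2))| ≤ E * (S * J + 4 * S * S) := by
      rw [abs_mul]
      exact mul_le_mul (hε2.trans hE) h1 (abs_nonneg _) hEp.le
    have h3 := (abs_le.1 h2).1
    linarith
  have c7 : -(ε * (d * p0 - θ - e1 * J)) ≤ (576 + 6 * J) * E := by
    have h1 : ε * θ ≤ 576 * E := by
      calc ε * θ ≤ 1 * θ := mul_le_mul_of_nonneg_right (by linarith) hθ0
        _ ≤ 576 * E := by linarith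
    have h2 : ε * e1 ≤ 6 * E := by
      calc ε * e1 ≤ δ * (6 * G0) := mul_le_mul hε1 he6 he0 hδ.le
        _ = 6 * E := by rw [hEdef]; ring
    have h3 : ε * e1 * J ≤ 6 * E * J := mul_le_mul_of_nonneg_right h2 (by linarith)
    have h4 : 0 ≤ ε * (d * p0) := by positivity
    have e : -(ε * (d * p0 - θ - e1 * J)) = -(ε * (d * p0)) + ε * θ + ε * e1 * J := by ring
    rw [e]
    linarith
  have c8 : -(ε * k * (-(q * d * p1 * J) + Γ)) ≤ 4 * (6 * S * J + (3744 + 36 * J)) * E := by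
    have h1 : ε * (q * d * p1 * J) ≤ 6 * S * J * E := by
      have h2 : ε * d ≤ 6 * E := by
        calc ε * d ≤ δ * (6 * δ) := mul_le_mul hε1 hd3 hdp.le hδ.le
          _ = 6 * δ ^ 2 := by ring
          _ ≤ 6 * E := by linarith
      have h3 : ε * d * p1 ≤ 6 * E * S := mul_le_mul h2 hp1S hp1n (by positivity)
      have h4 : q * (ε * d * p1) ≤ 6 * E * S := by
        have : 0 ≤ ε * d * p1 := by positivity
        nlinarith
      calc ε * (q * d * p1 * J) = q * (ε * d * p1) * J := by ring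
        _ ≤ 6 * E * S * J := mul_le_mul_of_nonneg_right h4 (by linarith)
        _ = 6 * S * J * E := by ring
    have h1' : 0 ≤ ε * (q * d * p1 * J) := by positivity
    have h5 : |ε * (-(q * d * p1 * J) + Γ)| ≤ 6 * S * J * E + (3744 + 36 * J) * E := by
      have e : ε * (-(q * d * p1 * J) + Γ) = -(ε * (q * d * p1 * J)) + ε * Γ := by ring
      rw [e]
      calc |-(ε * (q * d * p1 * J)) + ε * Γ| ≤ |-(ε * (q * d * p1 * J))| + |ε * Γ| :=
            abs_add_le _ _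
        _ ≤ 6 * S * J * E + (3744 + 36 * J) * E := by
          rw [abs_neg, abs_of_nonneg h1', abs_mul, abs_of_nonneg hε0]
          have : ε * |Γ| ≤ 1 * ((3744 + 36 * J) * E) :=
            mul_le_mul (by linarith) hΓb (abs_nonneg _) (by norm_num)
          linarith
    have h6 : |k * (ε * (-(q * d * p1 * J) + Γ))| ≤
        4 * (6 * S * J * E + (3744 + 36 * J) * E) := by
      rw [abs_mul]
      exact mul_le_mul hk h5 (abs_nonneg _) (by norm_num)
    have h7 := (abs_le.1 h6).1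
    have e : ε * k * (-(q * d * p1 * J) + Γ) = k * (ε * (-(q * d * p1 * J) + Γ)) := by ring
    rw [e]
    linarith
  have hsum : (9 * J + 576 + 36 * S * J + 4 * (3744 + 36 * J) +
      (S * J + 4 * S * S) + (576 + 6 * J) + 4 * (6 * S * J + (3744 + 36 * J))) * E =
      9 * J * E + 576 * E + 36 * S * J * E + 4 * (3744 + 36 * J) * E + (S * J + 4 * S * S) * E +
      (576 + 6 * J) * E + 4 * (6 * S * J + (3744 + 36 * J)) * E := by ring
  rw [hsum]
  linarith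

/-- the closed form of the integral -/
theorem ta_int (q L k d s1 : ℝ) (hq : 0 < q) (hq1 : q < 1) (hd : 0 < d) (hs1 : 0 < s1) :
    IntervalIntegrable (fun s : ℝ => s ^ (-q) + k * s ^ (1 - q) -
      L * ((1 - k * d) * (s + d) ^ (-q) + k * (s + d) ^ (1 - q))) volume 0 s1 ∧
    ∫ s in (0 : ℝ)..s1, (s ^ (-q) + k * s ^ (1 - q) -
      L * ((1 - k * d) * (s + d) ^ (-q) + k * (s + d) ^ (1 - q))) =
      s1 ^ (1 - q) / (1 - q) + k * (s1 ^ (2 - q) / (2 - q)) -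
      L * ((1 - k * d) * (((s1 + d) ^ (1 - q) - d ^ (1 - q)) / (1 - q)) +
        k * (((s1 + d) ^ (2 - q) - d ^ (2 - q)) / (2 - q))) := by
  have i1 : IntervalIntegrable (fun s : ℝ => s ^ (-q)) volume 0 s1 :=
    intervalIntegral.intervalIntegrable_rpow' (by linarith)
  have i2 : IntervalIntegrable (fun s : ℝ => s ^ (1 - q)) volume 0 s1 :=
    intervalIntegral.intervalIntegrable_rpow' (by linarith)
  have i3 : IntervalIntegrable (fun s : ℝ => (s + d) ^ (-q)) volume 0 s1 := by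
    have h := (intervalIntegral.intervalIntegrable_rpow' (a := 0 + d) (b := s1 + d)
      (r := -q) (by linarith)).comp_add_right d
    simpa using h
  have i4 : IntervalIntegrable (fun s : ℝ => (s + d) ^ (1 - q)) volume 0 s1 := by
    have h := (intervalIntegral.intervalIntegrable_rpow' (a := 0 + d) (b := s1 + d)
      (r := 1 - q) (by linarith)).comp_add_right d
    simpa using h
  have v1 : ∫ s in (0 : ℝ)..s1, s ^ (-q) = s1 ^ (1 - q) / (1 - q) := by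
    rw [integral_rpow (Or.inl (by linarith))]
    have e : -q + 1 = 1 - q := by ring
    rw [e, Real.zero_rpow (by linarith), sub_zero]
  have v2 : ∫ s in (0 : ℝ)..s1, s ^ (1 - q) = s1 ^ (2 - q) / (2 - q) := by
    rw [integral_rpow (Or.inl (by linarith))]
    have e : 1 - q + 1 = 2 - q := by ring
    rw [e, Real.zero_rpow (by linarith), sub_zero]
  have v3 : ∫ s in (0 : ℝ)..s1, (s + d) ^ (-q) =
      ((s1 + d) ^ (1 - q) - d ^ (1 - q)) / (1 - q) := by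
    rw [intervalIntegral.integral_comp_add_right (fun x : ℝ => x ^ (-q)) d,
      integral_rpow (Or.inl (by linarith))]
    have e : -q + 1 = 1 - q := by ring
    rw [e, zero_add]
  have v4 : ∫ s in (0 : ℝ)..s1, (s + d) ^ (1 - q) =
      ((s1 + d) ^ (2 - q) - d ^ (2 - q)) / (2 - q) := by
    rw [intervalIntegral.integral_comp_add_right (fun x : ℝ => x ^ (1 - q)) d,
      integral_rpow (Or.inl (by linarith))]
    have e : 1 - q + 1 = 2 - q := by ring
    rw [e, zero_add]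
  have j1 := i1.add (i2.const_mul k)
  have j2 := ((i3.const_mul (1 - k * d)).add (i4.const_mul k)).const_mul L
  refine ⟨j1.sub j2, ?_⟩
  rw [intervalIntegral.integral_sub j1 j2, intervalIntegral.integral_add i1 (i2.const_mul k),
    intervalIntegral.integral_const_mul, intervalIntegral.integral_const_mul,
    intervalIntegral.integral_add (i3.const_mul (1 - k * d)) (i4.const_mul k),
    intervalIntegral.integral_const_mul, intervalIntegral.integral_const_mul, v1, v2, v3, v4]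

theorem tau_le (q eta : ℝ) (hq : 0 < q) (hq1 : q < 1) (he : 0 < eta) (heq : eta < q) :
    ∃ c : ℝ, 0 < c ∧ ∀ δ : ℝ, 0 < δ → δ ≤ 1 / 2 → ∀ k : ℝ, |k| ≤ 4 → ∀ X : ℝ,
      (∀ s : ℝ, 0 < s → 0 ≤ 1 + k * s → Hs q eta s k ≤ X) →
      tau q eta (1 + δ) (δ * (1 + δ) ^ 4) k ≤
        ENNReal.ofReal (δ ^ (1 - q) / (1 - q) + δ * X + c * δ ^ (2 - q)) := by
  have hq' : 0 < 1 - q := by linarith
  have hq2 : 0 < 2 - q := by linarith
  set S : ℝ := 12 * (q / eta) with hS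
  have hR : 1 < q / eta := by rw [lt_div_iff₀ he]; linarith
  have hS1 : 1 ≤ S := by rw [hS]; linarith
  refine ⟨9 * (1 / (1 - q)) + 576 + 36 * S * (1 / (1 - q)) + 4 * (3744 + 36 * (1 / (1 - q))) +
      (S * (1 / (1 - q)) + 4 * S * S) + (576 + 6 * (1 / (1 - q))) +
      4 * (6 * S * (1 / (1 - q)) + (3744 + 36 * (1 / (1 - q)))), by positivity, ?_⟩
  intro δ hδ hδ1 k hk X hX
  have h1δ : (0 : ℝ) < 1 + δ := by linarith
  obtain ⟨f1, f2, f3⟩ := ta_pow4 δ hδ.le hδ1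
  set d : ℝ := δ * (1 + δ) ^ 4 with hd
  have hdp : 0 < d := by rw [hd]; positivity
  have hd1 : δ ≤ d := by rw [hd]; nlinarith
  have hd2 : d ≤ δ + 9 * δ ^ 2 := by rw [hd]; nlinarith
  have hd3 : d ≤ 6 * δ := by rw [hd]; nlinarith
  -- the exponent rho
  set ρ : ℝ := eta / q with hρ
  have hρ0 : 0 < ρ := div_pos he hq
  have hρ1 : ρ < 1 := by rw [hρ, div_lt_one hq]; exact heq
  set Λ : ℝ := (1 + δ) ^ ρ with hΛ
  obtain ⟨g1, g2⟩ := ta_bern ρ δ hρ0.le hρ1.le hδ.le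
  have hΛ1 : Λ - 1 ≤ ρ * δ := by linarith
  have hΛ2 : ρ * δ / 2 ≤ Λ - 1 := by
    have h5 : 0 < 1 + (1 - ρ) * δ := by nlinarith
    have h6 : 1 + ρ * δ / 2 ≤ (1 + δ) / (1 + (1 - ρ) * δ) := by
      rw [le_div_iff₀ h5]
      nlinarith [mul_pos hρ0 hδ]
    linarith
  have hΛpos : 0 < Λ - 1 := by nlinarith [mul_pos hρ0 hδ]
  set s0 : ℝ := d / (Λ - 1) with hs0
  have hρR : ρ * (q / eta) = 1 := by rw [hρ]; field_simp
  have hs0R : q / eta ≤ s0 := by
    rw [hs0, le_div_iff₀ hΛpos]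
    calc q / eta * (Λ - 1) ≤ q / eta * (ρ * δ) :=
          mul_le_mul_of_nonneg_left hΛ1 (by linarith)
      _ = (ρ * (q / eta)) * δ := by ring
      _ = δ := by rw [hρR, one_mul]
      _ ≤ d := hd1
  have hs0S : s0 ≤ S := by
    rw [hs0, div_le_iff₀ hΛpos]
    calc d ≤ 6 * δ := hd3
      _ = 12 * (ρ * (q / eta)) * (δ / 2) := by rw [hρR]; ring
      _ = S * (ρ * δ / 2) := by rw [hS]; ring
      _ ≤ S * (Λ - 1) := mul_le_mul_of_nonneg_left hΛ2 (by linarith)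
  have hs0p : 0 < s0 := by linarith
  -- the end point
  obtain ⟨s1, hs14, hs1S, hks1, hs1s0, hzero⟩ : ∃ s1 : ℝ, 1 / 4 ≤ s1 ∧ s1 ≤ S ∧
      0 ≤ 1 + k * s1 ∧ s1 ≤ s0 ∧ ∀ s, s1 < s → s0 ≤ s ∨ 1 + k * s ≤ 0 := by
    rcases le_or_gt 0 k with h0 | h0
    · refine ⟨s0, by linarith, hs0S, by positivity, le_rfl, fun s hs => Or.inl hs.le⟩
    · have hkn : 0 < -k := by linarith
      have hk4 : -k ≤ 4 := by
        have := (abs_le.1 hk).1
        linarith
      have hinv : 1 / 4 ≤ 1 / (-k) := one_div_le_one_div_of_le hkn hk4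
      refine ⟨min s0 (1 / (-k)), le_min (by linarith) hinv, (min_le_left _ _).trans hs0S, ?_,
        min_le_left _ _, ?_⟩
      · have h2 : min s0 (1 / (-k)) ≤ 1 / (-k) := min_le_right _ _
        rw [le_div_iff₀ hkn] at h2
        linarith
      · intro s hs
        rcases min_lt_iff.1 hs with h2 | h2
        · exact Or.inl h2.le
        · right
          rw [div_lt_iff₀ hkn] at h2
          linarith
  have hs1p : 0 < s1 := by linarith
  -- the function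
  set L : ℝ := (1 + δ) ^ eta with hL
  set G : ℝ → ℝ := fun s => s ^ (-q) + k * s ^ (1 - q) -
      L * ((1 - k * d) * (s + d) ^ (-q) + k * (s + d) ^ (1 - q)) with hG
  have hGeq : ∀ s : ℝ, 0 < s → (s ^ (-q) - L * (s + d) ^ (-q)) * (1 + k * s) = G s := by
    intro s hs
    have hsd : 0 < s + d := by linarith
    have r1 : s ^ (1 - q) = s * s ^ (-q) := by
      rw [sub_eq_add_neg, Real.rpow_add hs, Real.rpow_one]
    have r2 : (s + d) ^ (1 - q) = (s + d) * (s + d) ^ (-q) := by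
      rw [sub_eq_add_neg, Real.rpow_add hsd, Real.rpow_one]
    show (s ^ (-q) - L * (s + d) ^ (-q)) * (1 + k * s) = s ^ (-q) + k * s ^ (1 - q) -
      L * ((1 - k * d) * (s + d) ^ (-q) + k * (s + d) ^ (1 - q))
    rw [r1, r2]
    ring
  obtain ⟨hint, hval⟩ := ta_int q L k d s1 hq hq1 hdp hs1p
  have hnn : ∀ s : ℝ, 0 < s → s ≤ s1 → 0 ≤ s ^ (-q) - L * (s + d) ^ (-q) := by
    intro s hs hss
    refine (ta_sgn q eta δ s d hq hδ hdp hs).1 ?_
    have h2 : s ≤ s0 := hss.trans hs1s0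
    rw [hs0, le_div_iff₀ hΛpos] at h2
    show Λ * s ≤ s + d
    linarith
  have hknn : ∀ s : ℝ, 0 < s → s ≤ s1 → 0 ≤ 1 + k * s := by
    intro s hs hss
    rcases le_or_gt 0 k with h0 | h0
    · positivity
    · nlinarith
  have htau : tau q eta (1 + δ) d k ≤ ENNReal.ofReal (∫ s in (0 : ℝ)..s1, G s) := by
    have m1 : tau q eta (1 + δ) d k ≤ ∫⁻ s in Ioi (0 : ℝ),
        (Ioc (0 : ℝ) s1).indicator (fun s => ENNReal.ofReal (G s)) s := by
      unfold tau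
      refine setLIntegral_mono' measurableSet_Ioi ?_
      intro s hs
      have hs' : 0 < s := hs
      rcases le_or_gt s s1 with h2 | h2
      · rw [indicator_of_mem (show s ∈ Ioc (0 : ℝ) s1 from ⟨hs', h2⟩), ← hGeq s hs',
          ENNReal.ofReal_mul (hnn s hs' h2)]
      · rcases hzero s h2 with h3 | h3
        · have h4 : s ^ (-q) - (1 + δ) ^ eta * (s + d) ^ (-q) ≤ 0 :=
            ta_sign q eta δ s d hq he hδ hdp hs' h3
          rw [ENNReal.ofReal_of_nonpos h4, zero_mul]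
          exact bot_le
        · rw [ENNReal.ofReal_of_nonpos h3, mul_zero]
          exact bot_le
    refine m1.trans (le_of_eq ?_)
    rw [lintegral_indicator measurableSet_Ioc, Measure.restrict_restrict measurableSet_Ioc]
    have hset : Ioc (0 : ℝ) s1 ∩ Ioi 0 = Ioc 0 s1 := by
      ext s
      simp only [mem_inter_iff, mem_Ioc, mem_Ioi]
      constructor
      · rintro ⟨h2, -⟩; exact h2
      · intro h2; exact ⟨h2, h2.1⟩
    rw [hset, intervalIntegral.integral_of_le hs1p.le]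
    rw [ofReal_integral_eq_lintegral_ofReal]
    · exact (intervalIntegrable_iff_integrableOn_Ioc_of_le hs1p.le).1 hint
    · refine (ae_restrict_iff' measurableSet_Ioc).2 (Filter.Eventually.of_forall ?_)
      intro s hs
      show 0 ≤ G s
      rw [← hGeq s hs.1]
      exact mul_nonneg (hnn s hs.1 hs.2) (hknn s hs.1 hs.2)
  refine htau.trans (ENNReal.ofReal_le_ofReal ?_)
  rw [hval]
  -- powers
  have e2 : δ ^ (2 - q) = δ * δ ^ (1 - q) := by
    have e : 2 - q = 1 + (1 - q) := by ring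
    rw [e, Real.rpow_add hδ, Real.rpow_one]
  have hp1 : s1 ^ (1 - q) = s1 * s1 ^ (-q) := by
    rw [sub_eq_add_neg, Real.rpow_add hs1p, Real.rpow_one]
  have hp2 : s1 ^ (2 - q) = s1 * s1 ^ (1 - q) := by
    have e : 2 - q = 1 + (1 - q) := by ring
    rw [e, Real.rpow_add hs1p, Real.rpow_one]
  have hs1d : 0 < s1 + d := by linarith
  have hw2 : (s1 + d) ^ (2 - q) = (s1 + d) * (s1 + d) ^ (1 - q) := by
    have e : 2 - q = 1 + (1 - q) := by ring
    rw [e, Real.rpow_add hs1d, Real.rpow_one]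
  have hd2q : d ^ (2 - q) = d * d ^ (1 - q) := by
    have e : 2 - q = 1 + (1 - q) := by ring
    rw [e, Real.rpow_add hdp, Real.rpow_one]
  have hp0 : 0 < s1 ^ (-q) := Real.rpow_pos_of_pos hs1p _
  have hp04 : s1 ^ (-q) ≤ 4 := by
    calc s1 ^ (-q) ≤ (1 / 4 : ℝ) ^ (-q) :=
          Real.rpow_le_rpow_of_nonpos (by norm_num) hs14 (by linarith)
      _ = 4 ^ q := by
          rw [one_div, Real.inv_rpow (by norm_num), Real.rpow_neg (by norm_num), inv_inv]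
      _ ≤ 4 ^ (1 : ℝ) := Real.rpow_le_rpow_of_exponent_le (by norm_num) hq1.le
      _ = 4 := by rw [Real.rpow_one]
  have hp1S : s1 ^ (1 - q) ≤ S := by
    calc s1 ^ (1 - q) ≤ S ^ (1 - q) := Real.rpow_le_rpow hs1p.le hs1S hq'.le
      _ ≤ S ^ (1 : ℝ) := Real.rpow_le_rpow_of_exponent_le hS1 (by linarith)
      _ = S := by rw [Real.rpow_one]
  have hx : 0 ≤ d / s1 := by positivity
  have hww : (s1 + d) ^ (1 - q) = s1 ^ (1 - q) * (1 + d / s1) ^ (1 - q) := by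
    rw [← Real.mul_rpow hs1p.le (by positivity)]
    congr 1
    field_simp
  have hp1p : 0 < s1 ^ (1 - q) := Real.rpow_pos_of_pos hs1p _
  have hw1 : (s1 + d) ^ (1 - q) ≤ s1 ^ (1 - q) + (1 - q) * (d * s1 ^ (-q)) := by
    have h2 := (ta_bern (1 - q) (d / s1) hq'.le (by linarith) hx).1
    rw [hww]
    calc s1 ^ (1 - q) * (1 + d / s1) ^ (1 - q) ≤ s1 ^ (1 - q) * (1 + (1 - q) * (d / s1)) :=
          mul_le_mul_of_nonneg_left h2 hp1p.le
      _ = s1 ^ (1 - q) + (1 - q) * (d * s1 ^ (-q)) := by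
          rw [hp1]; field_simp
  have hw1' : s1 ^ (1 - q) + (1 - q) * (d * s1 ^ (-q)) -
      (1 - q) * q * (d ^ 2 * s1 ^ (-q) / s1) ≤ (s1 + d) ^ (1 - q) := by
    have h2 := ta_quad (1 - q) (d / s1) hq'.le (by linarith) hx
    rw [hww]
    calc s1 ^ (1 - q) + (1 - q) * (d * s1 ^ (-q)) - (1 - q) * q * (d ^ 2 * s1 ^ (-q) / s1) =
          s1 ^ (1 - q) * (1 + (1 - q) * (d / s1) - (1 - q) * (1 - (1 - q)) * (d / s1) ^ 2) := by
          rw [hp1]; field_simp; ring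
      _ ≤ s1 ^ (1 - q) * (1 + d / s1) ^ (1 - q) := mul_le_mul_of_nonneg_left h2 hp1p.le
  have he1 : d ^ (1 - q) ≤ δ ^ (1 - q) * (1 + 9 * δ) := by
    rw [hd, Real.mul_rpow hδ.le (by positivity)]
    apply mul_le_mul_of_nonneg_left _ (Real.rpow_nonneg hδ.le _)
    calc ((1 + δ) ^ 4) ^ (1 - q) ≤ ((1 + δ) ^ 4) ^ (1 : ℝ) :=
          Real.rpow_le_rpow_of_exponent_le f1 (by linarith)
      _ = (1 + δ) ^ 4 := by rw [Real.rpow_one]
      _ ≤ 1 + 9 * δ := f2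
  have hG0 : δ ≤ δ ^ (1 - q) := by
    calc δ = δ ^ (1 : ℝ) := by rw [Real.rpow_one]
      _ ≤ δ ^ (1 - q) := Real.rpow_le_rpow_of_exponent_ge hδ (by linarith) (by linarith)
  obtain ⟨b1, b2⟩ := ta_bern eta δ he.le (by linarith) hδ.le
  have b3 := ta_quad eta δ he.le (by linarith) hδ.le
  have hL1 : 1 ≤ L := Real.one_le_rpow (by linarith) he.le
  have hε0 : 0 ≤ L - 1 := by linarith
  have hε1 : L - 1 ≤ δ := by nlinarith
  have hε2 : |L - 1 - eta * δ| ≤ δ ^ 2 := by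
    rw [abs_le]
    constructor
    · have h2 : eta * (1 - eta) * δ ^ 2 ≤ 1 * δ ^ 2 := by
        apply mul_le_mul_of_nonneg_right _ (by positivity)
        nlinarith
      linarith
    · have : 0 ≤ δ ^ 2 := by positivity
      linarith
  have hcore := ta_core q eta δ d s1 k (L - 1) (s1 ^ (-q)) (s1 ^ (1 - q)) ((s1 + d) ^ (1 - q))
    (d ^ (1 - q)) (δ ^ (1 - q)) S hq hq1 hδ hδ1 hk hs14 hs1S hS1 hd1 hd2 hd3 hε0 hε1 hε2
    hp0.le hp04 hp1 hp1S hw1 hw1' (Real.rpow_nonneg hdp.le _) he1 hG0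
  have hXs := hX s1 hs1p hks1
  unfold Hs at hXs
  rw [hp2, hw2, hd2q, e2]
  rw [hp2] at hXs
  have hLe : 1 + (L - 1) = L := by ring
  rw [hLe] at hcore
  have hXδ := mul_le_mul_of_nonneg_left hXs hδ.le
  linarith

end H78.CN
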