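import Pool.Agent.H62.CJ.P2
import Pool.Agent.H78.CN.Ta
import Pool.Agent.H78.CN.Hc

/-!
# CN-TI: the cost at height y in terms of the moments

PROOF.  `c` from `tau_le`.  `p = 2 - q`, `R = q/eta > 1`, `X0 = R^(-q)/(1-q) > 0`, `m = 1 + q/(2-q) * R * 4`.
`δ0 > 0` with `δ0 <= 1/2` and `δ0^q R^(-q) m <= 1` (e.g. `δ0 = min (1/2) ((R^q/m)^(1/q))`).
Fix `F, δ, y`; for real `x` put `D = ‖deriv F (pt x y)‖`, `k = (AA F (pt x y)).im`; `|k| <= ‖AA‖ <= 4` (`AA_le`),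
`k >= -1 - 4 y >= -1 - e` (`AA_im`).  `Hs_le` and `tau_le` with `X = X0 * QQ q eta c0 bb k`:
`tau <= ofReal (T x)`, `T x = δ^(1-q)/(1-q) + δ X0 QQ(k) + c δ^(2-q)`.
Since `QQ(k) >= -m` and `δ X0 m <= δ^(1-q)/(1-q)` (`δ^q R^(-q) m <= 1`), `T x >= 0`.
So `∫⁻ ofReal (D^p) * tau <= ∫⁻ ofReal (D^p T) = ofReal (∫ D^p T)` (continuous in `x`: `P2_cont`, `P2_ne`; `ofReal_integral_eq_lintegral_ofReal`;
`Ioo` and `Ioc` agree a.e.), and `∫ D^p T = (δ^(1-q)/(1-q) + c δ^(2-q)) PP + δ X0 (-PP + q/(2-q) R B1 + c0 ∫ D^p (k-bb)^2)`,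
`∫ D^p (k - bb)^2 = ∫ D^p k^2 - 2 bb B1 + bb^2 PP <= B2 - 2 bb B1 + bb^2 PP` (`k^2 <= ‖AA‖^2`).
`EE >= 0` because `EE >= ∫ D^p T >= 0`.
-/

set_option autoImplicit false

open Set Metric MeasureTheory H62.CJ

namespace H78.CN

/-- the bound for the cost at height `y` -/
noncomputable def EE (F : ℂ → ℂ) (q eta c0 bb c δ y : ℝ) : ℝ :=
  (δ ^ (1 - q) / (1 - q) + c * δ ^ (2 - q)) * PP F (2 - q) y +
    δ * ((q / eta) ^ (-q) / (1 - q)) *
      (-PP F (2 - q) y + q / (2 - q) * (q / eta) * B1 F (2 - q) y +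
        c0 * (B2 F (2 - q) y - 2 * bb * B1 F (2 - q) y + bb ^ 2 * PP F (2 - q) y))

theorem ti_AA_cont (F : ℂ → ℂ) (M : ℝ) (hF : Cls F M) (y : ℝ) (hy : 0 < y) :
    Continuous fun x : ℝ => AA F (pt x y) := by
  have h1 := P2_cont F M hF y hy
  have h2 : Continuous fun x : ℝ => deriv (deriv F) (pt x y) := by
    have h1 : ContinuousOn (deriv (deriv F)) HP := (P1_d2 F M hF).continuousOn
    have h2 : Continuous fun x : ℝ => pt x y := by
      simp only [pt_eq]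
      fun_prop
    exact h1.comp_continuous h2 fun x => hy
  unfold AA
  simp only [pt_im]
  exact (continuous_const.mul h2).div h1 fun x => P2_ne F M hF x y hy

theorem ti_delta (q R m : ℝ) (hq : 0 < q) (hR : 0 < R) (hm : 0 < m) :
    ∃ δ0 : ℝ, 0 < δ0 ∧ δ0 ≤ 1 / 2 ∧ ∀ δ : ℝ, 0 < δ → δ ≤ δ0 → δ ^ q * R ^ (-q) * m ≤ 1 := by
  have hRq : 0 < R ^ q := Real.rpow_pos_of_pos hR q
  refine ⟨min (1 / 2) ((R ^ q / m) ^ (1 / q)), ?_, min_le_left _ _, ?_⟩
  · exact lt_min (by norm_num) (Real.rpow_pos_of_pos (div_pos hRq hm) _)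
  · intro δ hδ hδ0
    have h1 : δ ≤ (R ^ q / m) ^ (1 / q) := hδ0.trans (min_le_right _ _)
    have h2 : δ ^ q ≤ ((R ^ q / m) ^ (1 / q)) ^ q := Real.rpow_le_rpow hδ.le h1 hq.le
    rw [← Real.rpow_mul (div_pos hRq hm).le, one_div_mul_cancel hq.ne', Real.rpow_one] at h2
    rw [Real.rpow_neg hR.le]
    rw [le_div_iff₀ hm] at h2
    have h3 : δ ^ q * (R ^ q)⁻¹ * m = δ ^ q * m / R ^ q := by
      field_simp
    rw [h3, div_le_one hRq]
    exact h2

theorem tau_int (q eta e c0 bb : ℝ) (hq : 0 < q) (hq1 : q < 1) (he : 0 < eta) (heq : eta < q)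
    (hc0 : 0 ≤ c0)
    (hc : ∀ a : ℝ, 1 ≤ a → a ≤ q / eta * (1 + e) →
      q * (1 - q) * ((1 + a) * Real.log a - 2 * (a - 1)) ≤ c0 * (a / (q / eta) + bb) ^ 2) :
    ∃ c : ℝ, 0 < c ∧ ∃ δ0 : ℝ, 0 < δ0 ∧ δ0 ≤ 1 / 2 ∧ ∀ (F : ℂ → ℂ) (M : ℝ), Cls F M →
      ∀ δ : ℝ, 0 < δ → δ ≤ δ0 → ∀ y : ℝ, 0 < y → y ≤ 1 / 2 → 4 * y ≤ e →
        0 ≤ EE F q eta c0 bb c δ y ∧
        ∫⁻ x in Ioo 0 (2 * Real.pi), ENNReal.ofReal (‖deriv F (pt x y)‖ ^ (2 - q)) *
            tau q eta (1 + δ) (δ * (1 + δ) ^ 4) (AA F (pt x y)).im ≤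
          ENNReal.ofReal (EE F q eta c0 bb c δ y) := by
  obtain ⟨c, hcp, htau⟩ := tau_le q eta hq hq1 he heq
  have hR : 0 < q / eta := div_pos hq he
  have hq' : 0 < 1 - q := by linarith
  have hq2 : 0 < 2 - q := by linarith
  have hm : 0 < 1 + q / (2 - q) * (q / eta) * 4 := by positivity
  obtain ⟨δ0, hδ0, hδ02, hδm⟩ := ti_delta q (q / eta) (1 + q / (2 - q) * (q / eta) * 4) hq hR hm
  refine ⟨c, hcp, δ0, hδ0, hδ02, ?_⟩
  intro F M hF δ hδ hδ1 y hy hy2 hye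
  have hRq : 0 < (q / eta) ^ (-q) := Real.rpow_pos_of_pos hR _
  set X0 : ℝ := (q / eta) ^ (-q) / (1 - q) with hX0
  have hX0p : 0 < X0 := div_pos hRq hq'
  set T : ℝ → ℝ := fun x => δ ^ (1 - q) / (1 - q) +
    δ * (X0 * QQ q eta c0 bb (AA F (pt x y)).im) + c * δ ^ (2 - q) with hT
  have hk4 : ∀ x : ℝ, |(AA F (pt x y)).im| ≤ 4 := fun x =>
    (Complex.abs_im_le_norm _).trans (AA_le F M hF x y hy hy2)
  have hδq : 0 < δ ^ (1 - q) := Real.rpow_pos_of_pos hδ _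
  have hδ2q : 0 < δ ^ (2 - q) := Real.rpow_pos_of_pos hδ _
  have hδe : δ = δ ^ q * δ ^ (1 - q) := by
    rw [← Real.rpow_add hδ]
    have : q + (1 - q) = 1 := by ring
    rw [this, Real.rpow_one]
  -- T is nonnegative
  have hT0 : ∀ x, 0 ≤ T x := by
    intro x
    have h1 := (abs_le.1 (hk4 x)).1
    have h2 : -(1 + q / (2 - q) * (q / eta) * 4) ≤ QQ q eta c0 bb (AA F (pt x y)).im := by
      unfold QQ
      have h3 : 0 ≤ c0 * ((AA F (pt x y)).im - bb) ^ 2 := mul_nonneg hc0 (sq_nonneg _)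
      have h4 : 0 ≤ q / (2 - q) * (q / eta) := by positivity
      nlinarith
    have h3 : δ * X0 * (1 + q / (2 - q) * (q / eta) * 4) ≤ δ ^ (1 - q) / (1 - q) := by
      have h4 := hδm δ hδ hδ1
      have e1 : δ * X0 * (1 + q / (2 - q) * (q / eta) * 4) =
          (δ ^ q * (q / eta) ^ (-q) * (1 + q / (2 - q) * (q / eta) * 4)) *
            (δ ^ (1 - q) / (1 - q)) := by
        rw [hX0]
        calc δ * ((q / eta) ^ (-q) / (1 - q)) * (1 + q / (2 - q) * (q / eta) * 4)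
            = (δ ^ q * δ ^ (1 - q)) * ((q / eta) ^ (-q) / (1 - q)) *
              (1 + q / (2 - q) * (q / eta) * 4) := by rw [← hδe]
          _ = _ := by ring
      rw [e1]
      have h5 : 0 ≤ δ ^ (1 - q) / (1 - q) := by positivity
      nlinarith
    have h4 : δ * X0 * (-(1 + q / (2 - q) * (q / eta) * 4)) ≤
        δ * X0 * QQ q eta c0 bb (AA F (pt x y)).im :=
      mul_le_mul_of_nonneg_left h2 (by positivity)
    have h5 : 0 ≤ c * δ ^ (2 - q) := by positivity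
    change 0 ≤ δ ^ (1 - q) / (1 - q) +
      δ * (X0 * QQ q eta c0 bb (AA F (pt x y)).im) + c * δ ^ (2 - q)
    rw [← mul_assoc δ X0]
    linarith
  -- pointwise bound for tau
  have htauT : ∀ x, tau q eta (1 + δ) (δ * (1 + δ) ^ 4) (AA F (pt x y)).im ≤
      ENNReal.ofReal (T x) := by
    intro x
    refine htau δ hδ (hδ1.trans hδ02) _ (hk4 x) _ ?_
    intro s hs hks
    have hk1 : -1 - e ≤ (AA F (pt x y)).im := by
      have := AA_im F M hF x y hy hy2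
      linarith
    exact Hs_le q eta e c0 bb hq hq1 he heq hc0 hc _ s hk1 hs hks
  -- continuity
  have cD : Continuous fun x : ℝ => ‖deriv F (pt x y)‖ ^ (2 - q) :=
    (P2_cont F M hF y hy).norm.rpow_const fun x =>
      Or.inl (norm_ne_zero_iff.2 (P2_ne F M hF x y hy))
  have cA := ti_AA_cont F M hF y hy
  have ck : Continuous fun x : ℝ => (AA F (pt x y)).im := Complex.continuous_im.comp cA
  have cT : Continuous T := by
    rw [hT]
    unfold QQ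
    fun_prop
  have hD0 : ∀ x : ℝ, 0 ≤ ‖deriv F (pt x y)‖ ^ (2 - q) := fun x =>
    Real.rpow_nonneg (norm_nonneg _) _
  have hpi : (0 : ℝ) ≤ 2 * Real.pi := by positivity
  -- the real integral
  have hI0 : 0 ≤ ∫ x in (0 : ℝ)..(2 * Real.pi), ‖deriv F (pt x y)‖ ^ (2 - q) * T x :=
    intervalIntegral.integral_nonneg hpi fun x _ => mul_nonneg (hD0 x) (hT0 x)
  have i0 : IntervalIntegrable (fun x : ℝ => ‖deriv F (pt x y)‖ ^ (2 - q)) volume 0
      (2 * Real.pi) := cD.intervalIntegrable _ _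
  have i1 : IntervalIntegrable (fun x : ℝ => ‖deriv F (pt x y)‖ ^ (2 - q) *
      (AA F (pt x y)).im) volume 0 (2 * Real.pi) := (cD.mul ck).intervalIntegrable _ _
  have i2 : IntervalIntegrable (fun x : ℝ => ‖deriv F (pt x y)‖ ^ (2 - q) *
      ‖AA F (pt x y)‖ ^ 2) volume 0 (2 * Real.pi) :=
    (cD.mul (cA.norm.pow 2)).intervalIntegrable _ _
  have hI1 : ∫ x in (0 : ℝ)..(2 * Real.pi), ‖deriv F (pt x y)‖ ^ (2 - q) * T x ≤
      EE F q eta c0 bb c δ y := by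
    have h1 : ∫ x in (0 : ℝ)..(2 * Real.pi), ‖deriv F (pt x y)‖ ^ (2 - q) * T x ≤
        ∫ x in (0 : ℝ)..(2 * Real.pi),
          ((δ ^ (1 - q) / (1 - q) + c * δ ^ (2 - q) + δ * X0 * (-1 + c0 * bb ^ 2)) *
              ‖deriv F (pt x y)‖ ^ (2 - q) +
            δ * X0 * (q / (2 - q) * (q / eta) - 2 * c0 * bb) *
              (‖deriv F (pt x y)‖ ^ (2 - q) * (AA F (pt x y)).im) +
            δ * X0 * c0 * (‖deriv F (pt x y)‖ ^ (2 - q) * ‖AA F (pt x y)‖ ^ 2)) := by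
      refine intervalIntegral.integral_mono_on hpi ((cD.mul cT).intervalIntegrable _ _)
        (((i0.const_mul _).add (i1.const_mul _)).add (i2.const_mul _)) ?_
      intro x _
      have h2 : (AA F (pt x y)).im ^ 2 ≤ ‖AA F (pt x y)‖ ^ 2 := by
        rw [← sq_abs (AA F (pt x y)).im]
        exact pow_le_pow_left₀ (abs_nonneg _) (Complex.abs_im_le_norm _) 2
      have h3 : 0 ≤ δ * X0 * c0 * (‖deriv F (pt x y)‖ ^ (2 - q)) :=
        mul_nonneg (by positivity) (hD0 x)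
      have h4 := mul_le_mul_of_nonneg_left h2 h3
      have e1 : ‖deriv F (pt x y)‖ ^ (2 - q) * T x =
          (δ ^ (1 - q) / (1 - q) + c * δ ^ (2 - q) + δ * X0 * (-1 + c0 * bb ^ 2)) *
              ‖deriv F (pt x y)‖ ^ (2 - q) +
            δ * X0 * (q / (2 - q) * (q / eta) - 2 * c0 * bb) *
              (‖deriv F (pt x y)‖ ^ (2 - q) * (AA F (pt x y)).im) +
            δ * X0 * c0 * (‖deriv F (pt x y)‖ ^ (2 - q)) * (AA F (pt x y)).im ^ 2 := by
        rw [hT]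
        unfold QQ
        ring
      rw [e1]
      have e2 : δ * X0 * c0 * (‖deriv F (pt x y)‖ ^ (2 - q) * ‖AA F (pt x y)‖ ^ 2) =
          δ * X0 * c0 * (‖deriv F (pt x y)‖ ^ (2 - q)) * ‖AA F (pt x y)‖ ^ 2 := by ring
      rw [e2]
      linarith
    refine h1.trans (le_of_eq ?_)
    rw [intervalIntegral.integral_add ((i0.const_mul _).add (i1.const_mul _)) (i2.const_mul _),
      intervalIntegral.integral_add (i0.const_mul _) (i1.const_mul _),
      intervalIntegral.integral_const_mul, intervalIntegral.integral_const_mul,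
      intervalIntegral.integral_const_mul]
    unfold EE PP B1 B2
    rw [← hX0]
    ring
  refine ⟨hI0.trans hI1, ?_⟩
  have hint : IntegrableOn (fun x : ℝ => ‖deriv F (pt x y)‖ ^ (2 - q) * T x)
      (Ioo 0 (2 * Real.pi)) :=
    ((cD.mul cT).integrableOn_Icc (a := 0) (b := 2 * Real.pi)).mono_set Ioo_subset_Icc_self
  calc ∫⁻ x in Ioo 0 (2 * Real.pi), ENNReal.ofReal (‖deriv F (pt x y)‖ ^ (2 - q)) *
            tau q eta (1 + δ) (δ * (1 + δ) ^ 4) (AA F (pt x y)).im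
      ≤ ∫⁻ x in Ioo 0 (2 * Real.pi), ENNReal.ofReal (‖deriv F (pt x y)‖ ^ (2 - q) * T x) := by
        refine lintegral_mono fun x => ?_
        rw [ENNReal.ofReal_mul (hD0 x)]
        exact mul_le_mul_right (htauT x) _
    _ = ENNReal.ofReal (∫ x in Ioo 0 (2 * Real.pi), ‖deriv F (pt x y)‖ ^ (2 - q) * T x) := by
        rw [ofReal_integral_eq_lintegral_ofReal hint]
        exact Filter.Eventually.of_forall fun x => mul_nonneg (hD0 x) (hT0 x)
    _ ≤ ENNReal.ofReal (EE F q eta c0 bb c δ y) := by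
        refine ENNReal.ofReal_le_ofReal ?_
        rw [← integral_Ioc_eq_integral_Ioo, ← intervalIntegral.integral_of_le hpi]
        exact hI1

end H78.CN
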