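import Pool.Agent.H78.CN.St
import Pool.Agent.H78.CN.Lo
import Pool.Agent.H78.CN.Co
import Pool.Agent.H78.CN.Bd
import Pool.Agent.H78.CN.Mo
import Pool.Agent.H78.CN.Ti

/-!
# CN-AS: the inequality with the parameter delta

PROOF.  `c, δ0` from `tau_int`, `CB` from `bdry`.  Fix `F`, `δ <= δ0`, `lam = 1 + δ` (`lam b <= 1/2`).
`lower` and `step3`: `ofReal low * II F q eta b <= ofReal CB + ∫⁻_{y ∈ Ioo 0 b} ofReal (y^(eta-1)) * (cost integral)`,
`low = lam^(eta-1) (lam^4)^(-q) ((lam-1)^(1-q)/(1-q))`, `lam - 1 = δ`.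
`cost` and `tau_int`: the second term is at most `∫⁻_{Ioo 0 b} ofReal (y^(eta-1)) ofReal (y^(1-q)) ofReal (EE ..)
= ∫⁻_{Ioo 0 b} ofReal (y^(eta-q) EE ..)` (`y^(eta-1) y^(1-q) = y^(eta-q)`), and this is `ofReal` of the integral, as `EE >= 0` and
`y^(eta-q) EE` is integrable on `Ioc 0 b` (`mo_int` with `sg = eta + 1 - q`, `sg - 1 = eta - q`, `p = 2 - q`).
Likewise `II F q eta b = ofReal (∫_{Ioc 0 b} y^(eta-q) PP F (2-q) y)` (the inner integral is `ofReal (PP ..)`, continuous positive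
integrand).  Convert to real numbers (`ENNReal.ofReal_le_ofReal_iff`, all quantities `>= 0`) and use linearity.
-/

set_option autoImplicit false

open Set Metric MeasureTheory H62.CJ

namespace H78.CN

theorem As_II (F : ℂ → ℂ) (M q eta b : ℝ) (hF : Cls F M)
    (hint : IntegrableOn (fun y => y ^ (eta - q) * PP F (2 - q) y) (Ioc 0 b)) :
    II F q eta b = ENNReal.ofReal (∫ y in Ioc 0 b, y ^ (eta - q) * PP F (2 - q) y) := by
  rw [ofReal_integral_eq_lintegral_ofReal hint ?_, ← restrict_Ioo_eq_restrict_Ioc]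
  · unfold II
    refine setLIntegral_congr_fun measurableSet_Ioo ?_
    intro y hy
    have hy0 : 0 < y := hy.1
    change ENNReal.ofReal (y ^ (eta - q)) * _ = ENNReal.ofReal (y ^ (eta - q) * PP F (2 - q) y)
    rw [ENNReal.ofReal_mul (Real.rpow_nonneg hy0.le _)]
    congr 1
    have h2 := P2_int F M hF (2 - q) y hy0
    have h2pi : (0 : ℝ) ≤ 2 * Real.pi := by positivity
    unfold PP
    rw [intervalIntegral.integral_of_le h2pi,
      ofReal_integral_eq_lintegral_ofReal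
        ((intervalIntegrable_iff_integrableOn_Ioc_of_le h2pi).mp h2) ?_,
      restrict_Ioo_eq_restrict_Ioc]
    exact Filter.Eventually.of_forall fun x => Real.rpow_nonneg (norm_nonneg _) _
  · filter_upwards [ae_restrict_mem measurableSet_Ioc] with y hy
    exact mul_nonneg (Real.rpow_nonneg hy.1.le _) (PP_pos F M hF (2 - q) y hy.1).le

theorem As_EE (F : ℂ → ℂ) (q eta c0 bb c δ b : ℝ)
    (h0 : IntegrableOn (fun y => y ^ (eta - q) * PP F (2 - q) y) (Ioc 0 b))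
    (h1 : IntegrableOn (fun y => y ^ (eta - q) * B1 F (2 - q) y) (Ioc 0 b))
    (h2 : IntegrableOn (fun y => y ^ (eta - q) * B2 F (2 - q) y) (Ioc 0 b)) :
    IntegrableOn (fun y => y ^ (eta - q) * EE F q eta c0 bb c δ y) (Ioc 0 b) ∧
    ∫ y in Ioc 0 b, y ^ (eta - q) * EE F q eta c0 bb c δ y =
      (δ ^ (1 - q) / (1 - q) + c * δ ^ (2 - q)) *
          (∫ y in Ioc 0 b, y ^ (eta - q) * PP F (2 - q) y) +
        δ * ((q / eta) ^ (-q) / (1 - q)) *
          (-(∫ y in Ioc 0 b, y ^ (eta - q) * PP F (2 - q) y) +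
            q / (2 - q) * (q / eta) * (∫ y in Ioc 0 b, y ^ (eta - q) * B1 F (2 - q) y) +
            c0 * ((∫ y in Ioc 0 b, y ^ (eta - q) * B2 F (2 - q) y) -
              2 * bb * (∫ y in Ioc 0 b, y ^ (eta - q) * B1 F (2 - q) y) +
              bb ^ 2 * (∫ y in Ioc 0 b, y ^ (eta - q) * PP F (2 - q) y))) := by
  set a1 : ℝ := δ ^ (1 - q) / (1 - q) + c * δ ^ (2 - q) with ha1
  set a2 : ℝ := δ * ((q / eta) ^ (-q) / (1 - q)) with ha2
  set a3 : ℝ := q / (2 - q) * (q / eta) with ha3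
  have hfun : (fun y => y ^ (eta - q) * EE F q eta c0 bb c δ y) = fun y =>
      (a1 - a2 + a2 * c0 * bb ^ 2) * (y ^ (eta - q) * PP F (2 - q) y) +
        (a2 * a3 - a2 * c0 * (2 * bb)) * (y ^ (eta - q) * B1 F (2 - q) y) +
        (a2 * c0) * (y ^ (eta - q) * B2 F (2 - q) y) := by
    funext y
    unfold EE
    rw [← ha1, ← ha2, ← ha3]
    ring
  have i0 := h0.const_mul (a1 - a2 + a2 * c0 * bb ^ 2)
  have i1 := h1.const_mul (a2 * a3 - a2 * c0 * (2 * bb))
  have i2 := h2.const_mul (a2 * c0)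
  have i01 : Integrable (fun y =>
      (a1 - a2 + a2 * c0 * bb ^ 2) * (y ^ (eta - q) * PP F (2 - q) y) +
        (a2 * a3 - a2 * c0 * (2 * bb)) * (y ^ (eta - q) * B1 F (2 - q) y))
      (volume.restrict (Ioc 0 b)) := i0.add i1
  rw [hfun]
  refine ⟨i01.add i2, ?_⟩
  rw [integral_add i01 i2, integral_add i0 i1, integral_const_mul, integral_const_mul,
    integral_const_mul]
  ring

theorem master_delta (M q eta e c0 bb b : ℝ) (hq : 0 < q) (hq1 : q < 1) (he : 0 < eta)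
    (heq : eta < q) (hc0 : 0 ≤ c0)
    (hc : ∀ a : ℝ, 1 ≤ a → a ≤ q / eta * (1 + e) →
      q * (1 - q) * ((1 + a) * Real.log a - 2 * (a - 1)) ≤ c0 * (a / (q / eta) + bb) ^ 2)
    (hb : 0 < b) (hb1 : b ≤ 1 / 4) (hbe : 4 * b ≤ e) :
    ∃ c : ℝ, 0 < c ∧ ∃ δ0 : ℝ, 0 < δ0 ∧ δ0 ≤ 1 / 2 ∧ ∃ CB : ℝ, 0 < CB ∧
      ∀ F : ℂ → ℂ, Cls F M → NP F →
        (∃ L : ℝ, ∀ x y : ℝ, 0 < y → y ≤ 1 / 2 → ‖deriv F (pt x y)‖ ≤ L) →
        ∀ δ : ℝ, 0 < δ → δ ≤ δ0 →
          (1 + δ) ^ (eta - 1) * ((1 + δ) ^ 4) ^ (-q) * (δ ^ (1 - q) / (1 - q)) *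
              (∫ y in Ioc 0 b, y ^ (eta - q) * PP F (2 - q) y) ≤
            CB + (δ ^ (1 - q) / (1 - q) + c * δ ^ (2 - q)) *
                (∫ y in Ioc 0 b, y ^ (eta - q) * PP F (2 - q) y) +
              δ * ((q / eta) ^ (-q) / (1 - q)) *
                (-(∫ y in Ioc 0 b, y ^ (eta - q) * PP F (2 - q) y) +
                  q / (2 - q) * (q / eta) * (∫ y in Ioc 0 b, y ^ (eta - q) * B1 F (2 - q) y) +
                  c0 * ((∫ y in Ioc 0 b, y ^ (eta - q) * B2 F (2 - q) y) -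
                    2 * bb * (∫ y in Ioc 0 b, y ^ (eta - q) * B1 F (2 - q) y) +
                    bb ^ 2 * (∫ y in Ioc 0 b, y ^ (eta - q) * PP F (2 - q) y))) := by
  obtain ⟨c, hcpos, δ0, hδ0, hδ01, hT⟩ := tau_int q eta e c0 bb hq hq1 he heq hc0 hc
  obtain ⟨CB, hCB, hBd⟩ := bdry M b q eta hb hb1 hq hq1 he (by linarith)
  refine ⟨c, hcpos, δ0, hδ0, hδ01, CB, hCB, ?_⟩
  rintro F hF hN ⟨L, hL⟩ δ hδ hδδ
  have hlb : (1 + δ) * b ≤ 1 / 2 := by nlinarith
  obtain ⟨m0, m1, m2⟩ := mo_int F M hF L hL (2 - q) (eta + 1 - q) b (by linarith) (by linarith) hb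
    (by linarith)
  have hsg : eta + 1 - q - 1 = eta - q := by ring
  rw [hsg] at m0 m1 m2
  obtain ⟨hEi, hEe⟩ := As_EE F q eta c0 bb c δ b m0 m1 m2
  have h1 := lower F M hF hN b (1 + δ) q eta hb (by linarith) hlb hq hq1 (by linarith)
  have h2 := step3 F M hF hN b (1 + δ) q eta hb (by linarith) hq
  have h3 := hBd F hF hN (1 + δ) (by linarith) (by linarith)
  have h4 : ∫⁻ y in Ioo 0 b, ENNReal.ofReal (y ^ (eta - 1)) *
        ∫⁻ ζ in strip 0 y, ENNReal.ofReal (‖deriv F ζ‖ ^ 2) *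
          ENNReal.ofReal (rr F (F ζ) y ^ (-q) - (1 + δ) ^ eta * rr F (F ζ) ((1 + δ) * y) ^ (-q)) ≤
      ENNReal.ofReal (∫ y in Ioc 0 b, y ^ (eta - q) * EE F q eta c0 bb c δ y) := by
    rw [ofReal_integral_eq_lintegral_ofReal hEi ?_, ← restrict_Ioo_eq_restrict_Ioc]
    · refine setLIntegral_mono' measurableSet_Ioo ?_
      intro y hy
      have hy0 : 0 < y := hy.1
      have hyb : y < b := hy.2
      have hly : (1 + δ) * y ≤ 1 / 2 := by nlinarith
      have h5 := cost F M hF hN y (1 + δ) q eta hy0 (by linarith) hly hq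
      obtain ⟨h6, h7⟩ := hT F M hF δ hδ hδδ y hy0 (by linarith) (by linarith)
      rw [add_sub_cancel_left] at h5
      have h8 : y ^ (eta - q) = y ^ (eta - 1) * y ^ (1 - q) := by
        rw [← Real.rpow_add hy0]
        congr 1
        ring
      calc ENNReal.ofReal (y ^ (eta - 1)) *
            ∫⁻ ζ in strip 0 y, ENNReal.ofReal (‖deriv F ζ‖ ^ 2) *
              ENNReal.ofReal (rr F (F ζ) y ^ (-q) -
                (1 + δ) ^ eta * rr F (F ζ) ((1 + δ) * y) ^ (-q))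
          ≤ ENNReal.ofReal (y ^ (eta - 1)) * (ENNReal.ofReal (y ^ (1 - q)) *
              ENNReal.ofReal (EE F q eta c0 bb c δ y)) := by
            gcongr
            exact h5.trans (by gcongr)
        _ = ENNReal.ofReal (y ^ (eta - q) * EE F q eta c0 bb c δ y) := by
            rw [h8, ENNReal.ofReal_mul (by positivity), ENNReal.ofReal_mul (by positivity),
              mul_assoc]
    · have hae : ∀ᵐ y ∂(volume.restrict (Ioc 0 b)),
          0 ≤ y ^ (eta - q) * EE F q eta c0 bb c δ y := by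
        filter_upwards [ae_restrict_mem measurableSet_Ioc] with y hy
        have hy0 : 0 < y := hy.1
        have hyb : y ≤ b := hy.2
        obtain ⟨h6, h7⟩ := hT F M hF δ hδ hδδ y hy0 (by linarith) (by linarith)
        exact mul_nonneg (Real.rpow_nonneg hy0.le _) h6
      exact hae
  rw [As_II F M q eta b hF m0] at h1
  set E : ℝ := ∫ y in Ioc 0 b, y ^ (eta - q) * EE F q eta c0 bb c δ y with hE
  have hE0 : 0 ≤ E := by
    refine setIntegral_nonneg measurableSet_Ioc fun y hy => ?_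
    have hy0 : 0 < y := hy.1
    have hyb : y ≤ b := hy.2
    obtain ⟨h6, h7⟩ := hT F M hF δ hδ hδδ y hy0 (by linarith) (by linarith)
    exact mul_nonneg (Real.rpow_nonneg hy0.le _) h6
  have h9 := h1.trans (h2.trans (add_le_add h3 h4))
  rw [add_sub_cancel_left] at h9
  have hlow : 0 ≤ (1 + δ) ^ (eta - 1) * ((1 + δ) ^ 4) ^ (-q) * (δ ^ (1 - q) / (1 - q)) := by
    have : 0 < 1 - q := by linarith
    positivity
  rw [← ENNReal.ofReal_mul hlow, ← ENNReal.ofReal_add hCB.le hE0,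
    ENNReal.ofReal_le_ofReal_iff (by linarith)] at h9
  rw [hEe] at h9
  linarith

end H78.CN
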