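import Pool.Agent.H78.CN.Def
import Pool.Agent.H62.CJ.Z1

/-!
# CN-N1: nearest points for S_1

PROOF.  `F = FF f`, `y > 0`, `R = exp (-y) < 1`.  `DD F y = f '' {ξ : 0 < |ξ| < R}` (`FF_of_pos`, `norm_exp_I_mul`; every `ξ` with
`0 < |ξ| < R` is `exp (i z)` with `z = - i log ξ`, `im z = - log |ξ| > y`).
Let `0 < ζ.im < y`, `w = F ζ = f ξ0`, `R < |ξ0| < 1`.  The continuous function `ξ ↦ |w - f ξ|` attains its minimum on the compact ball
`closedBall 0 R` at some `ξ1`.  Claim `|ξ1| = R`: otherwise `f` is open near `ξ1` (`f` is injective and holomorphic on the ball, so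
not constant: `AnalyticOnNhd.is_constant_or_isOpen`, or open mapping `f '' ball 0 R` is open), so `f '' ball 0 R` contains a neighbourhood of
`f ξ1`, in particular a point `f ξ1 + t (w - f ξ1)`, `0 < t < 1`, which is closer to `w` (`w ≠ f ξ1` by injectivity as `|ξ0| > R`): contradiction.
So `ξ1 = exp (i (pt x y))` for some `x ∈ [0, 2 pi)` (`toIcoMod`, or `Complex.arg` shifted), `F (pt x y) = f ξ1`.
`Near`: `infDist w (DD F y) = |w - f ξ1|`: `>=`: every point of `DD F y` is `f ξ`, `|ξ| < R`, distance `>= |w - f ξ1|`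
(`le_infDist` nonempty); `<=`: `rr_le_line` of Nf.lean, or `f ξ1` is the limit of `f (t ξ1)`, `t -> 1-` (`infDist_le_dist_of_mem` + closure).
-/

set_option autoImplicit false

open Set Metric MeasureTheory H62.CJ

namespace H78.CN

/-- a minimum point of the distance on the closed ball is not interior -/
theorem N1_interior (f : ℂ → ℂ) (hd : DifferentiableOn ℂ f (ball 0 1)) (hi : InjOn f (ball 0 1))
    (R : ℝ) (hR1 : R < 1) (ξ0 ξ1 : ℂ) (h0 : R < ‖ξ0‖) (h01 : ‖ξ0‖ < 1) (h1 : ‖ξ1‖ < R)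
    (hmin : ∀ ξ ∈ closedBall (0 : ℂ) R, ‖f ξ0 - f ξ1‖ ≤ ‖f ξ0 - f ξ‖) : False := by
  have hm0 : ξ0 ∈ ball (0 : ℂ) 1 := mem_ball_zero_iff.mpr h01
  have hm1 : ξ1 ∈ ball (0 : ℂ) 1 := mem_ball_zero_iff.mpr (h1.trans hR1)
  have hne : f ξ0 - f ξ1 ≠ 0 := by
    intro h
    have h2 := hi hm0 hm1 (sub_eq_zero.mp h)
    rw [h2] at h0
    linarith
  have hder : deriv f ξ1 ≠ 0 := deriv_ne_zero_of_injOn f (ball 0 1) isOpen_ball hd hi ξ1 hm1
  have hstrict : HasStrictDerivAt f (deriv f ξ1) ξ1 := by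
    have h2 : AnalyticAt ℂ f ξ1 := hd.analyticAt (isOpen_ball.mem_nhds hm1)
    exact h2.hasStrictDerivAt
  have hmap : Filter.map f (nhds ξ1) = nhds (f ξ1) := hstrict.map_nhds_eq hder
  have hbR : ball (0 : ℂ) R ∈ nhds ξ1 := isOpen_ball.mem_nhds (mem_ball_zero_iff.mpr h1)
  have himg : f '' ball (0 : ℂ) R ∈ nhds (f ξ1) := by
    rw [← hmap]
    exact Filter.image_mem_map hbR
  have hcurve : Filter.Tendsto (fun t : ℝ => f ξ1 + (t : ℂ) * (f ξ0 - f ξ1)) (nhdsWithin 0 (Ioi 0))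
      (nhds (f ξ1)) := by
    have h2 : Continuous (fun t : ℝ => f ξ1 + (t : ℂ) * (f ξ0 - f ξ1)) := by fun_prop
    have h3 := (h2.tendsto 0).mono_left (nhdsWithin_le_nhds (s := Ioi (0 : ℝ)))
    simpa using h3
  have hev : ∀ᶠ t : ℝ in nhdsWithin 0 (Ioi 0), f ξ1 + (t : ℂ) * (f ξ0 - f ξ1) ∈ f '' ball (0 : ℂ) R :=
    hcurve himg
  have hev2 : ∀ᶠ t : ℝ in nhdsWithin 0 (Ioi 0), t < 1 :=
    nhdsWithin_le_nhds (Iio_mem_nhds one_pos)
  obtain ⟨t, ht1, ht2, ht3⟩ := (hev.and (hev2.and self_mem_nhdsWithin)).exists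
  have ht0 : 0 < t := ht3
  obtain ⟨ξ, hξ, hξe⟩ := ht1
  have h4 := hmin ξ (ball_subset_closedBall hξ)
  have h5 : f ξ0 - f ξ = ((1 - t : ℝ) : ℂ) * (f ξ0 - f ξ1) := by
    have h6 : f ξ = f ξ1 + (t : ℂ) * (f ξ0 - f ξ1) := hξe
    rw [h6]
    push_cast
    ring
  rw [h5, norm_mul, Complex.norm_real, Real.norm_eq_abs, abs_of_pos (by linarith)] at h4
  have h7 : 0 < ‖f ξ0 - f ξ1‖ := norm_pos_iff.mpr hne
  nlinarith

/-- a point of norm `exp (-y)` comes from the line `im = y` -/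
theorem N1_arg (ξ : ℂ) (y : ℝ) (h : ‖ξ‖ = Real.exp (-y)) :
    ∃ x ∈ Ico (0 : ℝ) (2 * Real.pi), Complex.exp (Complex.I * pt x y) = ξ := by
  have hpi := Real.pi_pos
  have h1 := Complex.neg_pi_lt_arg ξ
  have h2 := Complex.arg_le_pi ξ
  have h3 : Complex.exp (Complex.I * pt ξ.arg y) = ξ := by
    rw [z0_circle, circleMap_zero, ← h]
    exact Complex.norm_mul_exp_arg_mul_I ξ
  rcases le_or_gt 0 ξ.arg with h4 | h4
  · exact ⟨ξ.arg, ⟨h4, by linarith⟩, h3⟩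
  · refine ⟨ξ.arg + 2 * Real.pi, ⟨by linarith, by linarith⟩, ?_⟩
    have h5 : Complex.I * pt (ξ.arg + 2 * Real.pi) y =
        Complex.I * pt ξ.arg y + 2 * Real.pi * Complex.I := by
      rw [pt_eq, pt_eq]
      push_cast
      ring
    rw [h5, Complex.exp_periodic, h3]

theorem NP_S1 (f : ℂ → ℂ) (hd : DifferentiableOn ℂ f (ball 0 1)) (hi : InjOn f (ball 0 1)) :
    NP (FF f) := by
  intro y hy ζ h0 h1
  have hR0 : 0 < Real.exp (-y) := Real.exp_pos _
  have hR1 : Real.exp (-y) < 1 := by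
    rw [Real.exp_lt_one_iff]
    linarith
  have hsub : closedBall (0 : ℂ) (Real.exp (-y)) ⊆ ball 0 1 := closedBall_subset_ball hR1
  have hn0 : Real.exp (-y) < ‖Complex.exp (Complex.I * ζ)‖ := by
    rw [norm_exp_I_mul]
    exact Real.exp_lt_exp.mpr (by linarith)
  have hn1 : ‖Complex.exp (Complex.I * ζ)‖ < 1 := mem_ball_zero_iff.mp (exp_mem ζ h0).1
  have hw : FF f ζ = f (Complex.exp (Complex.I * ζ)) := FF_of_pos f ζ h0
  have hcont : ContinuousOn (fun ξ => ‖f (Complex.exp (Complex.I * ζ)) - f ξ‖)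
      (closedBall (0 : ℂ) (Real.exp (-y))) :=
    (continuousOn_const.sub (hd.continuousOn.mono hsub)).norm
  obtain ⟨ξ1, hξ1, hmin'⟩ := (isCompact_closedBall (0 : ℂ) (Real.exp (-y))).exists_isMinOn
    ⟨0, mem_closedBall_self hR0.le⟩ hcont
  have hmin : ∀ ξ ∈ closedBall (0 : ℂ) (Real.exp (-y)),
      ‖f (Complex.exp (Complex.I * ζ)) - f ξ1‖ ≤ ‖f (Complex.exp (Complex.I * ζ)) - f ξ‖ :=
    fun ξ hξ => hmin' hξ
  have hnorm : ‖ξ1‖ = Real.exp (-y) := by
    have h2 : ‖ξ1‖ ≤ Real.exp (-y) := mem_closedBall_zero_iff.mp hξ1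
    rcases h2.lt_or_eq with h3 | h3
    · exact (N1_interior f hd hi _ hR1 _ ξ1 hn0 hn1 h3 hmin).elim
    · exact h3
  obtain ⟨x, hx, hxe⟩ := N1_arg ξ1 y hnorm
  refine ⟨x, hx, ?_⟩
  have hval : FF f (pt x y) = f ξ1 := by
    rw [FF_of_pos f _ (show 0 < (pt x y).im from hy), hxe]
  have hne : (DD (FF f) y).Nonempty :=
    ⟨FF f (pt 0 (y + 1)), pt 0 (y + 1), ⟨by rw [pt_im]; linarith, by rw [pt_im]; linarith⟩, rfl⟩
  show infDist (FF f ζ) (DD (FF f) y) = ‖FF f ζ - FF f (pt x y)‖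
  apply le_antisymm
  · have hdiff : DifferentiableOn ℂ (FF f) HP := FF_diff f (hd.mono sdiff_subset)
    have hFc : ContinuousAt (FF f) (pt x y) :=
      (hdiff.differentiableAt (z0_HP_open.mem_nhds (show pt x y ∈ HP from hy))).continuousAt
    have hpc : Continuous (fun v : ℝ => pt x v) := by
      have h2 : (fun v : ℝ => pt x v) = fun v : ℝ => (x : ℂ) + (v : ℂ) * Complex.I :=
        funext fun v => pt_eq x v
      rw [h2]
      fun_prop
    have h2 : ContinuousAt (fun v : ℝ => ‖FF f ζ - FF f (pt x v)‖) y := by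
      have h3 : ContinuousAt (fun v : ℝ => FF f (pt x v)) y :=
        ContinuousAt.comp (f := fun v : ℝ => pt x v) (g := FF f) hFc hpc.continuousAt
      exact (continuousAt_const.sub h3).norm
    have h4 : Filter.Tendsto (fun v : ℝ => ‖FF f ζ - FF f (pt x v)‖) (nhdsWithin y (Ioi y))
        (nhds ‖FF f ζ - FF f (pt x y)‖) := h2.tendsto.mono_left nhdsWithin_le_nhds
    refine ge_of_tendsto h4 ?_
    filter_upwards [self_mem_nhdsWithin] with v hv
    have hv' : y < v := hv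
    rw [← dist_eq_norm]
    exact infDist_le_dist_of_mem ⟨pt x v, ⟨hy.trans hv', hv'⟩, rfl⟩
  · rw [le_infDist hne]
    rintro _ ⟨z, ⟨hz0, hzy⟩, rfl⟩
    rw [dist_eq_norm, hval, hw, FF_of_pos f z hz0]
    refine hmin _ ?_
    rw [mem_closedBall_zero_iff, norm_exp_I_mul]
    exact Real.exp_le_exp.mpr (by linarith)

end H78.CN
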