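import Pool.Agent.H78.CN.Def
import Pool.Agent.H62.CJ.Z2
import Pool.Agent.H62.CJ.L0

/-!
# CN-N2: nearest points for S_2

PROOF.  `φ ξ = ξ⁻¹ + h ξ` is injective and holomorphic on the punctured ball (`Z2_sig`, `Z2_diff` are private in Z2: repeat the short
proofs), `F = FF φ`, `y > 0`, `R = exp (-y) < 1`.  `DD F y = φ '' {ξ : 0 < |ξ| < R}` (`FF_of_pos`, `norm_exp_I_mul`; every `ξ` with
`0 < |ξ| < R` is `exp (i z)`, `z = - i log ξ`, `im z = - log |ξ| > y`).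
Let `0 < ζ.im < y`, `w = F ζ = φ ξ0`, `R < |ξ0| < 1`.  `|φ ξ| >= 1/|ξ| - H` with `H` a bound of `|h|` on `closedBall 0 R`, so for
`|ξ| <= ρ` (small, `ρ < R`) `|w - φ ξ| > |w - φ R| + 1`.  On the compact set `{ρ <= |ξ| <= R}` the continuous function `|w - φ ξ|` has a
minimum at `ξ1`, which is then a minimum on `{0 < |ξ| <= R}`.  Claim `|ξ1| = R`: otherwise `φ '' {0 < |ξ| < R}` is an open set
(injective holomorphic on the open punctured ball; `AnalyticOnNhd.is_constant_or_isOpen` on the preconnected punctured ball, or the inverse function theorem with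
`deriv φ ≠ 0` (`deriv_ne_zero_of_injOn`, L0)) which contains `φ ξ1`, hence a point `φ ξ1 + t (w - φ ξ1)`, `0 < t < 1`, closer to `w`
(`w ≠ φ ξ1` by injectivity): contradiction.  So `ξ1 = exp (i (pt x y))`, `x ∈ [0, 2 pi)`, `F (pt x y) = φ ξ1`.
`Near`: `infDist w (DD F y) = |w - φ ξ1|`: `>=`: every point of `DD F y` is `φ ξ`, `0 < |ξ| < R`; `<=`: `φ ξ1` is the limit of `φ (t ξ1)`,
`t -> 1-`.
-/

set_option autoImplicit false

open Set Metric MeasureTheory H62.CJ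

namespace H78.CN

private theorem N2_sig {h : ℂ → ℂ}
    (hi : InjOn (fun z : ℂ => z + h z⁻¹) {z : ℂ | 1 < ‖z‖}) :
    InjOn (fun ξ : ℂ => ξ⁻¹ + h ξ) (ball 0 1 \ {0}) := by
  intro a ha b hb hab
  have key : ∀ c : ℂ, c ∈ ball (0 : ℂ) 1 \ {0} → c⁻¹ ∈ {z : ℂ | 1 < ‖z‖} := by
    rintro c ⟨hc1, hc0⟩
    show 1 < ‖c⁻¹‖
    rw [norm_inv]
    have h1 : ‖c‖ < 1 := by simpa using hc1
    have h2 : 0 < ‖c‖ := norm_pos_iff.2 hc0
    exact (one_lt_inv₀ h2).2 h1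
  have h1 := hi (key a ha) (key b hb) (by
    show a⁻¹ + h (a⁻¹)⁻¹ = b⁻¹ + h (b⁻¹)⁻¹
    rw [inv_inv, inv_inv]
    exact hab)
  exact inv_injective h1

private theorem N2_diff {h : ℂ → ℂ} (hd : DifferentiableOn ℂ h (ball 0 1)) :
    DifferentiableOn ℂ (fun ξ => ξ⁻¹ + h ξ) (ball 0 1 \ {0}) := by
  refine DifferentiableOn.add ?_ (hd.mono sdiff_subset)
  intro ξ hξ
  exact (differentiableAt_inv hξ.2).differentiableWithinAt

private theorem N2_DD (φ : ℂ → ℂ) (y : ℝ) (hy : 0 < y) :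
    DD (FF φ) y = φ '' {ξ : ℂ | ξ ≠ 0 ∧ ‖ξ‖ < Real.exp (-y)} := by
  ext v
  constructor
  · rintro ⟨z, ⟨hz0, hzy⟩, rfl⟩
    refine ⟨Complex.exp (Complex.I * z), ⟨Complex.exp_ne_zero _, ?_⟩, ?_⟩
    · rw [norm_exp_I_mul]
      exact Real.exp_lt_exp.2 (by linarith)
    · exact (FF_of_pos φ z hz0).symm
  · rintro ⟨ξ, ⟨hne, hξ⟩, rfl⟩
    have him : (-Complex.I * Complex.log ξ).im = -Real.log ‖ξ‖ := by
      simp [Complex.log_re]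
    have hlog : Real.log ‖ξ‖ < -y := by
      have := Real.log_lt_log (norm_pos_iff.2 hne) hξ
      rwa [Real.log_exp] at this
    have hy' : y < (-Complex.I * Complex.log ξ).im := by
      rw [him]
      linarith
    refine ⟨-Complex.I * Complex.log ξ, ⟨by linarith, hy'⟩, ?_⟩
    rw [FF_of_pos _ _ (by linarith)]
    rw [show Complex.I * (-Complex.I * Complex.log ξ) = -(Complex.I * Complex.I) * Complex.log ξ
        by ring, Complex.I_mul_I, neg_neg, one_mul, Complex.exp_log hne]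

/-- a minimum point of the distance in the closed punctured disc -/
private theorem N2_min (h : ℂ → ℂ) (hd : DifferentiableOn ℂ h (ball 0 1)) (R : ℝ) (hR0 : 0 < R)
    (hR1 : R < 1) (w : ℂ) :
    ∃ ξ1 : ℂ, ξ1 ≠ 0 ∧ ‖ξ1‖ ≤ R ∧
      ∀ ξ : ℂ, ξ ≠ 0 → ‖ξ‖ ≤ R → ‖w - (ξ1⁻¹ + h ξ1)‖ ≤ ‖w - (ξ⁻¹ + h ξ)‖ := by
  have hsub : closedBall (0 : ℂ) R ⊆ ball 0 1 := closedBall_subset_ball hR1
  obtain ⟨H, hH⟩ := (isCompact_closedBall (0 : ℂ) R).exists_bound_of_continuousOn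
    (hd.continuousOn.mono hsub)
  have hH0 : 0 ≤ H := (norm_nonneg _).trans (hH 0 (mem_closedBall_self hR0.le))
  set C : ℝ := ‖w - (((R : ℂ))⁻¹ + h (R : ℂ))‖ with hC
  have hC0 : 0 ≤ C := norm_nonneg _
  set K : ℝ := C + ‖w‖ + H + 1 with hK
  have hK0 : 0 < K := by
    have := norm_nonneg w
    rw [hK]
    linarith
  set ρ : ℝ := min R K⁻¹ with hρ
  have hρ0 : 0 < ρ := lt_min hR0 (inv_pos.2 hK0)
  have hcomp : IsCompact (closedBall (0 : ℂ) R \ ball 0 ρ) :=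
    (isCompact_closedBall 0 R).diff isOpen_ball
  have hnR : ‖(R : ℂ)‖ = R := by
    rw [Complex.norm_real, Real.norm_eq_abs, abs_of_pos hR0]
  have hRm : (R : ℂ) ∈ closedBall (0 : ℂ) R \ ball 0 ρ := by
    refine ⟨?_, ?_⟩
    · rw [mem_closedBall_zero_iff, hnR]
    · rw [mem_ball_zero_iff, hnR, not_lt]
      exact min_le_left _ _
  have hne : ∀ ξ : ℂ, ξ ∈ closedBall (0 : ℂ) R \ ball 0 ρ → ξ ≠ 0 := by
    rintro ξ ⟨_, h2⟩ h3
    rw [h3] at h2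
    exact h2 (mem_ball_self hρ0)
  have hcont : ContinuousOn (fun ξ : ℂ => ‖w - (ξ⁻¹ + h ξ)‖) (closedBall (0 : ℂ) R \ ball 0 ρ) := by
    refine (continuousOn_const.sub (ContinuousOn.add ?_ ?_)).norm
    · exact continuousOn_id.inv₀ (fun ξ hξ => hne ξ hξ)
    · exact hd.continuousOn.mono (sdiff_subset.trans hsub)
  obtain ⟨ξ1, hξ1, hmin⟩ := hcomp.exists_isMinOn ⟨_, hRm⟩ hcont
  refine ⟨ξ1, hne ξ1 hξ1, ?_, ?_⟩
  · exact mem_closedBall_zero_iff.1 hξ1.1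
  · intro ξ hξ0 hξR
    by_cases hρξ : ‖ξ‖ < ρ
    · have h1 : ‖w - (ξ1⁻¹ + h ξ1)‖ ≤ C := hmin hRm
      have h2 : K ≤ ‖ξ‖⁻¹ := by
        rw [le_inv_comm₀ hK0 (norm_pos_iff.2 hξ0)]
        exact (hρξ.le).trans (min_le_right _ _)
      have h3 : ‖h ξ‖ ≤ H := hH ξ (mem_closedBall_zero_iff.2 hξR)
      have h4 : ‖ξ⁻¹‖ ≤ ‖w - (ξ⁻¹ + h ξ)‖ + ‖w‖ + ‖h ξ‖ := by
        have e1 : ξ⁻¹ = -(w - (ξ⁻¹ + h ξ)) + w - h ξ := by ring
        calc ‖ξ⁻¹‖ = ‖-(w - (ξ⁻¹ + h ξ)) + w - h ξ‖ := by rw [← e1]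
          _ ≤ ‖-(w - (ξ⁻¹ + h ξ)) + w‖ + ‖h ξ‖ := norm_sub_le _ _
          _ ≤ ‖-(w - (ξ⁻¹ + h ξ))‖ + ‖w‖ + ‖h ξ‖ := by
            have := norm_add_le (-(w - (ξ⁻¹ + h ξ))) w
            linarith
          _ = _ := by rw [norm_neg]
      rw [norm_inv] at h4
      rw [hK] at h2
      linarith
    · exact hmin ⟨mem_closedBall_zero_iff.2 hξR, fun h5 => hρξ (mem_ball_zero_iff.1 h5)⟩

/-- the minimum point lies on the circle -/
private theorem N2_circ (φ : ℂ → ℂ) (hφ : DifferentiableOn ℂ φ (ball 0 1 \ {0}))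
    (hi : InjOn φ (ball 0 1 \ {0})) (R : ℝ) (hR1 : R < 1) (w ξ1 : ℂ)
    (h0 : ξ1 ≠ 0) (hR : ‖ξ1‖ ≤ R) (hw : w ≠ φ ξ1)
    (hmin : ∀ ξ : ℂ, ξ ≠ 0 → ‖ξ‖ ≤ R → ‖w - φ ξ1‖ ≤ ‖w - φ ξ‖) : ‖ξ1‖ = R := by
  by_contra hne
  have hlt : ‖ξ1‖ < R := lt_of_le_of_ne hR hne
  have hm : ξ1 ∈ ball (0 : ℂ) 1 \ {0} := ⟨by rw [mem_ball_zero_iff]; linarith, h0⟩
  have hd0 : deriv φ ξ1 ≠ 0 := deriv_ne_zero_of_injOn φ _ z0_open hφ hi ξ1 hm
  have hanl : AnalyticAt ℂ φ ξ1 := hφ.analyticAt (z0_open.mem_nhds hm)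
  have hst : HasStrictDerivAt φ (deriv φ ξ1) ξ1 := hanl.hasStrictDerivAt
  have hmap := hst.map_nhds_eq hd0
  have hUo : IsOpen (ball (0 : ℂ) R \ {0}) := isOpen_ball.sdiff isClosed_singleton
  have hU : ball (0 : ℂ) R \ {0} ∈ nhds ξ1 :=
    hUo.mem_nhds ⟨by rw [mem_ball_zero_iff]; exact hlt, h0⟩
  have himg : φ '' (ball (0 : ℂ) R \ {0}) ∈ nhds (φ ξ1) := by
    rw [← hmap]
    exact Filter.image_mem_map hU
  have hcont : Filter.Tendsto (fun t : ℝ => φ ξ1 + (t : ℂ) * (w - φ ξ1)) (nhds 0)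
      (nhds (φ ξ1)) := by
    have h1 : Continuous (fun t : ℝ => φ ξ1 + (t : ℂ) * (w - φ ξ1)) := by fun_prop
    have h2 := h1.tendsto 0
    simpa using h2
  have hev : ∀ᶠ t : ℝ in nhdsWithin 0 (Ioi 0),
      φ ξ1 + (t : ℂ) * (w - φ ξ1) ∈ φ '' (ball (0 : ℂ) R \ {0}) :=
    (hcont.mono_left nhdsWithin_le_nhds).eventually himg
  have hev2 : ∀ᶠ t : ℝ in nhdsWithin 0 (Ioi 0), t ∈ Ioo (0 : ℝ) 1 :=
    Ioo_mem_nhdsGT one_pos
  obtain ⟨t, ht1, ht2⟩ := (hev.and hev2).exists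
  obtain ⟨ξ, hξ, heq⟩ := ht1
  have h1 := hmin ξ hξ.2 (le_of_lt (mem_ball_zero_iff.1 hξ.1))
  rw [heq] at h1
  have h2 : w - (φ ξ1 + (t : ℂ) * (w - φ ξ1)) = ((1 - t : ℝ) : ℂ) * (w - φ ξ1) := by
    push_cast
    ring
  rw [h2, norm_mul, Complex.norm_real, Real.norm_eq_abs, abs_of_pos (by linarith [ht2.2])] at h1
  have h3 : 0 < ‖w - φ ξ1‖ := norm_pos_iff.2 (sub_ne_zero.2 hw)
  nlinarith [ht2.1]

private theorem N2_arg (R : ℝ) (hR : 0 < R) (ξ : ℂ) (hξ : ‖ξ‖ = R) :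
    ∃ x ∈ Ico (0 : ℝ) (2 * Real.pi), circleMap 0 R x = ξ := by
  have h1 : ξ ∈ sphere (0 : ℂ) |R| := by
    rw [mem_sphere_zero_iff_norm, abs_of_pos hR]
    exact hξ
  rw [← image_circleMap_Ioc] at h1
  obtain ⟨x, hx, hx2⟩ := h1
  have hp := Real.two_pi_pos
  rcases eq_or_lt_of_le hx.2 with h | h
  · refine ⟨0, ⟨le_refl _, hp⟩, ?_⟩
    rw [← hx2, h]
    have := (periodic_circleMap 0 R) 0
    rw [zero_add] at this
    exact this.symm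
  · exact ⟨x, ⟨hx.1.le, h⟩, hx2⟩

theorem NP_S2 (h : ℂ → ℂ) (hd : DifferentiableOn ℂ h (ball 0 1))
    (hi : InjOn (fun z : ℂ => z + h z⁻¹) {z : ℂ | 1 < ‖z‖}) :
    NP (FF (fun ξ => ξ⁻¹ + h ξ)) := by
  intro y hy ζ hζ0 hζy
  have hφ := N2_diff hd
  have hinj := N2_sig hi
  set φ : ℂ → ℂ := fun ξ => ξ⁻¹ + h ξ with hφdef
  set R : ℝ := Real.exp (-y) with hR
  have hR0 : 0 < R := Real.exp_pos _
  have hR1 : R < 1 := by
    rw [hR, Real.exp_lt_one_iff]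
    linarith
  set w : ℂ := FF φ ζ with hw
  have hw0 : w = φ (Complex.exp (Complex.I * ζ)) := FF_of_pos φ ζ hζ0
  obtain ⟨ξ1, h10, h1R, hmin⟩ := N2_min h hd R hR0 hR1 w
  have hmem1 : ξ1 ∈ ball (0 : ℂ) 1 \ {0} := ⟨by rw [mem_ball_zero_iff]; linarith, h10⟩
  have hwne : w ≠ φ ξ1 := by
    intro h1
    rw [hw0] at h1
    have h2 := hinj (exp_mem ζ hζ0) hmem1 h1
    have h3 : ‖Complex.exp (Complex.I * ζ)‖ = Real.exp (-ζ.im) := norm_exp_I_mul ζ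
    rw [h2] at h3
    have h4 : R < Real.exp (-ζ.im) := Real.exp_lt_exp.2 (by linarith)
    linarith
  have hc : ‖ξ1‖ = R := N2_circ φ hφ hinj R hR1 w ξ1 h10 h1R hwne hmin
  obtain ⟨x, hx, hx2⟩ := N2_arg R hR0 ξ1 hc
  refine ⟨x, hx, ?_⟩
  have hpt : FF φ (pt x y) = φ ξ1 := by
    rw [FF_of_pos φ _ (show 0 < (pt x y).im from hy), z0_circle, ← hR, hx2]
  show infDist w (DD (FF φ) y) = ‖w - FF φ (pt x y)‖
  rw [hpt, N2_DD φ y hy, ← hR]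
  apply le_antisymm
  · have hcont : ContinuousAt φ ξ1 :=
      (hφ.differentiableAt (z0_open.mem_nhds hmem1)).continuousAt
    have ht : Filter.Tendsto (fun t : ℝ => (t : ℂ) * ξ1) (nhdsWithin 1 (Iio 1)) (nhds ξ1) := by
      have h1 : Continuous (fun t : ℝ => (t : ℂ) * ξ1) := by fun_prop
      have h2 := h1.tendsto 1
      rw [Complex.ofReal_one, one_mul] at h2
      exact h2.mono_left nhdsWithin_le_nhds
    have ht2 : Filter.Tendsto (fun t : ℝ => ‖w - φ ((t : ℂ) * ξ1)‖) (nhdsWithin 1 (Iio 1))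
        (nhds ‖w - φ ξ1‖) :=
      (tendsto_const_nhds.sub (hcont.tendsto.comp ht)).norm
    refine ge_of_tendsto ht2 ?_
    have hev : ∀ᶠ t : ℝ in nhdsWithin 1 (Iio 1), t ∈ Ioo (0 : ℝ) 1 := Ioo_mem_nhdsLT one_pos
    filter_upwards [hev] with t ht3
    rw [← dist_eq_norm]
    refine infDist_le_dist_of_mem ⟨(t : ℂ) * ξ1, ⟨?_, ?_⟩, rfl⟩
    · exact mul_ne_zero (by exact_mod_cast ht3.1.ne') h10
    · rw [norm_mul, Complex.norm_real, Real.norm_eq_abs, abs_of_pos ht3.1, hc]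
      nlinarith [ht3.2]
  · have hnon : (φ '' {ξ : ℂ | ξ ≠ 0 ∧ ‖ξ‖ < R}).Nonempty := by
      refine ⟨φ ((R / 2 : ℝ) : ℂ), ((R / 2 : ℝ) : ℂ), ⟨?_, ?_⟩, rfl⟩
      · have h5 : (R / 2 : ℝ) ≠ 0 := by positivity
        exact_mod_cast h5
      · rw [Complex.norm_real, Real.norm_eq_abs, abs_of_pos (by positivity)]
        linarith
    refine (le_infDist hnon).2 ?_
    rintro v ⟨ξ, ⟨hξ0, hξR⟩, rfl⟩
    rw [dist_eq_norm]
    exact hmin ξ hξ0 hξR.le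

end H78.CN
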