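import Mathlib
import Pool.Agent.H78.CN.Zf

/-!
# MP_ecfee9_an: the Carleson-Jones exponent satisfies `γ ≥ 0.742`

There is a constant `C` such that the coefficients of every univalent function `f = Σ a_n z^n` of the
unit disc with `|f| ≤ 1` satisfy `|a_n| ≤ C n^(-0.742)`, and the coefficients of every univalent
function `z + Σ b_n z^(-n)` of `|z| > 1` satisfy `|b_n| ≤ C n^(-0.742)`; moreover the arclength of the
image of `|z| = e^(-ε)` respectively `|z| = e^ε` is at most `C ε^(-0.258)`.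

Method: in the half plane coordinate `F` the functional `∫ dist(w, F({Im z > y}))^(-q) dw` over the
complement of the level domain is followed in `y`; nearest points, the curvature of the level curves
and the exact moment identities for `A = y F''/F'`.
-/

set_option autoImplicit false

open Set Metric

namespace Pool.Agent.Results.MP_ecfee9_an.Exponent742

theorem result : ∃ C : ℝ, 0 < C ∧
    (∀ f : ℂ → ℂ, DifferentiableOn ℂ f (ball (0 : ℂ) 1) → InjOn f (ball (0 : ℂ) 1) → f 0 = 0 →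
      (∀ z ∈ ball (0 : ℂ) 1, ‖f z‖ ≤ 1) →
      (∀ n : ℕ, 1 ≤ n →
        ‖iteratedDeriv n f 0‖ / (n.factorial : ℝ) ≤ C * (n : ℝ) ^ (-(742 / 1000) : ℝ)) ∧
      (∀ ε : ℝ, 0 < ε → ε ≤ 1 →
        ∫ θ in (0 : ℝ)..(2 * Real.pi),
          ‖deriv f (circleMap 0 (Real.exp (-ε)) θ)‖ * Real.exp (-ε) ≤
            C * ε ^ (-(258 / 1000) : ℝ))) ∧
    (∀ h : ℂ → ℂ, DifferentiableOn ℂ h (ball (0 : ℂ) 1) → h 0 = 0 →
      InjOn (fun z : ℂ => z + h z⁻¹) {z : ℂ | 1 < ‖z‖} →
      (∀ n : ℕ, 1 ≤ n →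
        ‖iteratedDeriv n h 0‖ / (n.factorial : ℝ) ≤ C * (n : ℝ) ^ (-(742 / 1000) : ℝ)) ∧
      (∀ ε : ℝ, 0 < ε → ε ≤ 1 →
        ∫ θ in (0 : ℝ)..(2 * Real.pi),
          ‖deriv (fun z : ℂ => z + h z⁻¹) (circleMap 0 (Real.exp ε) θ)‖ * Real.exp ε ≤
            C * ε ^ (-(258 / 1000) : ℝ))) :=
  H78.CN.final

end Pool.Agent.Results.MP_ecfee9_an.Exponent742
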