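import Pool.Agent.H78.CN.Hd

/-!
# CN-NU: the numbers

`q = 1999/2000`, `eta = 257629/1000000`, `e = 1/1000`, `bb = 463/1000`, `c0 = 2012/10000000`.
`R = q/eta = 999500/257629`, `A = R (1 + e) = 3.88348...`, `eta + 1 - q = 0.258129`, `2 - q = 1.0005`, quotient `0.258`.
* `nu_c`: `excess_mono` with this `A` and `β = bb R`: `f a (A+β)^2 <= f A (a+β)^2`, `f a = (1+a) log a - 2(a-1)`, so with
  `(a/R + bb)^2 = (a+β)^2/R^2` it is enough that `q (1-q) f A R^2 <= c0 (A+β)^2`; numerically
  `f A = 0.85862`, `q (1-q) f A R^2/(A+β)^2 = 0.00020020 < 0.0002012`.  `log A <= 1.357` is enough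
  (`f A <= 4.8835 * 1.357 - 5.76696 = 0.85995...`; e.g. `Real.log_le_iff_le_exp`, `exp 1.357 >= 3.8836` from a Taylor bound;
  exact value `log 3.883489 = 1.356734`).
* `nu_K`: rational arithmetic (`norm_num`): the value is `-7.6e-7`.
-/

set_option autoImplicit false

open Set

namespace H78.CN

theorem nu_log : Real.log (3884 / 1000) ≤ 1357 / 1000 := by
  rw [Real.log_le_iff_le_exp (by norm_num)]
  have h1 : Real.exp (1357 / 1000) = Real.exp 1 * Real.exp (357 / 1000) := by
    rw [← Real.exp_add]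
    norm_num
  have h2 := Real.exp_one_gt_d9
  have h3 := Real.sum_le_exp_of_nonneg (x := (357 / 1000 : ℝ)) (by norm_num) 5
  have h4 : (14289 / 10000 : ℝ) ≤ Real.exp (357 / 1000) := by
    refine le_trans ?_ h3
    simp only [Finset.sum_range_succ, Finset.sum_range_zero, Nat.factorial]
    norm_num
  rw [h1]
  nlinarith [Real.exp_pos (357 / 1000 : ℝ)]

theorem nu_c (a : ℝ) (ha : 1 ≤ a)
    (ha1 : a ≤ (1999 / 2000 : ℝ) / (257629 / 1000000) * (1 + 1 / 1000)) :
    (1999 / 2000 : ℝ) * (1 - 1999 / 2000) * ((1 + a) * Real.log a - 2 * (a - 1)) ≤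
      (2012 / 10000000 : ℝ) * (a / ((1999 / 2000 : ℝ) / (257629 / 1000000)) + 463 / 1000) ^ 2 := by
  have hA : (1999 / 2000 : ℝ) / (257629 / 1000000) * (1 + 1 / 1000) = 1000499500 / 257629000 := by
    norm_num
  rw [hA] at ha1
  have hm := excess_mono a (1000499500 / 257629000) (463 / 1000 * (999500 / 257629)) ha ha1
    (by norm_num) (by norm_num)
  have hl : Real.log (1000499500 / 257629000) ≤ 1357 / 1000 :=
    (Real.log_le_log (by norm_num) (by norm_num)).trans nu_log
  have hf : (1 + (1000499500 / 257629000 : ℝ)) * Real.log (1000499500 / 257629000) -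
      2 * (1000499500 / 257629000 - 1) ≤ (1 + (1000499500 / 257629000 : ℝ)) * (1357 / 1000) -
      2 * (1000499500 / 257629000 - 1) := by
    have := mul_le_mul_of_nonneg_left hl (show (0 : ℝ) ≤ 1 + 1000499500 / 257629000 by norm_num)
    linarith
  have hsq : a / ((1999 / 2000 : ℝ) / (257629 / 1000000)) + 463 / 1000 =
      (a + 463 / 1000 * (999500 / 257629)) * (257629 / 999500) := by
    have : ((1999 / 2000 : ℝ) / (257629 / 1000000)) = 999500 / 257629 := by norm_num
    rw [this]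
    field_simp
  rw [hsq]
  set F := (1 + a) * Real.log a - 2 * (a - 1) with hF
  set S := (a + 463 / 1000 * (999500 / 257629)) ^ 2 with hS
  have hS0 : 0 ≤ S := sq_nonneg _
  have h1 : F * ((1000499500 / 257629000 : ℝ) + 463 / 1000 * (999500 / 257629)) ^ 2 ≤
      ((1 + (1000499500 / 257629000 : ℝ)) * (1357 / 1000) -
      2 * (1000499500 / 257629000 - 1)) * S :=
    hm.trans (mul_le_mul_of_nonneg_right hf hS0)
  have h2 : ((a + 463 / 1000 * (999500 / 257629)) * (257629 / 999500)) ^ 2 =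
      S * (257629 / 999500 : ℝ) ^ 2 := by rw [mul_pow]
  rw [h2]
  norm_num at h1 ⊢
  nlinarith

theorem nu_K : -1 + (1999 / 2000 : ℝ) / (2 - 1999 / 2000) * ((1999 / 2000) / (257629 / 1000000)) *
      ((257629 / 1000000 + 1 - 1999 / 2000) / (2 - 1999 / 2000)) +
    (2012 / 10000000 : ℝ) * ((257629 / 1000000 + 1 - 1999 / 2000 + 1) / (2 - 1999 / 2000) *
      ((257629 / 1000000 + 1 - 1999 / 2000) / (2 - 1999 / 2000)) -
        2 * (463 / 1000) * ((257629 / 1000000 + 1 - 1999 / 2000) / (2 - 1999 / 2000)) +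
        (463 / 1000) ^ 2) < 0 := by
  norm_num

end H78.CN
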