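import Pool.Agent.H78.CN.Ib
import Pool.Agent.H78.CN.Pb
import Pool.Agent.H78.CN.Ho
import Pool.Agent.H78.CN.Nu

/-!
# CN-FB: the first mean, exponent 0.258

PROOF.  `q = 1999/2000`, `eta = 257629/1000000`, `e = 1/1000`, `b = 1/4000`, `c0 = 2012/10000000`, `bb = 463/1000`.
`int_bound` (with `nu_c`, `nu_K`) and `pbound_of_int`: `PP F p y <= C y^(-sg)`, `p = 2 - q = 1.0005`, `sg = eta + 1 - q = 0.258129`.
`holder`: `PP F 1 y <= (2 pi)^(1-1/p) (C y^(-sg))^(1/p) = C' y^(-sg/p)`, `sg/p = 0.258` exactly.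
-/

set_option autoImplicit false

open Set Metric MeasureTheory H62.CJ

namespace H78.CN

theorem P1_258 (M : ℝ) : ∃ C : ℝ, 0 < C ∧ ∀ F : ℂ → ℂ, Cls F M → NP F →
    (∀ z : ℂ, 0 < z.im → z.im ≤ 3 → ‖F z‖ ≤ M) → ∀ y : ℝ, 0 < y → y ≤ 1 →
      PP F 1 y ≤ C * y ^ (-(258 / 1000) : ℝ) := by
  obtain ⟨C0, hC0, hI⟩ := int_bound M (1999 / 2000) (257629 / 1000000) (1 / 1000)
    (2012 / 10000000) (463 / 1000) (1 / 4000) (by norm_num) (by norm_num) (by norm_num)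
    (by norm_num) (by norm_num) nu_c (by norm_num) (by norm_num) (by norm_num) nu_K
  obtain ⟨C, hC, hP⟩ := pbound_of_int M (1999 / 2000) (257629 / 1000000) (1 / 4000) C0
    (by norm_num) (by norm_num) (by norm_num) (by norm_num) (by norm_num) (by norm_num) hI
  refine ⟨(2 * Real.pi) ^ (1 - 1 / (2 - 1999 / 2000 : ℝ)) * C ^ (1 / (2 - 1999 / 2000 : ℝ)),
    mul_pos (Real.rpow_pos_of_pos (by positivity) _) (Real.rpow_pos_of_pos hC _), ?_⟩
  intro F hF hNP hb y hy hy1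
  have h1 := holder F M hF (2 - 1999 / 2000) y (by norm_num) hy
  have h2 := hP F hF hNP hb y hy hy1
  have h3 : 0 ≤ PP F (2 - 1999 / 2000) y := by
    unfold PP
    exact intervalIntegral.integral_nonneg (by positivity)
      fun x _ => Real.rpow_nonneg (norm_nonneg _) _
  have h4 : (PP F (2 - 1999 / 2000) y) ^ (1 / (2 - 1999 / 2000 : ℝ)) ≤
      (C * y ^ (-(257629 / 1000000 + 1 - 1999 / 2000 : ℝ))) ^ (1 / (2 - 1999 / 2000 : ℝ)) :=
    Real.rpow_le_rpow h3 h2 (by norm_num)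
  have h5 : (C * y ^ (-(257629 / 1000000 + 1 - 1999 / 2000 : ℝ))) ^ (1 / (2 - 1999 / 2000 : ℝ)) =
      C ^ (1 / (2 - 1999 / 2000 : ℝ)) * y ^ (-(258 / 1000) : ℝ) := by
    rw [Real.mul_rpow hC.le (Real.rpow_nonneg hy.le _), ← Real.rpow_mul hy.le]
    congr 2
    norm_num
  rw [h5] at h4
  calc PP F 1 y ≤ (2 * Real.pi) ^ (1 - 1 / (2 - 1999 / 2000 : ℝ)) *
        (PP F (2 - 1999 / 2000) y) ^ (1 / (2 - 1999 / 2000 : ℝ)) := h1
    _ ≤ (2 * Real.pi) ^ (1 - 1 / (2 - 1999 / 2000 : ℝ)) *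
        (C ^ (1 / (2 - 1999 / 2000 : ℝ)) * y ^ (-(258 / 1000) : ℝ)) :=
      mul_le_mul_of_nonneg_left h4 (Real.rpow_nonneg (by positivity) _)
    _ = _ := by ring

end H78.CN
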