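import Pool.Agent.H78.CN.Def

/-!
# CN-HA: maximising Hs in s

`0 < q < 1`, `0 < eta < q`, `R = q/eta`.  For `s > 0` (and fixed `k`)
`d/ds Hs = q s^(-q-1) - eta s^(-q) + k (q s^(-q) - eta s^(1-q)) = s^(-q-1) (1 + k s)(q - eta s)`.
* `hs_flat`: `k >= -1/R`.  On `(0, R]`: `1 + k t >= 1 - t/R >= 0` and `q - eta t >= 0`, so `Hs` is monotone there; on
  `[R, s]`: `q - eta t <= 0` and `1 + k t >= 0` (if `k < 0`: `1 + k t >= 1 + k s >= 0`).  So `Hs s <= Hs R`, and with
  `eta R = q`: `Hs R = R^(-q)/(1-q) * (-1 + (q/(2-q)) R k)` (`R^(1-q) = R R^(-q)`, `R^(2-q) = R^2 R^(-q)`).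
* `hs_focal`: `k < -1/R`, `0 < s <= -1/k =: s2 < R`.  On `(0, s2]` the derivative is `>= 0`, so
  `Hs s <= Hs s2`, and with `a = - R k > 1`, `s2 = R/a`:
  `Hs s2 = -s2^(-q) - eta s2^(1-q)/(1-q) - q s2^(-q)/(1-q) + eta s2^(1-q)/(2-q)
         = R^(-q)/(1-q) * (- a^q - (q/(2-q)) a^(q-1))`
  (`k s2 = -1`; `s2^(-q) = R^(-q) a^q`, `s2^(1-q) = R^(1-q) a^(q-1)`, `eta R = q`).
-/

set_option autoImplicit false

open Set

namespace H78.CN

theorem hs_deriv (q eta k s : ℝ) (hq1 : q < 1) (hs : 0 < s) :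
    HasDerivAt (fun t => Hs q eta t k) (s ^ (-q - 1) * (1 + k * s) * (q - eta * s)) s := by
  unfold Hs
  have h1 : HasDerivAt (fun t : ℝ => t ^ (-q)) (-q * s ^ (-q - 1)) s :=
    Real.hasDerivAt_rpow_const (Or.inl hs.ne')
  have h2 : HasDerivAt (fun t : ℝ => t ^ (1 - q) / (1 - q)) (s ^ (-q)) s := by
    have h := (Real.hasDerivAt_rpow_const (p := 1 - q) (Or.inl hs.ne')).div_const (1 - q)
    have e : (1 - q) * s ^ (1 - q - 1) / (1 - q) = s ^ (-q) := by
      rw [mul_div_cancel_left₀ _ (by linarith : (1 - q) ≠ 0)]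
      congr 1; ring
    rwa [e] at h
  have h3 : HasDerivAt (fun t : ℝ => t ^ (2 - q) / (2 - q)) (s ^ (1 - q)) s := by
    have h := (Real.hasDerivAt_rpow_const (p := 2 - q) (Or.inl hs.ne')).div_const (2 - q)
    have e : (2 - q) * s ^ (2 - q - 1) / (2 - q) = s ^ (1 - q) := by
      rw [mul_div_cancel_left₀ _ (by linarith : (2 - q) ≠ 0)]
      congr 1; ring
    rwa [e] at h
  have h4 := (h1.neg.sub (h2.const_mul eta)).add
    (((h2.const_mul q).sub (h3.const_mul eta)).const_mul k)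
  refine h4.congr_deriv ?_
  have e1 : s ^ (-q) = s ^ (-q - 1) * s := by
    rw [← Real.rpow_add_one hs.ne']; congr 1; ring
  have e2 : s ^ (1 - q) = s ^ (-q - 1) * s ^ 2 := by
    rw [← Real.rpow_natCast, ← Real.rpow_add hs]; congr 1; push_cast; ring
  rw [e1, e2]
  ring

private theorem Ha_cont (q eta k : ℝ) (hq1 : q < 1) {a b : ℝ} (ha : 0 < a) :
    ContinuousOn (fun t => Hs q eta t k) (Icc a b) := fun t ht =>
  (hs_deriv q eta k t hq1 (lt_of_lt_of_le ha ht.1)).continuousAt.continuousWithinAt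

private theorem Ha_mono (q eta k : ℝ) (hq1 : q < 1) {a b : ℝ} (ha : 0 < a) (hab : a ≤ b)
    (h1 : ∀ t, a < t → t < b → 0 ≤ (1 + k * t) * (q - eta * t)) :
    Hs q eta a k ≤ Hs q eta b k := by
  have h := monotoneOn_of_deriv_nonneg (convex_Icc a b) (Ha_cont q eta k hq1 ha)
    (fun t ht => by
      rw [interior_Icc] at ht
      exact (hs_deriv q eta k t hq1 (ha.trans ht.1)).differentiableAt.differentiableWithinAt)
    (fun t ht => by
      rw [interior_Icc] at ht
      rw [(hs_deriv q eta k t hq1 (ha.trans ht.1)).deriv, mul_assoc]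
      exact mul_nonneg (Real.rpow_nonneg (ha.trans ht.1).le _) (h1 t ht.1 ht.2))
  exact h (left_mem_Icc.2 hab) (right_mem_Icc.2 hab) hab

private theorem Ha_anti (q eta k : ℝ) (hq1 : q < 1) {a b : ℝ} (ha : 0 < a) (hab : a ≤ b)
    (h1 : ∀ t, a < t → t < b → (1 + k * t) * (q - eta * t) ≤ 0) :
    Hs q eta b k ≤ Hs q eta a k := by
  have h := antitoneOn_of_deriv_nonpos (convex_Icc a b) (Ha_cont q eta k hq1 ha)
    (fun t ht => by
      rw [interior_Icc] at ht
      exact (hs_deriv q eta k t hq1 (ha.trans ht.1)).differentiableAt.differentiableWithinAt)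
    (fun t ht => by
      rw [interior_Icc] at ht
      rw [(hs_deriv q eta k t hq1 (ha.trans ht.1)).deriv, mul_assoc]
      exact mul_nonpos_of_nonneg_of_nonpos (Real.rpow_nonneg (ha.trans ht.1).le _)
        (h1 t ht.1 ht.2))
  exact h (left_mem_Icc.2 hab) (right_mem_Icc.2 hab) hab

private theorem Ha_val (q eta k x : ℝ) (_hq1 : q < 1) (hx : 0 < x) :
    Hs q eta x k = x ^ (-q) * (-1 - eta * (x / (1 - q)) +
      k * (q * (x / (1 - q)) - eta * (x ^ 2 / (2 - q)))) := by
  unfold Hs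
  have e1 : x ^ (1 - q) = x ^ (-q) * x := by
    rw [← Real.rpow_add_one hx.ne']; congr 1; ring
  have e2 : x ^ (2 - q) = x ^ (-q) * x ^ 2 := by
    rw [← Real.rpow_natCast, ← Real.rpow_add hx]; congr 1; push_cast; ring
  rw [e1, e2]
  ring

theorem hs_flat (q eta k s : ℝ) (hq : 0 < q) (hq1 : q < 1) (he : 0 < eta)
    (hk : -(eta / q) ≤ k) (hs : 0 < s) (hks : 0 ≤ 1 + k * s) :
    Hs q eta s k ≤ (q / eta) ^ (-q) / (1 - q) * (-1 + q / (2 - q) * (q / eta) * k) := by
  have hR : 0 < q / eta := div_pos hq he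
  have hval : (q / eta) ^ (-q) / (1 - q) * (-1 + q / (2 - q) * (q / eta) * k) =
      Hs q eta (q / eta) k := by
    rw [Ha_val q eta k (q / eta) hq1 hR]
    have h1 : (1 - q) ≠ 0 := by linarith
    have h2 : (2 - q) ≠ 0 := by linarith
    field_simp
    ring
  rw [hval]
  rcases le_total s (q / eta) with h | h
  · apply Ha_mono q eta k hq1 hs h
    intro t ht1 ht2
    have h3 : t * eta ≤ q := by
      have := (lt_div_iff₀ he).1 ht2
      exact this.le
    have h4 : 0 < t := hs.trans ht1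
    apply mul_nonneg
    · have h5 : -(eta / q) * t ≤ k * t := mul_le_mul_of_nonneg_right hk h4.le
      have h6 : eta / q * t ≤ 1 := by
        rw [div_mul_eq_mul_div, div_le_one hq]; linarith
      linarith
    · linarith
  · apply Ha_anti q eta k hq1 hR h
    intro t ht1 ht2
    have h3 : q ≤ t * eta := by
      have := (div_lt_iff₀ he).1 ht1
      exact this.le
    have h4 : 0 < t := hR.trans ht1
    apply mul_nonpos_of_nonneg_of_nonpos
    · rcases le_total 0 k with h5 | h5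
      · positivity
      · nlinarith
    · linarith

theorem hs_focal (q eta k s : ℝ) (hq : 0 < q) (hq1 : q < 1) (he : 0 < eta)
    (hk : k < -(eta / q)) (hs : 0 < s) (hks : 0 ≤ 1 + k * s) :
    Hs q eta s k ≤ (q / eta) ^ (-q) / (1 - q) *
      (-(-(q / eta) * k) ^ q - q / (2 - q) * (-(q / eta) * k) ^ (q - 1)) := by
  have hR : 0 < q / eta := div_pos hq he
  have hk0 : k < 0 := by
    have : 0 < eta / q := div_pos he hq
    linarith
  have hm : 0 < -k := by linarith
  have hs2 : 0 < 1 / (-k) := by positivity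
  have hs2s : s ≤ 1 / (-k) := by
    rw [le_div_iff₀ hm]; linarith
  have hval : (q / eta) ^ (-q) / (1 - q) *
      (-(-(q / eta) * k) ^ q - q / (2 - q) * (-(q / eta) * k) ^ (q - 1)) =
      Hs q eta (1 / (-k)) k := by
    have ha : 0 < -(q / eta) * k := by nlinarith
    rw [Ha_val q eta k (1 / (-k)) hq1 hs2]
    have e1 : (1 / (-k)) ^ (-q) = (q / eta) ^ (-q) * (-(q / eta) * k) ^ q := by
      have e2 : (1 / (-k)) = (q / eta) * (-(q / eta) * k)⁻¹ := by
        field_simp
      rw [e2, Real.mul_rpow hR.le (inv_nonneg.2 ha.le), Real.inv_rpow ha.le, ← Real.rpow_neg ha.le,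
        neg_neg]
    have e3 : (-(q / eta) * k) ^ (q - 1) = (-(q / eta) * k) ^ q / (-(q / eta) * k) :=
      Real.rpow_sub_one ha.ne' q
    rw [e1, e3]
    have h1 : (1 - q) ≠ 0 := by linarith
    have h2 : (2 - q) ≠ 0 := by linarith
    generalize (-(q / eta) * k) ^ q = X
    generalize (q / eta) ^ (-q) = Y
    have hkne : k ≠ 0 := hk0.ne
    field_simp
    ring
  rw [hval]
  apply Ha_mono q eta k hq1 hs hs2s
  intro t ht1 ht2
  have h4 : 0 < t := hs.trans ht1
  have h5 : t * (-k) < 1 := (lt_div_iff₀ hm).1 ht2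
  apply mul_nonneg
  · linarith
  · have h6 : eta / q < -k := by linarith
    have h7 : t * (eta / q) ≤ 1 := by nlinarith
    have h8 : t * (eta / q) * q = t * eta := by field_simp
    nlinarith

end H78.CN
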