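import Mathlib

/-!
# CN-HD: monotonicity of the excess quotient

`f a = (1+a) log a - 2 (a-1)`, `β > 0`, `1 <= a <= A <= 49/10`: `f a (A+β)^2 <= f A (a+β)^2`.

PROOF.  Let `g a = (a+β)(log a + 1/a - 1) - 2 f a`; then `(f a/(a+β)^2)' = g a/(a+β)^3` since
`f' a = log a + 1/a - 1`.  `g 1 = 0` and
`g' a = -(log a + 1/a - 1) + (a+β)(a-1)/a^2 = h a + β (a-1)/a^2`, `h a = 2 (a-1)/a - log a`.
`h >= 0` on `[1, 49/10]`: `h' a = (2-a)/a^2`, so `h` increases on `[1,2]` from `h 1 = 0` and decreases on
`[2, 49/10]` to `h (49/10) = 78/49 - log (49/10) > 0` (`1.59183 > 1.58924`; `log 4.9 < 1.5901`: e.g.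
`exp 1.5901 > 4.9` from a Taylor lower bound of `exp`, or `log 4.9 = 2 log 7 - log 10`).
So `g >= 0` on `[1, 49/10]` and the quotient `f a/(a+β)^2` is monotone there (`monotoneOn_of_deriv_nonneg`).
-/

set_option autoImplicit false

open Set

namespace H78.CN

theorem hd_log : Real.log (49 / 10) ≤ 15901 / 10000 := by
  rw [Real.log_le_iff_le_exp (by norm_num)]
  have h1 : Real.exp (15901 / 10000) = Real.exp 1 * Real.exp (5901 / 10000) := by
    rw [← Real.exp_add]
    norm_num
  have h2 := Real.exp_one_gt_d9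
  have h3 := Real.sum_le_exp_of_nonneg (x := (5901 / 10000 : ℝ)) (by norm_num) 5
  have h4 : (18030 / 10000 : ℝ) ≤ Real.exp (5901 / 10000) := by
    refine le_trans ?_ h3
    simp only [Finset.sum_range_succ, Finset.sum_range_zero, Nat.factorial]
    norm_num
  rw [h1]
  nlinarith [Real.exp_pos (5901 / 10000 : ℝ)]

theorem hd_aux (a : ℝ) (ha : 1 ≤ a) (ha1 : a ≤ 49 / 10) : Real.log a ≤ 2 * (a - 1) / a := by
  have ha0 : 0 < a := by linarith
  rw [le_div_iff₀ ha0]
  rcases le_total a 2 with h2 | h2
  · have h3 : Real.sqrt a ^ 2 = a := Real.sq_sqrt ha0.le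
    have h4 : 1 ≤ Real.sqrt a := Real.one_le_sqrt.2 ha
    have h5 : Real.log a = 2 * Real.log (Real.sqrt a) := by
      conv_lhs => rw [← h3]
      rw [Real.log_pow]
      norm_num
    have h6 : Real.log (Real.sqrt a) ≤ Real.sqrt a - 1 :=
      Real.log_le_sub_one_of_pos (by linarith)
    set t := Real.sqrt a with ht
    have h7 : Real.log a * a ≤ 2 * (t - 1) * a := by
      apply mul_le_mul_of_nonneg_right _ ha0.le
      rw [h5]
      linarith
    refine h7.trans ?_
    have h8 : t ^ 2 ≤ 2 := by rw [h3]; exact h2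
    rw [← h3]
    nlinarith [mul_nonneg (sub_nonneg.2 h4) (by nlinarith : 0 ≤ t + 1 - t ^ 2)]
  · have h3 : Real.log a = Real.log (49 / 10) + Real.log (a / (49 / 10)) := by
      have h31 := Real.log_div ha0.ne' (show (49 / 10 : ℝ) ≠ 0 by norm_num)
      linarith
    have h4 : Real.log (a / (49 / 10)) ≤ a / (49 / 10) - 1 :=
      Real.log_le_sub_one_of_pos (by positivity)
    have h5 := hd_log
    have h6 : Real.log a ≤ 15901 / 10000 + (a / (49 / 10) - 1) := by
      rw [h3]
      linarith
    have h7 : Real.log a * a ≤ (15901 / 10000 + (a / (49 / 10) - 1)) * a :=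
      mul_le_mul_of_nonneg_right h6 ha0.le
    refine h7.trans ?_
    nlinarith [mul_nonneg (sub_nonneg.2 h2) (sub_nonneg.2 ha1)]

theorem excess_mono (a A β : ℝ) (ha : 1 ≤ a) (haA : a ≤ A) (hA : A ≤ 49 / 10) (hβ : 0 < β) :
    ((1 + a) * Real.log a - 2 * (a - 1)) * (A + β) ^ 2 ≤
      ((1 + A) * Real.log A - 2 * (A - 1)) * (a + β) ^ 2 := by
  have hfd : ∀ x : ℝ, 0 < x → HasDerivAt (fun x : ℝ => (1 + x) * Real.log x - 2 * (x - 1))
      (Real.log x + 1 / x - 1) x := by
    intro x hx
    have h1 : HasDerivAt (fun x : ℝ => 1 + x) 1 x := (hasDerivAt_id x).const_add 1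
    have h2 := h1.mul (Real.hasDerivAt_log hx.ne')
    have h3 : HasDerivAt (fun x : ℝ => 2 * (x - 1)) (2 * 1) x :=
      ((hasDerivAt_id x).sub_const 1).const_mul 2
    have h4 := h2.sub h3
    refine h4.congr_deriv ?_
    field_simp
    ring
  have hgd : ∀ x : ℝ, 0 < x → HasDerivAt (fun x : ℝ => (x + β) * (Real.log x + 1 / x - 1) -
      2 * ((1 + x) * Real.log x - 2 * (x - 1)))
      (2 * (x - 1) / x - Real.log x + β * (x - 1) / x ^ 2) x := by
    intro x hx
    have h1 : HasDerivAt (fun x : ℝ => x + β) 1 x := (hasDerivAt_id x).add_const β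
    have h2 : HasDerivAt (fun x : ℝ => Real.log x + 1 / x - 1) (x⁻¹ + -1 / x ^ 2) x := by
      have h21 : HasDerivAt (fun x : ℝ => 1 / x) (-1 / x ^ 2) x := by
        have := hasDerivAt_inv hx.ne'
        simp only [one_div]
        refine this.congr_deriv ?_
        field_simp
      exact ((Real.hasDerivAt_log hx.ne').add h21).sub_const 1
    have h4 := (h1.mul h2).sub ((hfd x hx).const_mul 2)
    refine h4.congr_deriv ?_
    field_simp
    ring
  have hg0 : ∀ x ∈ Icc (1 : ℝ) (49 / 10), 0 ≤ (x + β) * (Real.log x + 1 / x - 1) -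
      2 * ((1 + x) * Real.log x - 2 * (x - 1)) := by
    have hmono : MonotoneOn (fun x : ℝ => (x + β) * (Real.log x + 1 / x - 1) -
      2 * ((1 + x) * Real.log x - 2 * (x - 1))) (Icc (1 : ℝ) (49 / 10)) := by
      apply monotoneOn_of_deriv_nonneg (convex_Icc _ _)
      · intro x hx
        exact (hgd x (by linarith [hx.1])).continuousAt.continuousWithinAt
      · intro x hx
        rw [interior_Icc] at hx
        exact (hgd x (by linarith [hx.1])).differentiableAt.differentiableWithinAt
      · intro x hx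
        rw [interior_Icc] at hx
        rw [(hgd x (by linarith [hx.1])).deriv]
        have h1 := hd_aux x hx.1.le hx.2.le
        have h2 : 0 ≤ β * (x - 1) / x ^ 2 :=
          div_nonneg (mul_nonneg hβ.le (by linarith [hx.1])) (by positivity)
        linarith
    intro x hx
    have := hmono (left_mem_Icc.2 (by norm_num)) hx hx.1
    simp only [Real.log_one] at this
    norm_num at this
    have h5 : (x + β) * (Real.log x + 1 / x - 1) -
      2 * ((1 + x) * Real.log x - 2 * (x - 1)) = (x + β) * (Real.log x + 1 / x - 1) -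
      2 * ((1 + x) * Real.log x - 2 * (x - 1)) := rfl
    simp only [one_div]
    linarith
  have hq : MonotoneOn (fun x : ℝ => ((1 + x) * Real.log x - 2 * (x - 1)) / (x + β) ^ 2)
      (Icc (1 : ℝ) (49 / 10)) := by
    have hqd : ∀ x : ℝ, 0 < x → HasDerivAt
        (fun x : ℝ => ((1 + x) * Real.log x - 2 * (x - 1)) / (x + β) ^ 2)
        (((x + β) * (Real.log x + 1 / x - 1) -
          2 * ((1 + x) * Real.log x - 2 * (x - 1))) / (x + β) ^ 3) x := by
      intro x hx
      have h1 : HasDerivAt (fun x : ℝ => x + β) 1 x := (hasDerivAt_id x).add_const β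
      have h2 := h1.pow 2
      have hne : (x + β) ≠ 0 := by positivity
      have h3 := (hfd x hx).div h2 (pow_ne_zero 2 hne)
      refine h3.congr_deriv ?_
      simp only [Nat.cast_ofNat, Pi.pow_apply]
      field_simp
      ring
    apply monotoneOn_of_deriv_nonneg (convex_Icc _ _)
    · intro x hx
      exact (hqd x (by linarith [hx.1])).continuousAt.continuousWithinAt
    · intro x hx
      rw [interior_Icc] at hx
      exact (hqd x (by linarith [hx.1])).differentiableAt.differentiableWithinAt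
    · intro x hx
      rw [interior_Icc] at hx
      rw [(hqd x (by linarith [hx.1])).deriv]
      have hx0 : 0 < x := by linarith [hx.1]
      exact div_nonneg (hg0 x ⟨hx.1.le, hx.2.le⟩) (by positivity)
  have h := hq ⟨ha, haA.trans hA⟩ ⟨ha.trans haA, hA⟩ haA
  simp only at h
  have ha0 : 0 < a + β := by linarith
  have hA0 : 0 < A + β := by linarith
  rwa [div_le_div_iff₀ (by positivity) (by positivity)] at h

end H78.CN
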