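import Pool.Agent.H78.CN.As

/-!
# CN-IB: the integral bound

PROOF.  `p = 2 - q`, `sg = eta + 1 - q > 0` (`sg - 1 = eta - q`), `r1 = q/(2-q) * (q/eta)`, `X0 = (q/eta)^(-q)/(1-q) > 0`,
`I, J1, J2` the three integrals of `master_delta`.  `mo_1`, `mo_2`: `J1 = -(1/p) b^sg PP b + (sg/p) I`,
`J2 = -(1/p) b^sg B1 b + ((sg+1)/p) J1`.  Hence `-I + r1 J1 + c0 (J2 - 2 bb J1 + bb^2 I) = K I + E`, `K < 0` the number in `hK`,
`E = -(1/p) b^sg (r1 PP b + c0 (B1 b + ((sg+1)/p - 2 bb) PP b))`, and `|E| <= E0` where `E0` depends only on the parameters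
(`PP F p b <= 2 pi (|M|/b)^p` by `PP_le`, `|B1| <= 4 PP` by `B1_le`).
`(1+δ)^(eta-1) ((1+δ)^4)^(-q) >= (1+δ)^(-1) (1+δ)^(-4) >= 1 - 5 δ` (Bernoulli `one_add_mul_le_pow`-type:
`(1+δ)^5 (1 - 5 δ) <= 1`, e.g. `(1 - 5δ) <= (1-δ)^5`... or `(1+δ)^(-5) >= 1 - 5δ` via `one_add_mul_self_le_rpow_one_add`).
So (`I >= 0`) `master_delta` gives
`- K X0 δ I <= CB + δ X0 E0 + (c + 5/(1-q)) δ^(2-q) I`; with `δ^(2-q) = δ δ^(1-q)` and `δ = min δ0 δ1`, where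
`(c + 5/(1-q)) δ1^(1-q) <= - K X0/2`: `I <= 2 (CB/δ + X0 E0)/(- K X0)`.
-/

set_option autoImplicit false

open Set Metric MeasureTheory H62.CJ

namespace H78.CN

theorem Ib_low (q eta δ : ℝ) (hq1 : q < 1) (he : 0 < eta) (hδ : 0 < δ) :
    1 - 5 * δ ≤ (1 + δ) ^ (eta - 1) * ((1 + δ) ^ 4) ^ (-q) := by
  have h1 : (1 : ℝ) ≤ 1 + δ := by linarith
  have h4 : (1 : ℝ) ≤ (1 + δ) ^ 4 := one_le_pow₀ h1
  have h2 : (1 + δ) ^ (-1 : ℝ) ≤ (1 + δ) ^ (eta - 1) :=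
    Real.rpow_le_rpow_of_exponent_le h1 (by linarith)
  have h3 : ((1 + δ) ^ 4) ^ (-1 : ℝ) ≤ ((1 + δ) ^ 4) ^ (-q) :=
    Real.rpow_le_rpow_of_exponent_le h4 (by linarith)
  have h5 : (1 + δ) ^ (-1 : ℝ) * ((1 + δ) ^ 4) ^ (-1 : ℝ) ≤
      (1 + δ) ^ (eta - 1) * ((1 + δ) ^ 4) ^ (-q) :=
    mul_le_mul h2 h3 (Real.rpow_nonneg (by positivity) _) (Real.rpow_nonneg (by positivity) _)
  refine le_trans ?_ h5
  rw [Real.rpow_neg_one, Real.rpow_neg_one, ← mul_inv, ← one_div, le_div_iff₀ (by positivity)]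
  have h6 : (1 - 5 * δ) * ((1 + δ) * (1 + δ) ^ 4) =
      1 - (15 * δ ^ 2 + 40 * δ ^ 3 + 45 * δ ^ 4 + 24 * δ ^ 5 + 5 * δ ^ 6) := by ring
  rw [h6]
  have h7 : 0 ≤ 15 * δ ^ 2 + 40 * δ ^ 3 + 45 * δ ^ 4 + 24 * δ ^ 5 + 5 * δ ^ 6 := by positivity
  linarith

theorem Ib_PP_nonneg (F : ℂ → ℂ) (p y : ℝ) : 0 ≤ PP F p y := by
  unfold PP
  exact intervalIntegral.integral_nonneg (by positivity)
    fun x _ => Real.rpow_nonneg (norm_nonneg _) _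

theorem int_bound (M q eta e c0 bb b : ℝ) (hq : 0 < q) (hq1 : q < 1) (he : 0 < eta)
    (heq : eta < q) (hc0 : 0 ≤ c0)
    (hc : ∀ a : ℝ, 1 ≤ a → a ≤ q / eta * (1 + e) →
      q * (1 - q) * ((1 + a) * Real.log a - 2 * (a - 1)) ≤ c0 * (a / (q / eta) + bb) ^ 2)
    (hb : 0 < b) (hb1 : b ≤ 1 / 4) (hbe : 4 * b ≤ e)
    (hK : -1 + q / (2 - q) * (q / eta) * ((eta + 1 - q) / (2 - q)) +
      c0 * ((eta + 1 - q + 1) / (2 - q) * ((eta + 1 - q) / (2 - q)) -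
        2 * bb * ((eta + 1 - q) / (2 - q)) + bb ^ 2) < 0) :
    ∃ C : ℝ, 0 < C ∧ ∀ F : ℂ → ℂ, Cls F M → NP F →
      (∃ L : ℝ, ∀ x y : ℝ, 0 < y → y ≤ 1 / 2 → ‖deriv F (pt x y)‖ ≤ L) →
      ∫ y in Ioc 0 b, y ^ (eta - q) * PP F (2 - q) y ≤ C := by
  obtain ⟨c, hcpos, δ0, hδ0, hδ01, CB, hCB, hmain⟩ :=
    master_delta M q eta e c0 bb b hq hq1 he heq hc0 hc hb hb1 hbe
  have hp : 0 < 2 - q := by linarith
  have hs : 0 < eta + 1 - q := by linarith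
  have h1q : 0 < 1 - q := by linarith
  obtain ⟨K, hKd⟩ : ∃ K : ℝ, K = -1 + q / (2 - q) * (q / eta) * ((eta + 1 - q) / (2 - q)) +
      c0 * ((eta + 1 - q + 1) / (2 - q) * ((eta + 1 - q) / (2 - q)) -
        2 * bb * ((eta + 1 - q) / (2 - q)) + bb ^ 2) := ⟨_, rfl⟩
  rw [← hKd] at hK
  obtain ⟨X0, hX0⟩ : ∃ X0 : ℝ, X0 = (q / eta) ^ (-q) / (1 - q) := ⟨_, rfl⟩
  have hX0pos : 0 < X0 := by
    rw [hX0]
    exact div_pos (Real.rpow_pos_of_pos (div_pos hq he) _) h1q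
  obtain ⟨r1, hr1⟩ : ∃ r1 : ℝ, r1 = q / (2 - q) * (q / eta) := ⟨_, rfl⟩
  have hr1pos : 0 ≤ r1 := by
    rw [hr1]
    exact mul_nonneg (div_nonneg hq.le hp.le) (div_nonneg hq.le he.le)
  obtain ⟨P0, hP0⟩ : ∃ P0 : ℝ, P0 = |2 * Real.pi * (M / b) ^ (2 - q)| := ⟨_, rfl⟩
  have hP0pos : 0 ≤ P0 := by
    rw [hP0]
    exact abs_nonneg _
  obtain ⟨β, hβ⟩ : ∃ β : ℝ, β = 1 / (2 - q) * b ^ (eta + 1 - q) := ⟨_, rfl⟩
  have hβpos : 0 ≤ β := by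
    rw [hβ]
    exact mul_nonneg (by positivity) (Real.rpow_nonneg hb.le _)
  obtain ⟨κ, hκ⟩ : ∃ κ : ℝ, κ = (eta + 1 - q + 1) / (2 - q) - 2 * bb := ⟨_, rfl⟩
  obtain ⟨E0, hE0⟩ : ∃ E0 : ℝ, E0 = β * (r1 * P0 + c0 * (4 * P0 + |κ| * P0)) := ⟨_, rfl⟩
  have hE0pos : 0 ≤ E0 := by
    rw [hE0]
    positivity
  -- the choice of delta
  have hKX : 0 < -K * X0 / 2 := by
    have := mul_pos (neg_pos.2 hK) hX0pos
    linarith
  have hcc : 0 < c + 5 / (1 - q) := by positivity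
  obtain ⟨δ1, hδ1⟩ : ∃ δ1 : ℝ, δ1 = ((-K * X0 / 2) / (c + 5 / (1 - q))) ^ (1 / (1 - q)) :=
    ⟨_, rfl⟩
  have hδ1pos : 0 < δ1 := by
    rw [hδ1]
    exact Real.rpow_pos_of_pos (div_pos hKX hcc) _
  have hδ1pow : δ1 ^ (1 - q) = (-K * X0 / 2) / (c + 5 / (1 - q)) := by
    rw [hδ1, ← Real.rpow_mul (div_pos hKX hcc).le, one_div, inv_mul_cancel₀ h1q.ne', Real.rpow_one]
  obtain ⟨δ, hδ⟩ : ∃ δ : ℝ, δ = min δ0 δ1 := ⟨_, rfl⟩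
  have hδpos : 0 < δ := by
    rw [hδ]
    exact lt_min hδ0 hδ1pos
  have hδle : δ ≤ δ0 := by
    rw [hδ]
    exact min_le_left _ _
  have hδle1 : δ ≤ δ1 := by
    rw [hδ]
    exact min_le_right _ _
  obtain ⟨D, hD⟩ : ∃ D : ℝ, D = δ ^ (1 - q) := ⟨_, rfl⟩
  have hDpos : 0 < D := by
    rw [hD]
    exact Real.rpow_pos_of_pos hδpos _
  have hDle : (c + 5 / (1 - q)) * D ≤ -K * X0 / 2 := by
    have h1 : D ≤ (-K * X0 / 2) / (c + 5 / (1 - q)) := by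
      rw [hD, ← hδ1pow]
      exact Real.rpow_le_rpow hδpos.le hδle1 h1q.le
    rw [le_div_iff₀ hcc] at h1
    linarith
  have hD2 : δ ^ (2 - q) = δ * D := by
    rw [hD, show (2 - q : ℝ) = 1 + (1 - q) by ring, Real.rpow_add hδpos, Real.rpow_one]
  have hlow := Ib_low q eta δ hq1 he hδpos
  refine ⟨2 * (CB / δ + X0 * E0) / (-K * X0), ?_, ?_⟩
  · have h1 : 0 < -K * X0 := by linarith
    have h2 : 0 < CB / δ := div_pos hCB hδpos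
    have h3 : 0 ≤ X0 * E0 := mul_nonneg hX0pos.le hE0pos
    exact div_pos (by linarith) h1
  intro F hF hNP hL
  have hm := hmain F hF hNP hL δ hδpos hδle
  obtain ⟨L, hL'⟩ := hL
  have hb2 : b ≤ 1 / 2 := by linarith
  have e1 : eta + 1 - q - 1 = eta - q := by ring
  have hJ1 := mo_1 F M hF L hL' (2 - q) (eta + 1 - q) b hp hs hb hb2
  have hJ2 := mo_2 F M hF L hL' (2 - q) (eta + 1 - q) b hp hs hb hb2
  rw [e1] at hJ1 hJ2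
  obtain ⟨I, hI⟩ : ∃ I : ℝ, I = ∫ y in Ioc 0 b, y ^ (eta - q) * PP F (2 - q) y := ⟨_, rfl⟩
  obtain ⟨J1, hJ1d⟩ : ∃ J1 : ℝ, J1 = ∫ y in Ioc 0 b, y ^ (eta - q) * B1 F (2 - q) y := ⟨_, rfl⟩
  obtain ⟨J2, hJ2d⟩ : ∃ J2 : ℝ, J2 = ∫ y in Ioc 0 b, y ^ (eta - q) * B2 F (2 - q) y := ⟨_, rfl⟩
  rw [← hI, ← hJ1d] at hJ1
  rw [← hJ1d, ← hJ2d] at hJ2
  rw [← hI, ← hJ1d, ← hJ2d, hD2, ← hD, ← hX0, ← hr1] at hm
  rw [← hI]
  have hI0 : 0 ≤ I := by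
    rw [hI]
    exact setIntegral_nonneg measurableSet_Ioc fun y hy =>
      mul_nonneg (Real.rpow_nonneg hy.1.le _) (Ib_PP_nonneg _ _ _)
  obtain ⟨P, hP⟩ : ∃ P : ℝ, P = PP F (2 - q) b := ⟨_, rfl⟩
  obtain ⟨Q, hQ⟩ : ∃ Q : ℝ, Q = B1 F (2 - q) b := ⟨_, rfl⟩
  have hPpos : 0 ≤ P := by
    rw [hP]
    exact Ib_PP_nonneg _ _ _
  have hPle : P ≤ P0 := by
    rw [hP, hP0]
    exact (PP_le F M hF (2 - q) b hp.le hb (by linarith)).trans (le_abs_self _)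
  have hQle : |Q| ≤ 4 * P := by
    rw [hP, hQ]
    exact B1_le F M hF (2 - q) b hb hb2
  rw [← hP] at hJ1
  rw [← hQ] at hJ2
  obtain ⟨E, hE⟩ : ∃ E : ℝ, E = β * (-(r1 * P) + c0 * (-Q - κ * P)) := ⟨_, rfl⟩
  have hEle : E ≤ E0 := by
    rw [hE, hE0]
    refine mul_le_mul_of_nonneg_left ?_ hβpos
    have h1 : -(r1 * P) ≤ r1 * P0 := by
      have h2 := mul_nonneg hr1pos hPpos
      have h3 := mul_nonneg hr1pos hP0pos
      linarith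
    have h2 : -Q - κ * P ≤ 4 * P0 + |κ| * P0 := by
      have h3 : -Q ≤ 4 * P0 := by
        have h4 := neg_le_abs Q
        linarith
      have h4 : -(κ * P) ≤ |κ| * P0 := by
        calc -(κ * P) ≤ |κ * P| := neg_le_abs _
          _ = |κ| * P := by rw [abs_mul, abs_of_nonneg hPpos]
          _ ≤ |κ| * P0 := mul_le_mul_of_nonneg_left hPle (abs_nonneg _)
      linarith
    have h3 := mul_le_mul_of_nonneg_left h2 hc0
    linarith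
  have hsum : -I + r1 * J1 + c0 * (J2 - 2 * bb * J1 + bb ^ 2 * I) = K * I + E := by
    rw [hJ2, hJ1, hKd, hE, hκ, hβ, hr1]
    ring
  rw [hsum] at hm
  have hG : (1 - 5 * δ) * ((D / (1 - q)) * I) ≤
      (1 + δ) ^ (eta - 1) * ((1 + δ) ^ 4) ^ (-q) * ((D / (1 - q)) * I) :=
    mul_le_mul_of_nonneg_right hlow (mul_nonneg (div_pos hDpos h1q).le hI0)
  have hδI : 0 ≤ δ * I := mul_nonneg hδpos.le hI0
  have hsm := mul_le_mul_of_nonneg_right hDle hδI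
  have hXE : δ * X0 * E ≤ δ * X0 * E0 :=
    mul_le_mul_of_nonneg_left hEle (mul_nonneg hδpos.le hX0pos.le)
  have hfin : δ * I * (-K * X0) ≤ 2 * (CB + δ * X0 * E0) := by
    have a1 : (c + 5 / (1 - q)) * D * (δ * I) = c * (δ * D) * I + 5 * δ * ((D / (1 - q)) * I) := by
      ring
    have a2 : (1 + δ) ^ (eta - 1) * ((1 + δ) ^ 4) ^ (-q) * (D / (1 - q)) * I =
        (1 + δ) ^ (eta - 1) * ((1 + δ) ^ 4) ^ (-q) * ((D / (1 - q)) * I) := by ring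
    have a3 : (D / (1 - q) + c * (δ * D)) * I = (D / (1 - q)) * I + c * (δ * D) * I := by ring
    have a4 : δ * X0 * (K * I + E) = -(δ * I * (-K * X0)) + δ * X0 * E := by ring
    have a5 : -K * X0 / 2 * (δ * I) = δ * I * (-K * X0) / 2 := by ring
    have a6 : (1 - 5 * δ) * ((D / (1 - q)) * I) =
        (D / (1 - q)) * I - 5 * δ * ((D / (1 - q)) * I) := by ring
    rw [a2, a3, a4] at hm
    rw [a1, a5] at hsm
    rw [a6] at hG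
    linarith
  have hKX' : 0 < -K * X0 := by linarith
  rw [le_div_iff₀ hKX']
  have h1 : 2 * (CB + δ * X0 * E0) = δ * (2 * (CB / δ + X0 * E0)) := by
    field_simp
  rw [h1, mul_assoc] at hfin
  exact le_of_mul_le_mul_left hfin hδpos

end H78.CN
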