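import Pool.Agent.H78.CN.Def
import Pool.Agent.H62.CJ.L2

/-!
# CN-NF: nearest points and their normal form

`F` in the class.  All distances are Euclidean.
* `DD_nonempty`: clear.  `rr_mono`: `DD F y` decreases in `y` and is nonempty (`infDist_le_infDist_of_subset`).
* `rr_le_point`: `infDist_le_dist_of_mem`.
* `rr_le_line`: `F (pt u y)` is the limit of `F (pt u (y + 1/(n+1)))`, so it is in the closure
  of `DD F y`; `infDist_closure`, `infDist_le_dist_of_mem`.
* `rr_pos`: by `NP` there is `x` with `rr = ‖F ζ - F (pt x y)‖`, and `F ζ ≠ F (pt x y)` since otherwise `inj`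
  gives `ζ - pt x y = 2 pi k` real, but the imaginary parts differ.
* `normal_form`: put `z = pt x y`, `a = F' z ≠ 0` (`deriv_ne`), `w = F ζ`, `d = w - F z ≠ 0`.
  The function `φ u = ‖w - F (pt u y)‖^2` satisfies `φ u >= rr^2 = φ x` (`rr_le_line`), so `x` is a minimum.
  `φ' u = -2 Re (conj (w - F) F')`, `φ'' u = 2 |F'|^2 - 2 Re (conj (w - F) F'')` (all at `pt u y`).  Hence
  `Re (conj d a) = 0` and `|a|^2 - Re (conj d F'' z) >= 0` (second derivative test: if `φ' x = 0` and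
  `φ'' x < 0` then `x` is a strict local maximum, `isLocalMax`-version of `isLocalMin_of_deriv_deriv_pos`,
  or use a Taylor expansion of `F` at `z`).  The first equation says `i d / a` is real:
  `d = - i lam a`, `lam = - Im (d/a)` real.
  For `v > y`: `‖w - F (pt x v)‖ >= rr = ‖d‖` (`rr_le_point`), so the right derivative at `v = y` of
  `v ↦ ‖w - F (pt x v)‖^2` is `>= 0`: `- 2 Re (conj d (i a)) >= 0`, that is `lam |a|^2 >= 0`; so `lam >= 0`,
  and `lam ≠ 0` since `d ≠ 0`.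
  Finally `Re (conj d F'') = Re (i lam conj a F'') = - lam |a|^2 Im (F''/a)`.
-/

set_option autoImplicit false

open Set Metric MeasureTheory H62.CJ

namespace H78.CN

theorem DD_nonempty (F : ℂ → ℂ) (y : ℝ) : (DD F y).Nonempty := by
  refine ⟨F (pt 0 (max y 0 + 1)), pt 0 (max y 0 + 1), ⟨?_, ?_⟩, rfl⟩
  · rw [pt_im]
    have := le_max_right y 0
    linarith
  · rw [pt_im]
    have := le_max_left y 0
    linarith

theorem rr_mono (F : ℂ → ℂ) (w : ℂ) : Monotone (rr F w) := by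
  intro y y' h
  refine infDist_le_infDist_of_subset ?_ (DD_nonempty F y')
  rintro _ ⟨z, ⟨h1, h2⟩, rfl⟩
  exact ⟨z, ⟨h1, lt_of_le_of_lt h h2⟩, rfl⟩

theorem rr_le_point (F : ℂ → ℂ) (w z : ℂ) (y : ℝ) (h : 0 < z.im) (h' : y < z.im) :
    rr F w y ≤ ‖w - F z‖ := by
  rw [← dist_eq_norm]
  exact infDist_le_dist_of_mem ⟨z, ⟨h, h'⟩, rfl⟩

theorem Nf_open : IsOpen HP := isOpen_lt continuous_const Complex.continuous_im

theorem Nf_hasDeriv (F : ℂ → ℂ) (M : ℝ) (hF : Cls F M) (z : ℂ) (hz : 0 < z.im) :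
    HasDerivAt F (deriv F z) z :=
  (hF.diff.differentiableAt (Nf_open.mem_nhds hz)).hasDerivAt

theorem Nf_hasDeriv2 (F : ℂ → ℂ) (M : ℝ) (hF : Cls F M) (z : ℂ) (hz : 0 < z.im) :
    HasDerivAt (deriv F) (deriv (deriv F) z) z :=
  ((hF.diff.deriv Nf_open).differentiableAt (Nf_open.mem_nhds hz)).hasDerivAt

theorem Nf_pt_re (u y : ℝ) : HasDerivAt (fun u : ℝ => pt u y) 1 u := by
  have h1 : HasDerivAt (fun u : ℝ => (u : ℂ) + (y : ℂ) * Complex.I) 1 u := by
    simpa using (Complex.ofRealCLM.hasDerivAt (x := u)).add_const ((y : ℂ) * Complex.I)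
  have h2 : (fun u : ℝ => pt u y) = fun u : ℝ => (u : ℂ) + (y : ℂ) * Complex.I :=
    funext fun u => pt_eq u y
  rw [h2]
  exact h1

theorem Nf_pt_im (x v : ℝ) : HasDerivAt (fun v : ℝ => pt x v) Complex.I v := by
  have h1 : HasDerivAt (fun v : ℝ => (x : ℂ) + (v : ℂ) * Complex.I) Complex.I v := by
    simpa using ((Complex.ofRealCLM.hasDerivAt (x := v)).mul_const Complex.I).const_add (x : ℂ)
  have h2 : (fun v : ℝ => pt x v) = fun v : ℝ => (x : ℂ) + (v : ℂ) * Complex.I :=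
    funext fun v => pt_eq x v
  rw [h2]
  exact h1

theorem Nf_line (F : ℂ → ℂ) (M : ℝ) (hF : Cls F M) (w : ℂ) (x v : ℝ) (hv : 0 < v) :
    HasDerivAt (fun v : ℝ => w - F (pt x v)) (-(deriv F (pt x v) * Complex.I)) v := by
  have h1 := (Nf_hasDeriv F M hF (pt x v) hv).comp v (Nf_pt_im x v)
  exact h1.const_sub w

theorem Nf_row (F : ℂ → ℂ) (M : ℝ) (hF : Cls F M) (w : ℂ) (u y : ℝ) (hy : 0 < y) :
    HasDerivAt (fun u : ℝ => w - F (pt u y)) (-(deriv F (pt u y))) u := by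
  have h1 := (Nf_hasDeriv F M hF (pt u y) hy).comp u (Nf_pt_re u y)
  rw [mul_one] at h1
  exact h1.const_sub w

theorem rr_le_line (F : ℂ → ℂ) (M : ℝ) (hF : Cls F M) (w : ℂ) (u y : ℝ) (hy : 0 < y) :
    rr F w y ≤ ‖w - F (pt u y)‖ := by
  have h1 : Filter.Tendsto (fun v : ℝ => ‖w - F (pt u v)‖) (nhdsWithin y (Ioi y))
      (nhds ‖w - F (pt u y)‖) :=
    ((Nf_line F M hF w u y hy).continuousAt.norm.tendsto).mono_left nhdsWithin_le_nhds
  refine ge_of_tendsto h1 ?_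
  filter_upwards [self_mem_nhdsWithin] with v hv
  have hv' : y < v := hv
  exact rr_le_point F w (pt u v) y (hy.trans hv') hv'

theorem Nf_ne (F : ℂ → ℂ) (M : ℝ) (hF : Cls F M) (ζ : ℂ) (x y : ℝ) (h0 : 0 < ζ.im)
    (h1 : ζ.im < y) : F ζ - F (pt x y) ≠ 0 := by
  intro h
  obtain ⟨k, hk⟩ := hF.inj ζ (pt x y) h0 (h0.trans h1) (sub_eq_zero.mp h)
  have h2 := congrArg Complex.im hk
  rw [Complex.sub_im, pt_im, Complex.ofReal_im] at h2
  linarith

theorem rr_pos (F : ℂ → ℂ) (M : ℝ) (hF : Cls F M) (hN : NP F) (ζ : ℂ) (y : ℝ) (h0 : 0 < ζ.im)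
    (h1 : ζ.im < y) : 0 < rr F (F ζ) y := by
  obtain ⟨x, -, hx⟩ := hN y (h0.trans h1) ζ h0 h1
  have hx' : rr F (F ζ) y = ‖F ζ - F (pt x y)‖ := hx
  rw [hx']
  exact norm_pos_iff.mpr (Nf_ne F M hF ζ x y h0 h1)

theorem Nf_second {φ φ' : ℝ → ℝ} {φ'' x : ℝ} (h1 : ∀ u, HasDerivAt φ (φ' u) u)
    (h2 : HasDerivAt φ' φ'' x) (hmin : ∀ u, φ x ≤ φ u) : φ' x = 0 ∧ 0 ≤ φ'' := by
  have hd : deriv φ = φ' := funext fun u => (h1 u).deriv
  have hmin' : IsLocalMin φ x := Filter.Eventually.of_forall hmin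
  have h0 : φ' x = 0 := by
    rw [← hd]
    exact hmin'.deriv_eq_zero
  refine ⟨h0, ?_⟩
  by_contra hneg
  push Not at hneg
  have hdd : deriv (deriv φ) x = φ'' := by
    rw [hd]
    exact h2.deriv
  have hmax : IsLocalMax φ x := isLocalMax_of_deriv_deriv_neg (by rw [hdd]; exact hneg)
    (by rw [hd]; exact h0) (h1 x).continuousAt
  have hev : φ =ᶠ[nhds x] fun _ => φ x := by
    filter_upwards [hmax] with u hu
    exact le_antisymm hu (hmin u)
  have h3 : deriv φ =ᶠ[nhds x] deriv (fun _ : ℝ => φ x) := hev.deriv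
  have h4 : deriv (deriv φ) x = 0 := by
    rw [h3.deriv_eq]
    simp
  rw [hdd] at h4
  linarith

theorem Nf_right {ψ : ℝ → ℝ} {ψ' y : ℝ} (h : HasDerivAt ψ ψ' y) (hmin : ∀ v, y < v → ψ y ≤ ψ v) :
    0 ≤ ψ' := by
  have h1 := hasDerivAt_iff_tendsto_slope.mp h
  have h2 : Filter.Tendsto (slope ψ y) (nhdsWithin y (Ioi y)) (nhds ψ') :=
    h1.mono_left (nhdsWithin_mono y fun v hv => ne_of_gt hv)
  refine ge_of_tendsto h2 ?_
  filter_upwards [self_mem_nhdsWithin] with v hv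
  have hv' : y < v := hv
  rw [slope_def_field]
  exact div_nonneg (by linarith [hmin v hv']) (by linarith)

theorem normal_form (F : ℂ → ℂ) (M : ℝ) (hF : Cls F M) (y : ℝ) (hy : 0 < y) (ζ : ℂ)
    (h0 : 0 < ζ.im) (h1 : ζ.im < y) (x : ℝ) (hx : Near F (F ζ) x y) :
    ∃ lam : ℝ, 0 < lam ∧ F ζ = F (pt x y) - Complex.I * (lam : ℂ) * deriv F (pt x y) ∧
      rr F (F ζ) y = lam * ‖deriv F (pt x y)‖ ∧ 0 ≤ 1 + lam * kk F x y := by
  have hx' : rr F (F ζ) y = ‖F ζ - F (pt x y)‖ := hx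
  set w := F ζ with hw
  set a := deriv F (pt x y) with ha
  set e := deriv (deriv F) (pt x y) with he
  have ha0 : a ≠ 0 := deriv_ne F M hF _ hy
  have hd0 : w - F (pt x y) ≠ 0 := Nf_ne F M hF ζ x y h0 h1
  set d := w - F (pt x y) with hd
  -- the row
  have hφ : ∀ u, HasDerivAt (fun u : ℝ => ‖w - F (pt u y)‖ ^ 2)
      (2 * inner ℝ (w - F (pt u y)) (-(deriv F (pt u y)))) u :=
    fun u => (Nf_row F M hF w u y hy).norm_sq
  have hd2 : HasDerivAt (fun u : ℝ => -(deriv F (pt u y))) (-e) x := by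
    have h2 := (Nf_hasDeriv2 F M hF (pt x y) hy).comp x (Nf_pt_re x y)
    rw [mul_one] at h2
    exact h2.neg
  have hφ2 : HasDerivAt (fun u : ℝ => 2 * inner ℝ (w - F (pt u y)) (-(deriv F (pt u y))))
      (2 * (inner ℝ d (-e) + inner ℝ (-a) (-a))) x := by
    have h2 := (Nf_row F M hF w x y hy).inner ℝ hd2
    exact h2.const_mul 2
  have hmin : ∀ u, ‖w - F (pt x y)‖ ^ 2 ≤ ‖w - F (pt u y)‖ ^ 2 := by
    intro u
    have h2 := rr_le_line F M hF w u y hy
    rw [hx'] at h2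
    exact pow_le_pow_left₀ (norm_nonneg _) h2 2
  obtain ⟨e1, e2⟩ := Nf_second (φ := fun u : ℝ => ‖w - F (pt u y)‖ ^ 2) hφ hφ2 hmin
  have e3 : (inner ℝ d a : ℝ) = 0 := by
    have : (2 : ℝ) * inner ℝ d (-a) = 0 := e1
    rw [inner_neg_right] at this
    linarith
  have e4 : (inner ℝ d e : ℝ) ≤ ‖a‖ ^ 2 := by
    rw [inner_neg_right, inner_neg_neg, real_inner_self_eq_norm_sq] at e2
    linarith
  -- the column
  have hψ : HasDerivAt (fun v : ℝ => ‖w - F (pt x v)‖ ^ 2)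
      (2 * inner ℝ d (-(a * Complex.I))) y := (Nf_line F M hF w x y hy).norm_sq
  have e5 : (0 : ℝ) ≤ 2 * inner ℝ d (-(a * Complex.I)) := by
    refine Nf_right hψ fun v hv => ?_
    have h2 := rr_le_point F w (pt x v) y (hy.trans hv) hv
    rw [hx'] at h2
    exact pow_le_pow_left₀ (norm_nonneg _) h2 2
  have e6 : d = d / a * a := by rw [div_mul_cancel₀ _ ha0]
  set c := d / a with hc
  have hn : 0 < ‖a‖ ^ 2 := by
    have := norm_pos_iff.mpr ha0
    positivity
  have hnsq : ‖a‖ ^ 2 = a.re * a.re + a.im * a.im := by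
    rw [← Complex.normSq_eq_norm_sq, Complex.normSq_apply]
  have e7 : c.re = 0 := by
    rw [e6, Complex.inner] at e3
    have h2 : (a * starRingEnd ℂ (c * a)).re = c.re * ‖a‖ ^ 2 := by
      rw [hnsq]
      simp only [map_mul, Complex.mul_re, Complex.mul_im, Complex.conj_re, Complex.conj_im]
      ring
    rw [h2] at e3
    rcases mul_eq_zero.mp e3 with h | h
    · exact h
    · exact absurd h hn.ne'
  have e8 : 0 ≤ -c.im := by
    rw [e6, Complex.inner] at e5
    have h2 : (-(a * Complex.I) * starRingEnd ℂ (c * a)).re = -c.im * ‖a‖ ^ 2 := by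
      rw [hnsq]
      simp only [map_mul, Complex.mul_re, Complex.mul_im, Complex.conj_re, Complex.conj_im,
        Complex.neg_re, Complex.neg_im, Complex.I_re, Complex.I_im]
      ring
    rw [h2] at e5
    by_contra h
    push Not at h
    nlinarith
  have hceq : c = -(Complex.I * ((-c.im : ℝ) : ℂ)) := by
    apply Complex.ext
    · simp [e7]
    · simp
  have e9 : 0 < -c.im := by
    refine lt_of_le_of_ne e8 fun h => hd0 ?_
    rw [e6, hceq, ← h]
    simp
  refine ⟨-c.im, e9, ?_, ?_, ?_⟩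
  · have h2 : w = F (pt x y) + d := by rw [hd]; ring
    have h3 : d = -(Complex.I * ((-c.im : ℝ) : ℂ)) * a := by rw [← hceq]; exact e6
    rw [h2, h3]
    ring
  · have h2 : ‖c‖ = -c.im := by
      have h3 := congrArg norm hceq
      rw [norm_neg, norm_mul, Complex.norm_I, one_mul, Complex.norm_real, Real.norm_eq_abs,
        abs_of_pos e9] at h3
      exact h3
    rw [hx', e6, norm_mul, h2]
  · have h2 : kk F x y = (e / a).im := rfl
    have e10 : e = e / a * a := by rw [div_mul_cancel₀ _ ha0]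
    rw [h2]
    set g := e / a with hg
    rw [e6, e10, Complex.inner] at e4
    have h3 : (g * a * starRingEnd ℂ (c * a)).re = (c.re * g.re + c.im * g.im) * ‖a‖ ^ 2 := by
      rw [hnsq]
      simp only [map_mul, Complex.mul_re, Complex.mul_im, Complex.conj_re, Complex.conj_im]
      ring
    rw [h3, e7] at e4
    by_contra h
    push Not at h
    nlinarith

end H78.CN
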