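import Mathlib

/-!
# CN-SC: the scaling lemma

PROOF.  Write `f y = ofReal (y^(eta-1) ρ(y)^(-q))`, measurable because `ρ` is monotone.
`Ioc a (lam b) = Ioc a (lam a) ∪ Ioc (lam a) (lam b) = Ioc a b ∪ Ioc b (lam b)` (disjoint unions), so
`A1 + A2 = B + C` with `A1 = ∫⁻_{Ioc a (lam a)} f`, `A2 = ∫⁻_{Ioc (lam a) (lam b)} f`, `B = ∫⁻_{Ioc a b} f`,
`C = ∫⁻_{Ioc b (lam b)} f`.
Substitution `y = lam u`: `A2 = ∫⁻_{u ∈ Ioc a b} ofReal (lam (lam u)^(eta-1) ρ(lam u)^(-q))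
 = ∫⁻_{u ∈ Ioc a b} ofReal (u^(eta-1) lam^eta ρ(lam u)^(-q))` (`lintegral_image_eq_lintegral_abs_deriv_mul`, or
`Measure.addHaar_preimage_smul`-type lemmas).
Pointwise `f u <= ofReal (u^(eta-1)(ρ(u)^(-q) - lam^eta ρ(lam u)^(-q))) + ofReal (u^(eta-1) lam^eta ρ(lam u)^(-q))`
(`ENNReal.ofReal_add_le`), so `B <= X + A2`, `X` the last integral of the statement.  Hence
`A1 + A2 <= X + A2 + C`.  `A2 < ∞`: for `y ∈ (lam a, lam b]`: `ρ y >= ρ (lam a) > 0` (`lam a > a`), so the integrand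
is at most a constant (`y^(eta-1) <= (lam a)^(eta-1) + (lam b)^(eta-1)`).  Cancel `A2`.
-/

set_option autoImplicit false

open Set MeasureTheory

namespace H78.CN

theorem scaling (ρ : ℝ → ℝ) (hm : Monotone ρ) (a b lam q eta : ℝ) (ha : 0 < a) (hab : a < b)
    (hl : 1 < lam) (hq : 0 < q) (hpos : ∀ y : ℝ, a < y → 0 < ρ y) :
    ∫⁻ y in Ioc a (lam * a), ENNReal.ofReal (y ^ (eta - 1) * ρ y ^ (-q)) ≤
      (∫⁻ y in Ioc b (lam * b), ENNReal.ofReal (y ^ (eta - 1) * ρ y ^ (-q))) +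
      ∫⁻ y in Ioc a b,
        ENNReal.ofReal (y ^ (eta - 1) * (ρ y ^ (-q) - lam ^ eta * ρ (lam * y) ^ (-q))) := by
  have hl0 : 0 < lam := by linarith
  have hb : 0 < b := by linarith
  have h1 : a < lam * a := by nlinarith
  have h2 : lam * a < lam * b := by nlinarith
  have h3 : b < lam * b := by nlinarith
  have hρm : Measurable ρ := hm.measurable
  -- two decompositions
  have hsplit1 : ∫⁻ y in Ioc a (lam * b), ENNReal.ofReal (y ^ (eta - 1) * ρ y ^ (-q)) =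
      (∫⁻ y in Ioc a (lam * a), ENNReal.ofReal (y ^ (eta - 1) * ρ y ^ (-q))) +
      ∫⁻ y in Ioc (lam * a) (lam * b), ENNReal.ofReal (y ^ (eta - 1) * ρ y ^ (-q)) := by
    rw [← Ioc_union_Ioc_eq_Ioc h1.le h2.le]
    exact lintegral_union measurableSet_Ioc (Ioc_disjoint_Ioc_of_le le_rfl)
  have hsplit2 : ∫⁻ y in Ioc a (lam * b), ENNReal.ofReal (y ^ (eta - 1) * ρ y ^ (-q)) =
      (∫⁻ y in Ioc a b, ENNReal.ofReal (y ^ (eta - 1) * ρ y ^ (-q))) +
      ∫⁻ y in Ioc b (lam * b), ENNReal.ofReal (y ^ (eta - 1) * ρ y ^ (-q)) := by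
    rw [← Ioc_union_Ioc_eq_Ioc hab.le h3.le]
    exact lintegral_union measurableSet_Ioc (Ioc_disjoint_Ioc_of_le le_rfl)
  -- substitution
  have hsub : ∫⁻ y in Ioc (lam * a) (lam * b), ENNReal.ofReal (y ^ (eta - 1) * ρ y ^ (-q)) =
      ∫⁻ u in Ioc a b, ENNReal.ofReal (u ^ (eta - 1) * (lam ^ eta * ρ (lam * u) ^ (-q))) := by
    have himg : (fun u : ℝ => lam * u) '' Ioc a b = Ioc (lam * a) (lam * b) :=
      image_mul_left_Ioc hl0 a b
    rw [← himg, lintegral_image_eq_lintegral_abs_deriv_mul (f' := fun _ => lam) measurableSet_Ioc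
      (fun u _ => by simpa using ((hasDerivAt_id u).const_mul lam).hasDerivWithinAt)
      (fun u _ v _ huv => mul_left_cancel₀ hl0.ne' huv)]
    refine setLIntegral_congr_fun measurableSet_Ioc fun u hu => ?_
    have hu0 : 0 < u := ha.trans hu.1
    rw [abs_of_pos hl0, ← ENNReal.ofReal_mul hl0.le]
    congr 1
    rw [Real.mul_rpow hl0.le hu0.le, Real.rpow_sub_one hl0.ne']
    field_simp
  -- finiteness
  have hfin : ∫⁻ y in Ioc (lam * a) (lam * b), ENNReal.ofReal (y ^ (eta - 1) * ρ y ^ (-q)) ≠ ⊤ := by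
    have hb1 : ∀ y ∈ Ioc (lam * a) (lam * b), ENNReal.ofReal (y ^ (eta - 1) * ρ y ^ (-q)) ≤
        ENNReal.ofReal (((lam * a) ^ (eta - 1) + (lam * b) ^ (eta - 1)) * ρ (lam * a) ^ (-q)) := by
      intro y hy
      have hla : 0 < lam * a := by positivity
      have hlb : 0 < lam * b := by positivity
      have hy0 : 0 < y := hla.trans hy.1
      apply ENNReal.ofReal_le_ofReal
      have hr0 := hpos (lam * a) h1
      have hr1 : ρ (lam * a) ≤ ρ y := hm hy.1.le
      have e1 : ρ y ^ (-q) ≤ ρ (lam * a) ^ (-q) :=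
        Real.rpow_le_rpow_of_nonpos hr0 hr1 (by linarith)
      have e2 : y ^ (eta - 1) ≤ (lam * a) ^ (eta - 1) + (lam * b) ^ (eta - 1) := by
        have p1 := Real.rpow_nonneg hla.le (eta - 1)
        have p2 := Real.rpow_nonneg hlb.le (eta - 1)
        rcases le_total 0 (eta - 1) with h | h
        · have := Real.rpow_le_rpow hy0.le hy.2 h
          linarith
        · have := Real.rpow_le_rpow_of_nonpos hla hy.1.le h
          linarith
      have p3 := Real.rpow_nonneg (hr0.trans_le hr1).le (-q)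
      have p4 := Real.rpow_nonneg hla.le (eta - 1)
      have p5 := Real.rpow_nonneg hlb.le (eta - 1)
      exact mul_le_mul e2 e1 p3 (by linarith)
    have hle := setLIntegral_mono' (μ := volume) measurableSet_Ioc hb1
    refine ne_top_of_le_ne_top ?_ hle
    rw [setLIntegral_const]
    exact ENNReal.mul_ne_top ENNReal.ofReal_ne_top (by rw [Real.volume_Ioc]; exact ENNReal.ofReal_ne_top)
  -- the pointwise inequality
  have hmeas : Measurable fun u : ℝ =>
      ENNReal.ofReal (u ^ (eta - 1) * (lam ^ eta * ρ (lam * u) ^ (-q))) := by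
    have m1 : Measurable fun u : ℝ => ρ (lam * u) ^ (-q) :=
      (hρm.comp (measurable_const_mul lam)).pow_const _
    have m2 : Measurable fun u : ℝ => u ^ (eta - 1) := measurable_id.pow_const _
    exact (m2.mul (m1.const_mul _)).ennreal_ofReal
  have hB : ∫⁻ y in Ioc a b, ENNReal.ofReal (y ^ (eta - 1) * ρ y ^ (-q)) ≤
      (∫⁻ y in Ioc a b,
        ENNReal.ofReal (y ^ (eta - 1) * (ρ y ^ (-q) - lam ^ eta * ρ (lam * y) ^ (-q)))) +
      ∫⁻ u in Ioc a b, ENNReal.ofReal (u ^ (eta - 1) * (lam ^ eta * ρ (lam * u) ^ (-q))) := by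
    rw [← lintegral_add_right _ hmeas]
    apply lintegral_mono
    intro u
    simp only
    have : u ^ (eta - 1) * ρ u ^ (-q) =
        u ^ (eta - 1) * (ρ u ^ (-q) - lam ^ eta * ρ (lam * u) ^ (-q)) +
          u ^ (eta - 1) * (lam ^ eta * ρ (lam * u) ^ (-q)) := by ring
    rw [this]
    exact ENNReal.ofReal_add_le
  have hfinal := hsplit1.symm.trans hsplit2
  rw [← hsub] at hB
  have : (∫⁻ y in Ioc a (lam * a), ENNReal.ofReal (y ^ (eta - 1) * ρ y ^ (-q))) +
      (∫⁻ y in Ioc (lam * a) (lam * b), ENNReal.ofReal (y ^ (eta - 1) * ρ y ^ (-q))) ≤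
      ((∫⁻ y in Ioc b (lam * b), ENNReal.ofReal (y ^ (eta - 1) * ρ y ^ (-q))) +
      ∫⁻ y in Ioc a b,
        ENNReal.ofReal (y ^ (eta - 1) * (ρ y ^ (-q) - lam ^ eta * ρ (lam * y) ^ (-q)))) +
      (∫⁻ y in Ioc (lam * a) (lam * b), ENNReal.ofReal (y ^ (eta - 1) * ρ y ^ (-q))) := by
    rw [hfinal]
    refine (add_le_add_left hB _).trans (le_of_eq ?_)
    ring
  exact (ENNReal.add_le_add_iff_right hfin).1 this

end H78.CN
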