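import Pool.Agent.H78.CN.Def
import Pool.Agent.H62.CJ.S4

/-!
# CN-SF: shifts

PROOF.  `G z = F (z + i τ)`.
* `NP_shift`: for `y > 0`: `DD G y = DD F (y + τ)` (`z ↦ z + iτ` maps `{0 < im, y < im}` onto `{y + τ < im}`, and
  `{0 < im, y + τ < im} = {y + τ < im}` as `y + τ > 0`), `G (pt x y) = F (pt x (y + τ))`.  Given `ζ` with
  `0 < ζ.im < y` apply `NP F` at height `y + τ` to `ζ + iτ`.
* `shift_bdd`: `deriv G (pt x y) = deriv F (pt x (y + τ))` (`deriv_comp_add_const`), `cauchy_bound` at the height `y + τ <= 1`: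
  `<= M/(y+τ) <= M/τ` (`M >= 0`, `hF.bdd`).
-/

set_option autoImplicit false

open Set Metric MeasureTheory H62.CJ

namespace H78.CN

private theorem sf_pt (x y τ : ℝ) : pt x y + (τ : ℂ) * Complex.I = pt x (y + τ) := by
  apply Complex.ext <;> simp

private theorem sf_DD (F : ℂ → ℂ) (τ : ℝ) (h0 : 0 ≤ τ) (y : ℝ) (hy : 0 < y) :
    DD (fun z => F (z + (τ : ℂ) * Complex.I)) y = DD F (y + τ) := by
  unfold DD
  ext w
  constructor
  · rintro ⟨z, ⟨hz, hz'⟩, rfl⟩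
    refine ⟨z + (τ : ℂ) * Complex.I, ⟨?_, ?_⟩, rfl⟩
    · simp
      linarith
    · simp
      linarith
  · rintro ⟨z, ⟨hz, hz'⟩, rfl⟩
    refine ⟨z - (τ : ℂ) * Complex.I, ⟨?_, ?_⟩, ?_⟩
    · simp
      linarith
    · simp
      linarith
    · simp

theorem NP_shift (F : ℂ → ℂ) (hN : NP F) (τ : ℝ) (h0 : 0 ≤ τ) :
    NP (fun z => F (z + (τ : ℂ) * Complex.I)) := by
  intro y hy ζ hζ hζy
  have him : (ζ + (τ : ℂ) * Complex.I).im = ζ.im + τ := by simp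
  obtain ⟨x, hx, hn⟩ := hN (y + τ) (by linarith) (ζ + (τ : ℂ) * Complex.I)
    (by rw [him]; linarith) (by rw [him]; linarith)
  refine ⟨x, hx, ?_⟩
  unfold Near rr at hn ⊢
  rw [sf_DD F τ h0 y hy]
  show infDist (F (ζ + (τ : ℂ) * Complex.I)) (DD F (y + τ)) =
    ‖F (ζ + (τ : ℂ) * Complex.I) - F (pt x y + (τ : ℂ) * Complex.I)‖
  rw [sf_pt]
  exact hn

theorem shift_bdd (F : ℂ → ℂ) (M : ℝ) (hF : Cls F M) (τ : ℝ) (h0 : 0 < τ) (h1 : τ ≤ 1 / 2)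
    (x y : ℝ) (hy : 0 < y) (hy1 : y ≤ 1 / 2) :
    ‖deriv (fun z => F (z + (τ : ℂ) * Complex.I)) (pt x y)‖ ≤ M / τ := by
  rw [deriv_comp_add_const, sf_pt]
  have hM : 0 ≤ M := (norm_nonneg _).trans (hF.bdd (pt 0 1) (by simp) (by simp))
  refine (cauchy_bound F M hF x (y + τ) (by linarith) (by linarith)).trans ?_
  exact div_le_div_of_nonneg_left hM h0 (by linarith)

end H78.CN
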