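import Pool.Agent.H78.CN.Nf
import Pool.Agent.H78.CN.Sc
import Pool.Agent.H78.CN.Me
import Pool.Agent.H62.CJ.M0

/-!
# CN-ST: the scaling inequality integrated over the domain

PROOF.  For `ζ ∈ strip 0 b` apply `scaling` with `ρ = rr F (F ζ)`, `a = ζ.im`, `hm = rr_mono`, `hpos` from
`rr_pos`; multiply with `ofReal (‖deriv F ζ‖^2)` and integrate over the strip (`lintegral_mono`,
`lintegral_add_left/right`, measurability from `measurable_rr`, `hF.meas`, `measurable_deriv`).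
The last term is `∫⁻_{ζ ∈ strip 0 b} ofReal (‖F'‖^2) ∫⁻_{y ∈ Ioc ζ.im b} ofReal (y^(eta-1) D(ζ,y))`,
`D = rr^(-q) - lam^eta rr(lam y)^(-q)`.  Write the inner integral over `Ioo 0 b` with the indicator of
`ζ.im < y` (`Ioc` and `Ioo` differ by a null set), swap (`lintegral_lintegral_swap`), note
`{ζ ∈ strip 0 b : ζ.im < y} = strip 0 y` for `0 < y < b`, and
`ofReal (y^(eta-1) D) = ofReal (y^(eta-1)) * ofReal D` (`ENNReal.ofReal_mul`, `y^(eta-1) >= 0`).
-/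

set_option autoImplicit false

open Set Metric MeasureTheory H62.CJ

namespace H78.CN

theorem St_m0 (F : ℂ → ℂ) (hF : Measurable F) (lam : ℝ) :
    Measurable (fun p : ℂ × ℝ => (F p.1, lam * p.2)) := by
  have h1 : Measurable (fun p : ℂ × ℝ => F p.1) := hF.comp measurable_fst
  have h2 : Measurable (fun p : ℂ × ℝ => lam * p.2) := measurable_snd.const_mul lam
  exact h1.prodMk h2

theorem St_m0' (F : ℂ → ℂ) (hF : Measurable F) :
    Measurable (fun p : ℂ × ℝ => (F p.1, p.2)) := by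
  have h1 : Measurable (fun p : ℂ × ℝ => F p.1) := hF.comp measurable_fst
  exact h1.prodMk measurable_snd

theorem St_m1 (F : ℂ → ℂ) (hF : Measurable F) (h0 : Measurable (fun p : ℂ × ℝ => rr F p.1 p.2))
    (lam : ℝ) : Measurable (fun p : ℂ × ℝ => rr F (F p.1) (lam * p.2)) :=
  Measurable.comp (g := fun p : ℂ × ℝ => rr F p.1 p.2) (f := fun p : ℂ × ℝ => (F p.1, lam * p.2))
    h0 (St_m0 F hF lam)

theorem St_m1' (F : ℂ → ℂ) (hF : Measurable F)
    (h0 : Measurable (fun p : ℂ × ℝ => rr F p.1 p.2)) :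
    Measurable (fun p : ℂ × ℝ => rr F (F p.1) p.2) :=
  Measurable.comp (g := fun p : ℂ × ℝ => rr F p.1 p.2) (f := fun p : ℂ × ℝ => (F p.1, p.2))
    h0 (St_m0' F hF)

theorem St_m2 (F : ℂ → ℂ) (hF : Measurable F) (h0 : Measurable (fun p : ℂ × ℝ => rr F p.1 p.2))
    (y : ℝ) : Measurable (fun z : ℂ => rr F (F z) y) := by
  have h1 : Measurable (fun z : ℂ => (F z, y)) := hF.prodMk measurable_const
  exact Measurable.comp (g := fun p : ℂ × ℝ => rr F p.1 p.2) (f := fun z : ℂ => (F z, y)) h0 h1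

theorem St_measK (F : ℂ → ℂ) (hF : Measurable F)
    (h0 : Measurable (fun p : ℂ × ℝ => rr F p.1 p.2)) (lam q eta : ℝ) :
    Measurable (fun p : ℂ × ℝ => ENNReal.ofReal (p.2 ^ (eta - 1) *
      (rr F (F p.1) p.2 ^ (-q) - lam ^ eta * rr F (F p.1) (lam * p.2) ^ (-q)))) := by
  have h1 := St_m1' F hF h0
  have h2 := St_m1 F hF h0 lam
  have h3 : Measurable (fun p : ℂ × ℝ => p.2 ^ (eta - 1)) := measurable_snd.pow_const _
  have h4 : Measurable (fun p : ℂ × ℝ => rr F (F p.1) p.2 ^ (-q)) := h1.pow_const _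
  have h5 : Measurable (fun p : ℂ × ℝ => rr F (F p.1) (lam * p.2) ^ (-q)) := h2.pow_const _
  have h6 : Measurable (fun p : ℂ × ℝ => lam ^ eta * rr F (F p.1) (lam * p.2) ^ (-q)) :=
    h5.const_mul _
  have h7 : Measurable (fun p : ℂ × ℝ =>
      rr F (F p.1) p.2 ^ (-q) - lam ^ eta * rr F (F p.1) (lam * p.2) ^ (-q)) := h4.sub h6
  have h8 : Measurable (fun p : ℂ × ℝ => p.2 ^ (eta - 1) *
      (rr F (F p.1) p.2 ^ (-q) - lam ^ eta * rr F (F p.1) (lam * p.2) ^ (-q))) := h3.mul h7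
  exact h8.ennreal_ofReal

theorem St_measC (F : ℂ → ℂ) (hF : Measurable F)
    (h0 : Measurable (fun p : ℂ × ℝ => rr F p.1 p.2)) (q eta : ℝ) :
    Measurable (fun p : ℂ × ℝ => ENNReal.ofReal (p.2 ^ (eta - 1) *
      rr F (F p.1) p.2 ^ (-q))) := by
  have h1 := St_m1' F hF h0
  have h3 : Measurable (fun p : ℂ × ℝ => p.2 ^ (eta - 1)) := measurable_snd.pow_const _
  have h4 : Measurable (fun p : ℂ × ℝ => rr F (F p.1) p.2 ^ (-q)) := h1.pow_const _
  have h8 : Measurable (fun p : ℂ × ℝ => p.2 ^ (eta - 1) *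
      rr F (F p.1) p.2 ^ (-q)) := h3.mul h4
  exact h8.ennreal_ofReal

theorem St_measD (F : ℂ → ℂ) (hF : Measurable F)
    (h0 : Measurable (fun p : ℂ × ℝ => rr F p.1 p.2)) (lam q eta y : ℝ) :
    Measurable (fun z : ℂ => ENNReal.ofReal
      (rr F (F z) y ^ (-q) - lam ^ eta * rr F (F z) (lam * y) ^ (-q))) := by
  have h1 := St_m2 F hF h0 y
  have h2 := St_m2 F hF h0 (lam * y)
  have h4 : Measurable (fun z : ℂ => rr F (F z) y ^ (-q)) := h1.pow_const _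
  have h5 : Measurable (fun z : ℂ => rr F (F z) (lam * y) ^ (-q)) := h2.pow_const _
  have h6 : Measurable (fun z : ℂ => lam ^ eta * rr F (F z) (lam * y) ^ (-q)) :=
    h5.const_mul _
  have h7 : Measurable (fun z : ℂ =>
      rr F (F z) y ^ (-q) - lam ^ eta * rr F (F z) (lam * y) ^ (-q)) := h4.sub h6
  exact h7.ennreal_ofReal

theorem St_ind {K : ℂ → ℝ → ENNReal} {W : ℂ → ENNReal} (hW : Measurable W)
    (hK : Measurable (fun p : ℂ × ℝ => K p.1 p.2)) :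
    Measurable (fun p : ℂ × ℝ => W p.1 * {y : ℝ | p.1.im < y}.indicator (K p.1) p.2) := by
  have h1 : (fun p : ℂ × ℝ => {y : ℝ | p.1.im < y}.indicator (K p.1) p.2) =
      {p : ℂ × ℝ | p.1.im < p.2}.indicator (fun p : ℂ × ℝ => K p.1 p.2) := by
    funext p
    by_cases h : p.1.im < p.2
    · rw [indicator_of_mem (show p.2 ∈ {y : ℝ | p.1.im < y} from h),
        indicator_of_mem (show p ∈ {p : ℂ × ℝ | p.1.im < p.2} from h)]
    · rw [indicator_of_notMem (show p.2 ∉ {y : ℝ | p.1.im < y} from h),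
        indicator_of_notMem (show p ∉ {p : ℂ × ℝ | p.1.im < p.2} from h)]
  have h2 : Measurable (fun p : ℂ × ℝ => {y : ℝ | p.1.im < y}.indicator (K p.1) p.2) := by
    rw [h1]
    exact hK.indicator (measurableSet_lt (Complex.measurable_im.comp measurable_fst) measurable_snd)
  have h3 : Measurable (fun p : ℂ × ℝ => W p.1) := hW.comp measurable_fst
  exact h3.mul h2

theorem St_inner (ζ : ℂ) (b : ℝ) (h0 : 0 < ζ.im) (g : ℝ → ENNReal) :
    ∫⁻ y in Ioc ζ.im b, g y = ∫⁻ y in Ioo 0 b, {y : ℝ | ζ.im < y}.indicator g y := by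
  have hm : MeasurableSet {y : ℝ | ζ.im < y} := measurableSet_lt measurable_const measurable_id
  rw [lintegral_indicator hm, Measure.restrict_restrict hm]
  have h1 : {y : ℝ | ζ.im < y} ∩ Ioo 0 b = Ioo ζ.im b := by
    ext y
    constructor
    · rintro ⟨h1, h2⟩
      exact ⟨h1, h2.2⟩
    · rintro ⟨h1, h2⟩
      exact ⟨h1, h0.trans h1, h2⟩
  rw [h1]
  exact setLIntegral_congr Ioo_ae_eq_Ioc.symm

theorem St_outer (b y : ℝ) (hy : y ∈ Ioo 0 b) (g : ℂ → ENNReal) :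
    ∫⁻ ζ in strip 0 b, {ζ : ℂ | ζ.im < y}.indicator g ζ = ∫⁻ ζ in strip 0 y, g ζ := by
  have hm : MeasurableSet {ζ : ℂ | ζ.im < y} := measurableSet_lt Complex.measurable_im measurable_const
  rw [lintegral_indicator hm, Measure.restrict_restrict hm]
  have h1 : {ζ : ℂ | ζ.im < y} ∩ strip 0 b = strip 0 y := by
    ext z
    constructor
    · rintro ⟨h1, h2, h3, h4, h5⟩
      exact ⟨h2, h3, h4, h1⟩
    · rintro ⟨h2, h3, h4, h5⟩
      exact ⟨h5, h2, h3, h4, h5.trans hy.2⟩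
  rw [h1]

theorem St_abs (b : ℝ) (W A C : ℂ → ENNReal) (K D : ℂ → ℝ → ENNReal) (c : ℝ → ENNReal)
    (hW : Measurable W) (hC : Measurable C) (hK : Measurable (fun p : ℂ × ℝ => K p.1 p.2))
    (hD : ∀ y : ℝ, Measurable (fun z : ℂ => D z y))
    (hKD : ∀ y : ℝ, 0 < y → ∀ z : ℂ, K z y = c y * D z y)
    (hsc : ∀ ζ : ℂ, 0 < ζ.im → ζ.im < b → A ζ ≤ C ζ + ∫⁻ y in Ioc ζ.im b, K ζ y) :
    ∫⁻ ζ in strip 0 b, W ζ * A ζ ≤ (∫⁻ ζ in strip 0 b, W ζ * C ζ) +
      ∫⁻ y in Ioo 0 b, c y * ∫⁻ ζ in strip 0 y, W ζ * D ζ y := by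
  have hpt : ∀ ζ ∈ strip 0 b, W ζ * A ζ ≤
      W ζ * C ζ + ∫⁻ y in Ioo 0 b, W ζ * {y : ℝ | ζ.im < y}.indicator (K ζ) y := by
    intro ζ hζ
    have h0 : 0 < ζ.im := hζ.2.2.1
    have h1 : ζ.im < b := hζ.2.2.2
    have hm0 : Measurable (K ζ) := hK.comp measurable_prodMk_left
    have hm : Measurable ({y : ℝ | ζ.im < y}.indicator (K ζ)) :=
      hm0.indicator (measurableSet_lt measurable_const measurable_id)
    rw [lintegral_const_mul _ hm, ← mul_add, ← St_inner ζ b h0 (K ζ)]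
    gcongr
    exact hsc ζ h0 h1
  refine (setLIntegral_mono' (measurableSet_strip 0 b) hpt).trans ?_
  have hWC : Measurable (fun ζ : ℂ => W ζ * C ζ) := hW.mul hC
  rw [lintegral_add_left hWC, lintegral_lintegral_swap (St_ind hW hK).aemeasurable]
  gcongr 1
  refine le_of_eq ?_
  refine setLIntegral_congr_fun measurableSet_Ioo fun y hy => ?_
  have h1 : ∀ ζ : ℂ, W ζ * {y : ℝ | ζ.im < y}.indicator (K ζ) y =
      {ζ : ℂ | ζ.im < y}.indicator (fun ζ => W ζ * K ζ y) ζ := by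
    intro ζ
    by_cases h : ζ.im < y
    · rw [indicator_of_mem (show y ∈ {y : ℝ | ζ.im < y} from h),
        indicator_of_mem (show ζ ∈ {ζ : ℂ | ζ.im < y} from h)]
    · rw [indicator_of_notMem (show y ∉ {y : ℝ | ζ.im < y} from h),
        indicator_of_notMem (show ζ ∉ {ζ : ℂ | ζ.im < y} from h), mul_zero]
  rw [lintegral_congr h1, St_outer b y hy]
  have h2 : Measurable (fun ζ : ℂ => W ζ * D ζ y) := hW.mul (hD y)
  rw [← lintegral_const_mul _ h2]
  refine lintegral_congr fun ζ => ?_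
  rw [hKD y hy.1 ζ]
  ring

theorem step3 (F : ℂ → ℂ) (M : ℝ) (hF : Cls F M) (hN : NP F) (b lam q eta : ℝ) (hb : 0 < b)
    (hl : 1 < lam) (hq : 0 < q) :
    ∫⁻ ζ in strip 0 b, ENNReal.ofReal (‖deriv F ζ‖ ^ 2) *
        ∫⁻ y in Ioc ζ.im (lam * ζ.im), ENNReal.ofReal (y ^ (eta - 1) * rr F (F ζ) y ^ (-q)) ≤
      (∫⁻ ζ in strip 0 b, ENNReal.ofReal (‖deriv F ζ‖ ^ 2) *
        ∫⁻ y in Ioc b (lam * b), ENNReal.ofReal (y ^ (eta - 1) * rr F (F ζ) y ^ (-q))) +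
      ∫⁻ y in Ioo 0 b, ENNReal.ofReal (y ^ (eta - 1)) *
        ∫⁻ ζ in strip 0 y, ENNReal.ofReal (‖deriv F ζ‖ ^ 2) *
          ENNReal.ofReal (rr F (F ζ) y ^ (-q) - lam ^ eta * rr F (F ζ) (lam * y) ^ (-q)) := by
  have hrm := measurable_rr F M hF
  have hWm : Measurable (fun ζ : ℂ => ENNReal.ofReal (‖deriv F ζ‖ ^ 2)) :=
    ((measurable_deriv F).norm.pow_const 2).ennreal_ofReal
  have hC0 := St_measC F hF.meas hrm q eta
  have hCm : Measurable (fun ζ : ℂ =>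
      ∫⁻ y in Ioc b (lam * b), ENNReal.ofReal (y ^ (eta - 1) * rr F (F ζ) y ^ (-q))) :=
    hC0.lintegral_prod_right'
  exact St_abs b (fun ζ : ℂ => ENNReal.ofReal (‖deriv F ζ‖ ^ 2))
    (fun ζ => ∫⁻ y in Ioc ζ.im (lam * ζ.im),
      ENNReal.ofReal (y ^ (eta - 1) * rr F (F ζ) y ^ (-q)))
    (fun ζ => ∫⁻ y in Ioc b (lam * b), ENNReal.ofReal (y ^ (eta - 1) * rr F (F ζ) y ^ (-q)))
    (fun ζ y => ENNReal.ofReal (y ^ (eta - 1) *
      (rr F (F ζ) y ^ (-q) - lam ^ eta * rr F (F ζ) (lam * y) ^ (-q))))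
    (fun ζ y => ENNReal.ofReal
      (rr F (F ζ) y ^ (-q) - lam ^ eta * rr F (F ζ) (lam * y) ^ (-q)))
    (fun y => ENNReal.ofReal (y ^ (eta - 1)))
    hWm hCm (St_measK F hF.meas hrm lam q eta) (St_measD F hF.meas hrm lam q eta)
    (fun y hy z => ENNReal.ofReal_mul (Real.rpow_nonneg hy.le _))
    (fun ζ h0 h1 => scaling (rr F (F ζ)) (rr_mono F (F ζ)) ζ.im b lam q eta h0 h1 hl hq
      (fun y hy => rr_pos F M hF hN ζ y h0 hy))

end H78.CN
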